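import Mathlib

set_option autoImplicit false
set_option linter.unusedSectionVars false
set_option linter.unusedVariables false
open Classical Finset

namespace Pool.Agent.Helper96.PC

variable {V : Type*} [Fintype V] [DecidableEq V]

/-- adjacency in an edge set -/
def Adj (E : Finset (Sym2 V)) (x y : V) : Prop := s(x, y) ∈ E

theorem Adj.symm {E : Finset (Sym2 V)} {x y : V} (h : Adj E x y) : Adj E y x := by
  unfold Adj at *
  rwa [Sym2.eq_swap]

/-- paths as lists of distinct vertices -/
def Pth (E : Finset (Sym2 V)) (l : List V) : Prop := l.Nodup ∧ l.IsChain (Adj E)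

theorem Pth.mono {E E' : Finset (Sym2 V)} (h : E ⊆ E') {l : List V} (hl : Pth E l) : Pth E' l :=
  ⟨hl.1, hl.2.imp (fun _ _ hab => h hab)⟩

theorem Pth.reverse {E : Finset (Sym2 V)} {l : List V} (hl : Pth E l) : Pth E l.reverse := by
  refine ⟨List.nodup_reverse.mpr hl.1, ?_⟩
  rw [List.isChain_reverse]
  exact hl.2.imp (fun _ _ hab => hab.symm)

theorem Pth.length_le {E : Finset (Sym2 V)} {l : List V} (hl : Pth E l) :
    l.length ≤ Fintype.card V := hl.1.length_le_card

/-- rotations -/
inductive Rot (E : Finset (Sym2 V)) (l : List V) : List V → Prop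
  | refl : Rot E l l
  | step (a : List V) (w : V) (b : List V) (u : V) : Rot E l (a ++ w :: b) →
      b.getLast? = some u → s(w, u) ∈ E → Rot E l (a ++ w :: b.reverse)

theorem rot_pth {E : Finset (Sym2 V)} {l l' : List V} (h : Rot E l l') (hl : Pth E l) :
    Pth E l' ∧ l'.length = l.length ∧ l'.head? = l.head? ∧ ∀ x, x ∈ l' ↔ x ∈ l := by
  induction h with
  | refl => exact ⟨hl, rfl, rfl, fun _ => Iff.rfl⟩
  | step a w b u hr hu hw ih =>
    obtain ⟨h1, h2, h3, h4⟩ := ih
    refine ⟨⟨?_, ?_⟩, ?_, ?_, ?_⟩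
    · have hp : (a ++ w :: b.reverse).Perm (a ++ w :: b) :=
        List.Perm.append_left a (List.Perm.cons w (List.reverse_perm b))
      exact (List.Perm.nodup_iff hp).mpr h1.1
    · have hc := h1.2
      rw [List.isChain_append, List.isChain_cons] at hc
      rw [List.isChain_append, List.isChain_cons]
      refine ⟨hc.1, ⟨?_, ?_⟩, hc.2.2⟩
      · intro y hy
        rw [List.head?_reverse, hu] at hy
        simp only [Option.mem_def, Option.some.injEq] at hy
        rw [← hy]
        exact hw
      · rw [List.isChain_reverse]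
        exact hc.2.1.2.imp (fun _ _ hab => hab.symm)
    · rw [← h2]
      simp
    · rw [← h3]
      rw [List.head?_append, List.head?_append]
      rfl
    · intro x
      rw [← h4 x]
      simp

/-- end points reachable by rotations -/
noncomputable def Ends (E : Finset (Sym2 V)) (l : List V) : Finset V :=
  univ.filter (fun u => ∃ l', Rot E l l' ∧ l'.getLast? = some u)

theorem mem_Ends {E : Finset (Sym2 V)} {l : List V} {u : V} :
    u ∈ Ends E l ↔ ∃ l', Rot E l l' ∧ l'.getLast? = some u := by
  unfold Ends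
  rw [Finset.mem_filter]
  exact ⟨fun h => h.2, fun h => ⟨Finset.mem_univ _, h⟩⟩

/-- `y` follows `x` on `l` -/
def Nx (l : List V) (x y : V) : Prop := ∃ i, ∃ h : i + 1 < l.length, l[i] = x ∧ l[i + 1] = y

theorem Nx.right_unique {l : List V} (hl : l.Nodup) {x y y' : V} (h : Nx l x y) (h' : Nx l x y') :
    y = y' := by
  obtain ⟨i, hi, h1, h2⟩ := h
  obtain ⟨j, hj, h3, h4⟩ := h'
  have : i = j := (hl.getElem_inj_iff (hi := by omega) (hj := by omega)).mp (h1.trans h3.symm)
  subst this
  rw [← h2, ← h4]

theorem Nx.left_unique {l : List V} (hl : l.Nodup) {x x' y : V} (h : Nx l x y) (h' : Nx l x' y) :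
    x = x' := by
  obtain ⟨i, hi, h1, h2⟩ := h
  obtain ⟨j, hj, h3, h4⟩ := h'
  have : i + 1 = j + 1 := (hl.getElem_inj_iff (hi := hi) (hj := hj)).mp (h2.trans h4.symm)
  have : i = j := by omega
  subst this
  rw [← h1, ← h3]

theorem Nx.ne_last {l : List V} (hl : l.Nodup) {x y z : V} (h : Nx l x y)
    (hz : l.getLast? = some z) : x ≠ z := by
  obtain ⟨i, hi, h1, h2⟩ := h
  intro hxz
  rw [List.getLast?_eq_getElem?] at hz
  have hlen : l.length - 1 < l.length := by omega
  rw [List.getElem?_eq_getElem hlen] at hz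
  have h3 : l[l.length - 1] = z := by simpa using hz
  have : i = l.length - 1 :=
    (hl.getElem_inj_iff (hi := by omega) (hj := hlen)).mp (by rw [h1, h3, hxz])
  omega

/-- Posa's lemma -/
theorem posa {E : Finset (Sym2 V)} {l : List V} (hl : Pth E l)
    (hmax : ∀ l', Pth E l' → l'.length ≤ l.length) {u w : V} (hu : u ∈ Ends E l)
    (huw : s(u, w) ∈ E) (hw : w ∉ Ends E l) :
    ∃ y ∈ Ends E l, Nx l w y ∨ Nx l y w := by
  by_contra hcon
  push Not at hcon
  have hlast : ∀ (a : List V) (x : V) (b : List V), b ≠ [] →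
      (a ++ x :: b).getLast? = b.getLast? := by
    intro a x b hb
    rw [List.getLast?_append]
    cases b with
    | nil => exact absurd rfl hb
    | cons y b =>
      rw [List.getLast?_cons_cons]
      cases h : (y :: b).getLast? with
      | none => rw [List.getLast?_eq_none_iff] at h; exact absurd h hb
      | some z => rfl
  have hbr : ∀ (a : List V) (x b₀ : V) (b : List V) (u' : V), Rot E l (a ++ x :: b₀ :: b) →
      (b₀ :: b).getLast? = some u' → s(x, u') ∈ E → b₀ ∈ Ends E l := by
    intro a x b₀ b u' hr h1 h2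
    rw [mem_Ends]
    refine ⟨_, Rot.step a x (b₀ :: b) u' hr h1 h2, ?_⟩
    rw [hlast _ _ _ (by simp), List.getLast?_reverse]
    rfl
  have hinv : ∀ l', Rot E l l' →
      l'.IsChain (fun x y => (x = w ∨ y = w) → Nx l x y ∨ Nx l y x) := by
    intro l' hr
    induction hr with
    | refl =>
      rw [List.isChain_iff_getElem]
      intro i hi _
      exact Or.inl ⟨i, hi, rfl, rfl⟩
    | step a w' b u' hr hu' hw' ih =>
      have hbne : b ≠ [] := by rintro rfl; simp at hu'
      obtain ⟨b₀, b', rfl⟩ := List.exists_cons_of_ne_nil hbne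
      have hu'E : u' ∈ Ends E l := by
        rw [mem_Ends]
        exact ⟨_, hr, by rw [hlast _ _ _ hbne]; exact hu'⟩
      rw [List.isChain_append, List.isChain_cons] at ih
      rw [List.isChain_append, List.isChain_cons]
      refine ⟨ih.1, ⟨?_, ?_⟩, ih.2.2⟩
      · intro y hy hyw
        exfalso
        rw [List.head?_reverse, hu'] at hy
        simp only [Option.mem_def, Option.some.injEq] at hy
        subst hy
        rcases hyw with rfl | rfl
        · have h1 := ih.2.1.1 b₀ (by simp) (Or.inl rfl)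
          have h2 := hbr a w' b₀ b' u' hr hu' hw'
          have h3 := hcon b₀ h2
          tauto
        · exact hw hu'E
      · rw [List.isChain_reverse]
        refine ih.2.1.2.imp ?_
        intro x y hxy hyx
        exact (hxy hyx.symm).symm
  obtain ⟨l', hr, hlu⟩ := mem_Ends.mp hu
  obtain ⟨hp, hlen, _, _⟩ := rot_pth hr hl
  have hwl : w ∈ l' := by
    by_contra hwl
    have hp' : Pth E (l' ++ [w]) := by
      refine ⟨?_, ?_⟩
      · rw [List.nodup_append]
        refine ⟨hp.1, by simp, ?_⟩
        intro x hx y hy hxy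
        simp only [List.mem_singleton] at hy
        exact hwl (hy ▸ hxy ▸ hx)
      · rw [List.isChain_append]
        refine ⟨hp.2, by simp, ?_⟩
        intro x hx y hy
        rw [hlu] at hx
        simp only [Option.mem_def, Option.some.injEq, List.head?_cons] at hx hy
        rw [← hx, ← hy]
        exact huw
    have := hmax _ hp'
    rw [List.length_append, hlen] at this
    simp at this
  obtain ⟨a, b, rfl⟩ := List.append_of_mem hwl
  have hwu : w ≠ u := fun h => hw (h ▸ hu)
  have hbne : b ≠ [] := by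
    rintro rfl
    rw [List.getLast?_append] at hlu
    simp at hlu
    exact hwu hlu
  rw [hlast _ _ _ hbne] at hlu
  obtain ⟨b₀, b', rfl⟩ := List.exists_cons_of_ne_nil hbne
  have h1 := hbr a w b₀ b' u hr hlu (by rw [Sym2.eq_swap]; exact huw)
  have h2 := hinv _ hr
  rw [List.isChain_append, List.isChain_cons] at h2
  have h3 := h2.2.1.1 b₀ (by simp) (Or.inl rfl)
  have h4 := hcon b₀ h1
  tauto

/-- external neighbourhood -/
noncomputable def extN (E : Finset (Sym2 V)) (X : Finset V) : Finset V :=
  univ.filter (fun w => w ∉ X ∧ ∃ x ∈ X, s(x, w) ∈ E)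

theorem mem_extN {E : Finset (Sym2 V)} {X : Finset V} {w : V} :
    w ∈ extN E X ↔ w ∉ X ∧ ∃ x ∈ X, s(x, w) ∈ E := by
  unfold extN
  rw [Finset.mem_filter]
  exact ⟨fun h => h.2, fun h => ⟨Finset.mem_univ _, h⟩⟩

theorem extN_mono {E E' : Finset (Sym2 V)} (h : E ⊆ E') (X : Finset V) : extN E X ⊆ extN E' X := by
  intro w hw
  rw [mem_extN] at *
  obtain ⟨h1, x, hx, h2⟩ := hw
  exact ⟨h1, x, hx, h h2⟩

theorem posa_card {E : Finset (Sym2 V)} {l : List V} (hl : Pth E l)
    (hmax : ∀ l', Pth E l' → l'.length ≤ l.length) (hne : l ≠ []) :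
    (extN E (Ends E l)).card + 1 ≤ 2 * (Ends E l).card := by
  set S := Ends E l with hS
  obtain ⟨z, hz⟩ : ∃ z, l.getLast? = some z := by
    cases h : l.getLast? with
    | none => rw [List.getLast?_eq_none_iff] at h; exact absurd h hne
    | some z => exact ⟨z, rfl⟩
  have hzS : z ∈ S := by rw [hS, mem_Ends]; exact ⟨l, Rot.refl, hz⟩
  set A := univ.filter (fun w => ∃ y ∈ S, Nx l w y) with hA
  set B := univ.filter (fun w => ∃ y ∈ S, Nx l y w) with hB
  have hsub : extN E S ⊆ A ∪ B := by
    intro w hw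
    rw [mem_extN] at hw
    obtain ⟨h1, u, hu, h2⟩ := hw
    obtain ⟨y, hy, h3⟩ := posa hl hmax hu h2 h1
    rw [Finset.mem_union, hA, hB, Finset.mem_filter, Finset.mem_filter]
    rcases h3 with h3 | h3
    · exact Or.inl ⟨Finset.mem_univ _, y, hy, h3⟩
    · exact Or.inr ⟨Finset.mem_univ _, y, hy, h3⟩
  have hAc : A.card ≤ S.card := by
    have hex : ∀ w, w ∈ A → ∃ y ∈ S, Nx l w y := by
      intro w hw
      rw [hA, Finset.mem_filter] at hw
      exact hw.2
    choose! f hf1 hf2 using hex
    apply Finset.card_le_card_of_injOn f hf1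
    intro w hw w' hw' h
    have h1 := hf2 w hw
    have h2 := hf2 w' hw'
    rw [h] at h1
    exact h1.left_unique hl.1 h2
  have hBc : B.card ≤ (S.erase z).card := by
    have hex : ∀ w, w ∈ B → ∃ y ∈ S.erase z, Nx l y w := by
      intro w hw
      rw [hB, Finset.mem_filter] at hw
      obtain ⟨_, y, hy, h⟩ := hw
      exact ⟨y, Finset.mem_erase.mpr ⟨h.ne_last hl.1 hz, hy⟩, h⟩
    choose! f hf1 hf2 using hex
    apply Finset.card_le_card_of_injOn f hf1
    intro w hw w' hw' h
    have h1 := hf2 w hw
    have h2 := hf2 w' hw'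
    rw [h] at h1
    exact h1.right_unique hl.1 h2
  have h1 := (Finset.card_le_card hsub).trans (Finset.card_union_le _ _)
  rw [Finset.card_erase_of_mem hzS] at hBc
  have h2 : 0 < S.card := Finset.card_pos.mpr ⟨z, hzS⟩
  omega

end Pool.Agent.Helper96.PC
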