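import Mathlib
import Pool.Agent.Helper96.PC.Posa

set_option autoImplicit false
set_option linter.unusedSectionVars false
set_option linter.unusedVariables false
open Classical Finset

namespace Pool.Agent.Helper96.PC

variable {V : Type*} [Fintype V] [DecidableEq V]

/-- number of vertices of a longest path -/
noncomputable def Lmax (E : Finset (Sym2 V)) : ℕ :=
  Nat.findGreatest (fun m => ∃ l : List V, Pth E l ∧ l.length = m) (Fintype.card V)

theorem Lmax_spec (E : Finset (Sym2 V)) : ∃ l : List V, Pth E l ∧ l.length = Lmax E := by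
  unfold Lmax
  apply Nat.findGreatest_spec (P := fun m => ∃ l : List V, Pth E l ∧ l.length = m) (Nat.zero_le _)
  exact ⟨[], ⟨List.nodup_nil, List.IsChain.nil⟩, rfl⟩

theorem le_Lmax {E : Finset (Sym2 V)} {l : List V} (hl : Pth E l) : l.length ≤ Lmax E := by
  unfold Lmax
  exact Nat.le_findGreatest hl.length_le ⟨l, hl, rfl⟩

theorem Lmax_le (E : Finset (Sym2 V)) : Lmax E ≤ Fintype.card V := Nat.findGreatest_le _

theorem Lmax_mono {E E' : Finset (Sym2 V)} (h : E ⊆ E') : Lmax E ≤ Lmax E' := by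
  obtain ⟨l, hl, hlen⟩ := Lmax_spec E
  rw [← hlen]
  exact le_Lmax (hl.mono h)

/-- pairs that are the two ends of a longest path -/
noncomputable def Boost (E : Finset (Sym2 V)) : Finset (Sym2 V) :=
  univ.filter (fun e => ∃ (l : List V) (u v : V), Pth E l ∧ l.length = Lmax E ∧
    l.head? = some u ∧ l.getLast? = some v ∧ u ≠ v ∧ e = s(u, v))

theorem mem_Boost {E : Finset (Sym2 V)} {e : Sym2 V} : e ∈ Boost E ↔
    ∃ (l : List V) (u v : V), Pth E l ∧ l.length = Lmax E ∧
    l.head? = some u ∧ l.getLast? = some v ∧ u ≠ v ∧ e = s(u, v) := by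
  unfold Boost
  rw [Finset.mem_filter]
  exact ⟨fun h => h.2, fun h => ⟨Finset.mem_univ _, h⟩⟩

/-- all edges are inside `W` -/
def InW (E : Finset (Sym2 V)) (W : Finset V) : Prop := ∀ x y, s(x, y) ∈ E → x ∈ W ∧ y ∈ W

theorem InW.anti {E E' : Finset (Sym2 V)} {W : Finset V} (h : E ⊆ E') (hW : InW E' W) : InW E W :=
  fun x y hxy => hW x y (h hxy)

theorem pth_mem {E : Finset (Sym2 V)} {W : Finset V} (hW : InW E W) {l : List V} (hl : Pth E l)
    (hlen : 2 ≤ l.length) {x : V} (hx : x ∈ l) : x ∈ W := by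
  obtain ⟨i, hi, rfl⟩ := List.getElem_of_mem hx
  have hc := List.isChain_iff_getElem.mp hl.2
  by_cases h : i + 1 < l.length
  · exact (hW _ _ (hc i h)).1
  · obtain ⟨j, rfl⟩ : ∃ j, i = j + 1 := ⟨i - 1, by omega⟩
    exact (hW _ _ (hc j hi)).2

/-- expansion of small sets -/
def Expd (E : Finset (Sym2 V)) (W : Finset V) (m : ℕ) : Prop :=
  ∀ X ⊆ W, X.Nonempty → X.card ≤ m → 2 * X.card ≤ (extN E X).card

theorem Expd.mono {E E' : Finset (Sym2 V)} (h : E ⊆ E') {W : Finset V} {m : ℕ} (hE : Expd E W m) :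
    Expd E' W m := fun X hX hne hm =>
  (hE X hX hne hm).trans (Finset.card_le_card (extN_mono h X))

theorem ends_large {E : Finset (Sym2 V)} {W : Finset V} (hW : InW E W) {m : ℕ}
    (hE : Expd E W m) {l : List V} (hl : Pth E l) (hlen : l.length = Lmax E) (h2 : 2 ≤ Lmax E) :
    m + 1 ≤ (Ends E l).card := by
  by_contra hcon
  push Not at hcon
  have hne : l ≠ [] := by
    rintro rfl
    simp at hlen
    omega
  have hmax : ∀ l', Pth E l' → l'.length ≤ l.length := fun l' hl' => by
    rw [hlen]; exact le_Lmax hl'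
  have h1 := posa_card hl hmax hne
  have hsub : Ends E l ⊆ W := by
    intro u hu
    obtain ⟨l', hr, hlu⟩ := mem_Ends.mp hu
    obtain ⟨hp, hlen', _, _⟩ := rot_pth hr hl
    exact pth_mem hW hp (by omega) (List.mem_of_getLast? hlu)
  have hSne : (Ends E l).Nonempty := by
    rw [← Finset.card_pos]; omega
  have h3 := hE _ hsub hSne (by omega)
  omega

theorem card_Boost {E : Finset (Sym2 V)} {W : Finset V} (hW : InW E W) {m : ℕ}
    (hE : Expd E W m) (h2 : 2 ≤ Lmax E) : (m + 1) ^ 2 ≤ 2 * (Boost E).card := by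
  set D : Finset (V × V) := univ.filter (fun p => ∃ l : List V, Pth E l ∧ l.length = Lmax E ∧
    l.head? = some p.1 ∧ l.getLast? = some p.2 ∧ p.1 ≠ p.2) with hD
  obtain ⟨l, hl, hlen⟩ := Lmax_spec E
  have hS := ends_large hW hE hl hlen h2
  have hex : ∀ u ∈ Ends E l, ∃ r : List V, Pth E r ∧ r.length = Lmax E ∧ r.head? = some u := by
    intro u hu
    obtain ⟨l', hr, hlu⟩ := mem_Ends.mp hu
    obtain ⟨hp, hlen', _, _⟩ := rot_pth hr hl
    refine ⟨l'.reverse, hp.reverse, ?_, ?_⟩
    · rw [List.length_reverse, hlen', hlen]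
    · rw [List.head?_reverse, hlu]
  choose! r hr1 hr2 hr3 using hex
  have hsub : (Ends E l).biUnion (fun u => (Ends E (r u)).image (fun v => (u, v))) ⊆ D := by
    intro p hp
    rw [Finset.mem_biUnion] at hp
    obtain ⟨u, hu, hp⟩ := hp
    rw [Finset.mem_image] at hp
    obtain ⟨v, hv, rfl⟩ := hp
    obtain ⟨l', hr, hlv⟩ := mem_Ends.mp hv
    obtain ⟨hp, hlen', hhead, _⟩ := rot_pth hr (hr1 u hu)
    rw [hD, Finset.mem_filter]
    refine ⟨Finset.mem_univ _, l', hp, by rw [hlen', hr2 u hu], by rw [hhead, hr3 u hu], hlv, ?_⟩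
    rintro h
    simp only at h
    subst h
    have hl2 : 2 ≤ l'.length := by rw [hlen', hr2 u hu]; exact h2
    rw [hr3 u hu] at hhead
    rw [List.getLast?_eq_getElem?, List.getElem?_eq_getElem (by omega)] at hlv
    rw [List.head?_eq_getElem?, List.getElem?_eq_getElem (by omega)] at hhead
    simp only [Option.some.injEq] at hlv hhead
    have := (hp.1.getElem_inj_iff (hi := by omega) (hj := by omega)).mp (hlv.trans hhead.symm)
    omega
  have hcard1 : (m + 1) ^ 2 ≤ D.card := by
    refine le_trans ?_ (Finset.card_le_card hsub)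
    rw [Finset.card_biUnion]
    · calc (m + 1) ^ 2 = (m + 1) * (m + 1) := by ring
        _ ≤ (Ends E l).card * (m + 1) := Nat.mul_le_mul_right _ hS
        _ = ∑ u ∈ Ends E l, (m + 1) := by rw [Finset.sum_const, smul_eq_mul]
        _ ≤ _ := by
            apply Finset.sum_le_sum
            intro u hu
            rw [Finset.card_image_of_injective _ (Prod.mk_right_injective u)]
            exact ends_large hW hE (hr1 u hu) (hr2 u hu) h2
    · intro u hu u' hu' hne
      rw [Function.onFun, Finset.disjoint_left]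
      intro p hp hp'
      rw [Finset.mem_image] at hp hp'
      obtain ⟨v, _, rfl⟩ := hp
      obtain ⟨v', _, h⟩ := hp'
      exact hne (Prod.mk.inj h).1.symm
  have hcard2 : D.card ≤ 2 * (D.image (fun p => s(p.1, p.2))).card := by
    apply Finset.card_le_mul_card_image
    intro e he
    induction e using Sym2.ind with
    | _ a b =>
      have : (D.filter (fun x => s(x.1, x.2) = s(a, b))) ⊆ {(a, b), (b, a)} := by
        intro p hp
        rw [Finset.mem_filter, Sym2.eq_iff] at hp
        rw [Finset.mem_insert, Finset.mem_singleton]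
        rcases hp.2 with ⟨h1, h3⟩ | ⟨h1, h3⟩
        · left; exact Prod.ext h1 h3
        · right; exact Prod.ext h1 h3
      exact (Finset.card_le_card this).trans Finset.card_le_two
  have hcard3 : D.image (fun p => s(p.1, p.2)) ⊆ Boost E := by
    intro e he
    rw [Finset.mem_image] at he
    obtain ⟨p, hp, rfl⟩ := he
    rw [hD, Finset.mem_filter] at hp
    obtain ⟨_, l', h1, h3, h4, h5, h6⟩ := hp
    rw [mem_Boost]
    exact ⟨l', p.1, p.2, h1, h3, h4, h5, h6, rfl⟩
  have h7 := Finset.card_le_card hcard3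
  omega

/-- there is a Hamilton cycle on `W` -/
def HamOn (E : Finset (Sym2 V)) (W : Finset V) : Prop :=
  ∃ (l : List V) (u v : V), Pth E l ∧ l.head? = some u ∧ l.getLast? = some v ∧ s(v, u) ∈ E ∧
    ∀ x, x ∈ l ↔ x ∈ W

theorem HamOn.mono {E E' : Finset (Sym2 V)} (h : E ⊆ E') {W : Finset V} (hE : HamOn E W) :
    HamOn E' W := by
  obtain ⟨l, u, v, h1, h2, h3, h4, h5⟩ := hE
  exact ⟨l, u, v, h1.mono h, h2, h3, h h4, h5⟩

/-- connectivity on `W` -/
def ConnOn (E : Finset (Sym2 V)) (W : Finset V) : Prop :=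
  ∀ X ⊆ W, X.Nonempty → X ≠ W → ∃ x ∈ X, ∃ y ∈ W, y ∉ X ∧ s(x, y) ∈ E

theorem ConnOn.mono {E E' : Finset (Sym2 V)} (h : E ⊆ E') {W : Finset V} (hE : ConnOn E W) :
    ConnOn E' W := by
  intro X hX hne hXW
  obtain ⟨x, hx, y, hy, h1, h2⟩ := hE X hX hne hXW
  exact ⟨x, hx, y, hy, h1, h h2⟩

theorem booster_step {E E' : Finset (Sym2 V)} {W : Finset V} (hEE : E ⊆ E') (hW : InW E W)
    (hconn : ConnOn E W) (h2 : 2 ≤ Lmax E) {e : Sym2 V} (he : e ∈ Boost E) (heE : e ∈ E') :
    HamOn E' W ∨ Lmax E < Lmax E' := by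
  obtain ⟨l, u, v, hl, hlen, hu, hv, huv, rfl⟩ := mem_Boost.mp he
  have hlW : ∀ x ∈ l, x ∈ W := fun x hx => pth_mem hW hl (by omega) hx
  by_cases hall : ∀ x ∈ W, x ∈ l
  · left
    exact ⟨l, u, v, hl.mono hEE, hu, hv, by rw [Sym2.eq_swap]; exact heE,
      fun x => ⟨hlW x, hall x⟩⟩
  · right
    push Not at hall
    obtain ⟨z, hzW, hzl⟩ := hall
    obtain ⟨x, hx, y, hyW, hyX, hxy⟩ := hconn l.toFinset (fun x hx => hlW x (List.mem_toFinset.mp hx))
      ⟨u, List.mem_toFinset.mpr (List.mem_of_head? hu)⟩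
      (fun h => hzl (List.mem_toFinset.mp (h ▸ hzW)))
    rw [List.mem_toFinset] at hx hyX
    obtain ⟨a, b, rfl⟩ := List.append_of_mem hx
    have hp : Pth E' (y :: (x :: b ++ a)) := by
      refine ⟨?_, ?_⟩
      · have hperm : (x :: b ++ a).Perm (a ++ x :: b) := List.perm_append_comm
        rw [List.nodup_cons]
        exact ⟨fun h => hyX (hperm.mem_iff.mp h), hperm.nodup_iff.mpr hl.1⟩
      · have hc := hl.2
        rw [List.isChain_append] at hc
        rw [List.isChain_cons]
        refine ⟨?_, ?_⟩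
        · intro t ht
          simp only [List.cons_append, List.head?_cons, Option.mem_def, Option.some.injEq] at ht
          subst ht
          apply hEE
          rw [Sym2.eq_swap]
          exact hxy
        · rw [List.isChain_append]
          refine ⟨hc.2.1.imp (fun _ _ h => hEE h), hc.1.imp (fun _ _ h => hEE h), ?_⟩
          intro s hs t ht
          have hs' : s = v := by
            rw [List.getLast?_append, Option.mem_def.mp hs] at hv
            simpa using hv
          have ht' : t = u := by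
            rw [List.head?_append, Option.mem_def.mp ht] at hu
            simpa using hu
          subst hs' ht'
          change s(_, _) ∈ E'
          rw [Sym2.eq_swap]
          exact heE
    have h3 := le_Lmax hp
    simp only [List.length_cons, List.length_append, List.cons_append] at h3 hlen
    omega

theorem ham_of_boosters {Γ₀ H' : Finset (Sym2 V)} {W : Finset V} (h0 : Γ₀ ⊆ H') (hW : InW H' W)
    (hconn : ConnOn Γ₀ W) (hL : 2 ≤ Lmax Γ₀)
    (hb : ∀ Γ, Γ₀ ⊆ Γ → Γ ⊆ H' → (Γ \ Γ₀).card ≤ Fintype.card V → ¬ HamOn Γ W →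
      ∃ e ∈ Boost Γ, e ∈ H') : HamOn H' W := by
  by_contra hcon
  have key : ∀ j, j ≤ Fintype.card V + 1 → ∃ Γ, Γ₀ ⊆ Γ ∧ Γ ⊆ H' ∧ (Γ \ Γ₀).card ≤ j ∧
      j ≤ Lmax Γ := by
    intro j
    induction j with
    | zero =>
      intro _
      exact ⟨Γ₀, Finset.Subset.refl _, h0, by simp, Nat.zero_le _⟩
    | succ j ih =>
      intro hj
      obtain ⟨Γ, h1, h2, h3, h4⟩ := ih (by omega)
      obtain ⟨e, he1, he2⟩ := hb Γ h1 h2 (by omega) (fun h => hcon (h.mono h2))
      have h5 : insert e Γ ⊆ H' := Finset.insert_subset he2 h2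
      refine ⟨insert e Γ, h1.trans (Finset.subset_insert _ _), h5, ?_, ?_⟩
      · have : insert e Γ \ Γ₀ ⊆ insert e (Γ \ Γ₀) := by
          intro x hx
          rw [Finset.mem_sdiff, Finset.mem_insert] at hx
          rw [Finset.mem_insert, Finset.mem_sdiff]
          tauto
        have h6 := (Finset.card_le_card this).trans (Finset.card_insert_le _ _)
        omega
      · rcases booster_step (Finset.subset_insert e Γ) (hW.anti h2) (hconn.mono h1)
          (hL.trans (Lmax_mono h1)) he1 (Finset.mem_insert_self _ _) with h6 | h6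
        · exact absurd (h6.mono h5) hcon
        · omega
  obtain ⟨Γ, _, _, _, h4⟩ := key _ le_rfl
  have := Lmax_le Γ
  omega

end Pool.Agent.Helper96.PC
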