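import Mathlib
import Pool.Agent.Helper96.PC.Boost

set_option autoImplicit false
set_option linter.unusedSectionVars false
set_option linter.unusedVariables false
open Classical Finset

namespace Pool.Agent.Helper96.PC

variable {V : Type*} [Fintype V] [DecidableEq V]

/-- `W` can be covered by `m` disjoint paths -/
def Cov (E : Finset (Sym2 V)) (W : Finset V) (m : ℕ) : Prop :=
  ∃ L : List (List V), L.length = m ∧ (∀ l ∈ L, l ≠ [] ∧ l.IsChain (Adj E)) ∧ L.flatten.Nodup ∧
    ∀ v, v ∈ L.flatten ↔ v ∈ W

theorem Cov.mono {E E' : Finset (Sym2 V)} (h : E ⊆ E') {W : Finset V} {m : ℕ} (hc : Cov E W m) :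
    Cov E' W m := by
  obtain ⟨L, h1, h2, h3, h4⟩ := hc
  exact ⟨L, h1, fun l hl => ⟨(h2 l hl).1, (h2 l hl).2.imp (fun _ _ hab => h hab)⟩, h3, h4⟩

theorem Cov.add {E : Finset (Sym2 V)} {W : Finset V} {m : ℕ} (hc : Cov E W m) {v : V}
    (hv : v ∉ W) : Cov E (insert v W) (m + 1) := by
  obtain ⟨L, h1, h2, h3, h4⟩ := hc
  refine ⟨[v] :: L, by simp [h1], ?_, ?_, ?_⟩
  · intro l hl
    rw [List.mem_cons] at hl
    rcases hl with rfl | hl
    · exact ⟨by simp, List.IsChain.singleton _⟩
    · exact h2 l hl
  · rw [List.flatten_cons, List.singleton_append, List.nodup_cons]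
    exact ⟨fun h => hv ((h4 v).mp h), h3⟩
  · intro x
    rw [List.flatten_cons, List.singleton_append, List.mem_cons, h4, Finset.mem_insert]

theorem Cov.addSet {E : Finset (Sym2 V)} {W : Finset V} {m : ℕ} (hc : Cov E W m) {T : Finset V}
    (hT : Disjoint T W) : Cov E (T ∪ W) (m + T.card) := by
  induction T using Finset.induction_on with
  | empty => simpa using hc
  | insert a T ha ih =>
    rw [Finset.disjoint_insert_left] at hT
    have h1 := (ih hT.2).add (v := a) (by
      rw [Finset.mem_union]
      rintro (h | h)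
      · exact ha h
      · exact hT.1 h)
    rw [Finset.card_insert_of_notMem ha, Finset.insert_union, ← Nat.add_assoc]
    exact h1

/-- a Hamilton cycle read off from a given vertex -/
theorem cyc_at {E : Finset (Sym2 V)} {W : Finset V} (h : HamOn E W) {w : V} (hw : w ∈ W) :
    ∃ t : List V, (w :: t).Nodup ∧ (w :: t).IsChain (Adj E) ∧ (∀ x, x ∈ w :: t ↔ x ∈ W) ∧
      ∀ z ∈ t.getLast?, s(z, w) ∈ E := by
  obtain ⟨l, u, v, hl, hu, hv, hvu, hW⟩ := h
  obtain ⟨a, b, rfl⟩ := List.append_of_mem ((hW w).mpr hw)
  have hperm : (w :: (b ++ a)).Perm (a ++ w :: b) := by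
    have : (w :: b ++ a).Perm (a ++ w :: b) := List.perm_append_comm
    simpa using this
  have hc := hl.2
  rw [List.isChain_append] at hc
  refine ⟨b ++ a, hperm.nodup_iff.mpr hl.1, ?_, ?_, ?_⟩
  · have : (w :: (b ++ a)) = (w :: b) ++ a := by simp
    rw [this, List.isChain_append]
    refine ⟨hc.2.1, hc.1, ?_⟩
    intro s hs t ht
    have hs' : s = v := by
      rw [List.getLast?_append, Option.mem_def.mp hs] at hv
      simpa using hv
    have ht' : t = u := by
      rw [List.head?_append, Option.mem_def.mp ht] at hu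
      simpa using hu
    subst hs' ht'
    exact hvu
  · intro x
    rw [hperm.mem_iff]
    exact hW x
  · intro z hz
    rw [List.getLast?_append, Option.mem_def] at hz
    cases a with
    | nil =>
      simp only [List.getLast?_nil, Option.none_or] at hz
      simp only [List.nil_append, List.head?_cons, Option.some.injEq] at hu
      have : z = v := by
        rw [List.nil_append, List.getLast?_cons, hz] at hv
        simpa using hv
      subst this hu
      exact hvu
    | cons a₀ a' =>
      cases h : (a₀ :: a').getLast? with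
      | none => rw [List.getLast?_eq_none_iff] at h; simp at h
      | some y =>
        rw [h] at hz
        simp only [Option.some_or, Option.some.injEq] at hz
        subst hz
        exact hc.2.2 y h w (by simp)

theorem HamOn.cov {E : Finset (Sym2 V)} {W : Finset V} (h : HamOn E W) : Cov E W 1 := by
  obtain ⟨l, u, v, hl, hu, hv, hvu, hW⟩ := h
  refine ⟨[l], rfl, ?_, by simpa using hl.1, by simpa using hW⟩
  intro l' hl'
  rw [List.mem_singleton] at hl'
  subst hl'
  refine ⟨?_, hl.2⟩
  rintro rfl
  simp at hu

theorem HamOn.attach {E : Finset (Sym2 V)} {W : Finset V} (h : HamOn E W) {v w : V} (hv : v ∉ W)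
    (hw : w ∈ W) (hvw : s(v, w) ∈ E) : Cov E (insert v W) 1 := by
  obtain ⟨t, h1, h2, h3, _⟩ := cyc_at h hw
  refine ⟨[v :: w :: t], rfl, ?_, ?_, ?_⟩
  · intro l hl
    rw [List.mem_singleton] at hl
    subst hl
    refine ⟨by simp, ?_⟩
    rw [List.isChain_cons_cons]
    exact ⟨hvw, h2⟩
  · simp only [List.flatten_cons, List.flatten_nil, List.append_nil]
    rw [List.nodup_cons]
    exact ⟨fun h' => hv ((h3 v).mp h'), h1⟩
  · intro x
    simp only [List.flatten_cons, List.flatten_nil, List.append_nil]
    rw [List.mem_cons, h3, Finset.mem_insert]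

theorem chain_avoid {E : Finset (Sym2 V)} {u w : V} {l : List V}
    (hl : l.IsChain (Adj (insert s(u, w) E))) (hw : w ∉ l) : l.IsChain (Adj E) := by
  rw [List.isChain_iff_getElem] at *
  intro i hi
  have h1 := hl i hi
  unfold Adj at *
  rw [Finset.mem_insert] at h1
  rcases h1 with h1 | h1
  · exfalso
    rw [Sym2.eq_iff] at h1
    rcases h1 with ⟨_, h2⟩ | ⟨h2, _⟩
    · exact hw (h2 ▸ List.getElem_mem _)
    · exact hw (h2 ▸ List.getElem_mem _)
  · exact h1

theorem HamOn.attach_virtual {E : Finset (Sym2 V)} {W : Finset V} {u v w : V}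
    (h : HamOn (insert s(u, w) E) W) (hW3 : 3 ≤ W.card) (hv : v ∉ W) (hw : w ∈ W) (huw : u ≠ w)
    (hvw : s(v, w) ∈ E) : Cov E (insert v W) 1 := by
  obtain ⟨t, h1, h2, h3, h4⟩ := cyc_at h hw
  have hnd := h1
  rw [List.nodup_cons] at h1
  have htlen : 2 ≤ t.length := by
    have hcard : W.card = (w :: t).length := by
      have : W = (w :: t).toFinset := by
        ext x
        rw [List.mem_toFinset, h3]
      rw [this, List.toFinset_card_of_nodup hnd]
    rw [List.length_cons] at hcard
    omega
  rw [List.isChain_cons] at h2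
  have htE : t.IsChain (Adj E) := chain_avoid h2.2 h1.1
  suffices hsuff : ∃ t' : List V, t'.Perm t ∧ (w :: t').IsChain (Adj E) by
    obtain ⟨t', hp, hc⟩ := hsuff
    refine ⟨[v :: w :: t'], rfl, ?_, ?_, ?_⟩
    · intro l hl
      rw [List.mem_singleton] at hl
      subst hl
      refine ⟨by simp, ?_⟩
      rw [List.isChain_cons_cons]
      exact ⟨hvw, hc⟩
    · simp only [List.flatten_cons, List.flatten_nil, List.append_nil]
      have hp' : (v :: w :: t').Perm (v :: w :: t) := List.Perm.cons v (List.Perm.cons w hp)
      rw [hp'.nodup_iff, List.nodup_cons]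
      exact ⟨fun h' => hv ((h3 v).mp h'), hnd⟩
    · intro x
      simp only [List.flatten_cons, List.flatten_nil, List.append_nil]
      have hp' : (v :: w :: t').Perm (v :: w :: t) := List.Perm.cons v (List.Perm.cons w hp)
      rw [hp'.mem_iff, List.mem_cons, h3, Finset.mem_insert]
  by_cases hhead : t.head? = some u
  · refine ⟨t.reverse, List.reverse_perm t, ?_⟩
    rw [List.isChain_cons]
    refine ⟨?_, ?_⟩
    · intro y hy
      rw [List.head?_reverse] at hy
      have h5 := h4 y hy
      rw [Finset.mem_insert] at h5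
      rcases h5 with h5 | h5
      · exfalso
        rw [Sym2.eq_iff] at h5
        rcases h5 with ⟨h6, _⟩ | ⟨h6, _⟩
        · subst h6
          rw [Option.mem_def, List.getLast?_eq_getElem?, List.getElem?_eq_getElem (by omega)] at hy
          rw [List.head?_eq_getElem?, List.getElem?_eq_getElem (by omega)] at hhead
          simp only [Option.some.injEq] at hy hhead
          have := (h1.2.getElem_inj_iff (hi := by omega) (hj := by omega)).mp
            (hy.trans hhead.symm)
          omega
        · subst h6
          exact h1.1 (List.mem_of_getLast? hy)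
      · change s(w, y) ∈ E
        rw [Sym2.eq_swap]; exact h5
    · rw [List.isChain_reverse]
      exact htE.imp (fun _ _ h => h.symm)
  · refine ⟨t, List.Perm.refl t, ?_⟩
    rw [List.isChain_cons]
    refine ⟨?_, htE⟩
    intro y hy
    have h5 := h2.1 y hy
    unfold Adj at h5
    rw [Finset.mem_insert] at h5
    rcases h5 with h5 | h5
    · exfalso
      rw [Sym2.eq_iff] at h5
      rcases h5 with ⟨h6, _⟩ | ⟨_, h6⟩
      · exact huw h6.symm
      · subst h6
        exact hhead hy
    · exact h5

/-- every consecutive pair is fine, or there is a place where `s(u,w)` is used -/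
theorem chain_split {E : Finset (Sym2 V)} {u w : V} {l : List V} (hnd : l.Nodup)
    (hl : l.IsChain (Adj (insert s(u, w) E))) :
    l.IsChain (Adj E) ∨ ∃ (a b : List V) (x y : V), l = a ++ x :: y :: b ∧
      (a ++ [x]).IsChain (Adj E) ∧ (y :: b).IsChain (Adj E) ∧ (w = x ∨ w = y) := by
  by_cases h : l.IsChain (Adj E)
  · exact Or.inl h
  · right
    rw [List.isChain_iff_getElem] at h
    push Not at h
    obtain ⟨i, hi, hbad⟩ := h
    have hgood := List.isChain_iff_getElem.mp hl i hi
    unfold Adj at hgood hbad
    rw [Finset.mem_insert] at hgood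
    have heq : s(l[i], l[i + 1]) = s(u, w) := by tauto
    have hwxy : w = l[i] ∨ w = l[i + 1] := by
      rw [Sym2.eq_iff] at heq
      tauto
    have hsplit : l = l.take i ++ l[i] :: l[i + 1] :: l.drop (i + 2) := by
      conv_lhs => rw [← List.take_append_drop i l]
      congr 1
      rw [List.drop_eq_getElem_cons (by omega : i < l.length), List.drop_eq_getElem_cons hi]
    have hkey : ∀ j (hj : j + 1 < l.length), j ≠ i → s(l[j], l[j + 1]) ∈ E := by
      intro j hj hji
      have h1 := List.isChain_iff_getElem.mp hl j hj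
      unfold Adj at h1
      rw [Finset.mem_insert] at h1
      rcases h1 with h1 | h1
      · exfalso
        rw [← heq, Sym2.eq_iff] at h1
        rcases h1 with ⟨h2, _⟩ | ⟨h2, h3⟩
        · exact hji ((hnd.getElem_inj_iff (hi := by omega) (hj := by omega)).mp h2)
        · have e1 := (hnd.getElem_inj_iff (hi := by omega) (hj := by omega)).mp h2
          have e2 := (hnd.getElem_inj_iff (hi := by omega) (hj := by omega)).mp h3
          omega
      · exact h1
    refine ⟨l.take i, l.drop (i + 2), l[i], l[i + 1], hsplit, ?_, ?_, hwxy⟩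
    · have e1 : l.take i ++ [l[i]] = l.take (i + 1) := by
        rw [List.take_succ_eq_append_getElem]
      rw [e1, List.isChain_iff_getElem]
      intro j hj
      rw [List.length_take] at hj
      rw [List.getElem_take, List.getElem_take]
      exact hkey j (by omega) (by omega)
    · have e1 : l[i + 1] :: l.drop (i + 2) = l.drop (i + 1) := by
        rw [List.drop_eq_getElem_cons hi]
      rw [e1, List.isChain_iff_getElem]
      intro j hj
      rw [List.length_drop] at hj
      rw [List.getElem_drop, List.getElem_drop]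
      exact hkey (i + 1 + j) (by omega) (by omega)

theorem Cov.attach_virtual {E : Finset (Sym2 V)} {W : Finset V} {u v w : V} {m : ℕ}
    (h : Cov (insert s(u, w) E) W m) (hv : v ∉ W) (hvw : s(v, w) ∈ E) :
    Cov E (insert v W) (m + 1) := by
  obtain ⟨L, h1, h2, h3, h4⟩ := h
  by_cases hall : ∀ l ∈ L, l.IsChain (Adj E)
  · exact Cov.add ⟨L, h1, fun l hl => ⟨(h2 l hl).1, hall l hl⟩, h3, h4⟩ hv
  · push Not at hall
    obtain ⟨l, hl, hbad⟩ := hall
    obtain ⟨A, B, rfl⟩ := List.append_of_mem hl
    have hfl : (A ++ l :: B).flatten = A.flatten ++ (l ++ B.flatten) := by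
      rw [List.flatten_append, List.flatten_cons]
    have h3' := h3
    rw [hfl, List.nodup_append] at h3'
    have h3'' := h3'.2.1
    rw [List.nodup_append] at h3''
    rcases chain_split h3''.1 (h2 l hl).2 with h5 | ⟨a, b, x, y, hsplit, ha, hb, hwxy⟩
    · exact absurd h5 hbad
    -- other paths avoid `w`
    have hwl : w ∈ l := by
      rw [hsplit]
      rcases hwxy with rfl | rfl <;> simp
    have hother : ∀ l' ∈ A ++ B, l' ≠ [] ∧ l'.IsChain (Adj E) := by
      intro l' hl'
      have hmem : l' ∈ A ++ l :: B := by
        rw [List.mem_append] at hl' ⊢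
        rcases hl' with h6 | h6
        · exact Or.inl h6
        · exact Or.inr (List.mem_cons_of_mem _ h6)
      refine ⟨(h2 l' hmem).1, chain_avoid (h2 l' hmem).2 ?_⟩
      intro hw'
      rw [List.mem_append] at hl'
      rcases hl' with h6 | h6
      · exact h3'.2.2 w (List.mem_flatten.mpr ⟨l', h6, hw'⟩) w
          (List.mem_append_left _ hwl) rfl
      · exact h3''.2.2 w hwl w (List.mem_flatten.mpr ⟨l', h6, hw'⟩) rfl
    -- the new pieces
    obtain ⟨p, q, hp, hq, hpq⟩ : ∃ p q : List V, (p ≠ [] ∧ p.IsChain (Adj E)) ∧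
        (q ≠ [] ∧ q.IsChain (Adj E)) ∧ (p ++ q).Perm (v :: l) := by
      rcases hwxy with rfl | rfl
      · refine ⟨a ++ [w] ++ [v], y :: b, ⟨by simp, ?_⟩, ⟨by simp, hb⟩, ?_⟩
        · rw [List.isChain_append]
          refine ⟨ha, List.IsChain.singleton _, ?_⟩
          intro s hs t ht
          rw [List.getLast?_append] at hs
          simp only [List.getLast?_singleton, Option.some_or, Option.mem_def,
            Option.some.injEq, List.head?_cons] at hs ht
          subst hs ht
          change s(_, _) ∈ E
          rw [Sym2.eq_swap]; exact hvw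
        · rw [hsplit]
          have : (a ++ [w] ++ [v] ++ y :: b).Perm ([v] ++ ((a ++ [w]) ++ y :: b)) := by
            rw [← List.append_assoc]
            exact List.Perm.append_right _ List.perm_append_comm
          simpa using this
      · refine ⟨a ++ [x], v :: w :: b, ⟨by simp, ha⟩, ⟨by simp, ?_⟩, ?_⟩
        · rw [List.isChain_cons_cons]
          exact ⟨hvw, hb⟩
        · rw [hsplit]
          have : (a ++ [x] ++ (v :: w :: b)).Perm (v :: (a ++ [x] ++ (w :: b))) :=
            List.perm_middle
          simpa using this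
    have hflat : ((p :: q :: (A ++ B)).flatten).Perm (v :: (A ++ l :: B).flatten) := by
      rw [List.flatten_cons, List.flatten_cons, List.flatten_append, hfl]
      have e1 : (p ++ (q ++ (A.flatten ++ B.flatten))).Perm
          ((v :: l) ++ (A.flatten ++ B.flatten)) := by
        rw [← List.append_assoc]
        exact List.Perm.append_right _ hpq
      refine e1.trans ?_
      rw [List.cons_append]
      apply List.Perm.cons
      rw [← List.append_assoc, ← List.append_assoc]
      exact List.Perm.append_right _ List.perm_append_comm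
    refine ⟨p :: q :: (A ++ B), ?_, ?_, ?_, ?_⟩
    · rw [← h1]
      simp only [List.length_cons, List.length_append]
      omega
    · intro l' hl'
      rw [List.mem_cons, List.mem_cons] at hl'
      rcases hl' with rfl | rfl | hl'
      · exact hp
      · exact hq
      · exact hother l' hl'
    · rw [hflat.nodup_iff, List.nodup_cons]
      exact ⟨fun h' => hv ((h4 v).mp h'), h3⟩
    · intro z
      rw [hflat.mem_iff, List.mem_cons, h4, Finset.mem_insert]

/-- isolated vertices are paths of their own -/
theorem Cov.lower {E : Finset (Sym2 V)} {m : ℕ} (h : Cov E univ m) {T : Finset V}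
    (hT : ∀ t ∈ T, ∀ y, s(t, y) ∉ E) {x : V} (hx : x ∉ T) : T.card + 1 ≤ m := by
  obtain ⟨L, h1, h2, h3, h4⟩ := h
  obtain ⟨l₀, hl₀, hxl⟩ := List.mem_flatten.mp ((h4 x).mpr (Finset.mem_univ x))
  have hsing : ∀ t ∈ T, [t] ∈ L := by
    intro t ht
    obtain ⟨l, hl, htl⟩ := List.mem_flatten.mp ((h4 t).mpr (Finset.mem_univ t))
    obtain ⟨i, hi, rfl⟩ := List.getElem_of_mem htl
    have hc := List.isChain_iff_getElem.mp (h2 l hl).2
    have hlen : l.length = 1 := by
      by_contra hne
      by_cases h5 : i + 1 < l.length
      · exact hT _ ht _ (hc i h5)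
      · obtain ⟨j, rfl⟩ : ∃ j, i = j + 1 := ⟨i - 1, by omega⟩
        have h6 := hc j hi
        exact hT _ ht l[j] (by rw [Sym2.eq_swap]; exact h6)
    obtain ⟨z, rfl⟩ := List.length_eq_one_iff.mp hlen
    simp only [List.length_singleton, Nat.lt_one_iff] at hi
    subst hi
    exact hl
  have hsub : insert l₀ (T.image (fun t => [t])) ⊆ L.toFinset := by
    intro l hl
    rw [Finset.mem_insert, Finset.mem_image] at hl
    rw [List.mem_toFinset]
    rcases hl with rfl | ⟨t, ht, rfl⟩
    · exact hl₀
    · exact hsing t ht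
  have hnot : l₀ ∉ T.image (fun t => [t]) := by
    intro h5
    rw [Finset.mem_image] at h5
    obtain ⟨t, ht, rfl⟩ := h5
    rw [List.mem_singleton] at hxl
    exact hx (hxl ▸ ht)
  have h5 := Finset.card_le_card hsub
  rw [Finset.card_insert_of_notMem hnot, Finset.card_image_of_injective] at h5
  · have h6 := List.toFinset_card_le L
    omega
  · intro a b hab
    simpa using hab

end Pool.Agent.Helper96.PC
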