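import Mathlib
import Pool.Agent.Helper96.PC.Cover

set_option autoImplicit false
set_option linter.unusedSectionVars false
set_option linter.unusedVariables false
open Classical Finset

namespace Pool.Agent.Helper96.PC

variable {V : Type*} [Fintype V] [DecidableEq V]

/-- neighbours -/
noncomputable def nb (E : Finset (Sym2 V)) (v : V) : Finset V := univ.filter (fun w => s(v, w) ∈ E)

theorem mem_nb {E : Finset (Sym2 V)} {v w : V} : w ∈ nb E v ↔ s(v, w) ∈ E := by
  unfold nb
  rw [Finset.mem_filter]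
  exact ⟨fun h => h.2, fun h => ⟨Finset.mem_univ _, h⟩⟩

/-- degree -/
noncomputable def deg (E : Finset (Sym2 V)) (v : V) : ℕ := (nb E v).card

theorem nb_mono {E E' : Finset (Sym2 V)} (h : E ⊆ E') (v : V) : nb E v ⊆ nb E' v := by
  intro w hw
  rw [mem_nb] at *
  exact h hw

theorem deg_mono {E E' : Finset (Sym2 V)} (h : E ⊆ E') (v : V) : deg E v ≤ deg E' v :=
  Finset.card_le_card (nb_mono h v)

theorem nb_union (E E' : Finset (Sym2 V)) (v : V) : nb (E ∪ E') v = nb E v ∪ nb E' v := by
  ext w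
  rw [mem_nb, Finset.mem_union, Finset.mem_union, mem_nb, mem_nb]

theorem deg_union_le (E E' : Finset (Sym2 V)) (v : V) : deg (E ∪ E') v ≤ deg E v + deg E' v := by
  unfold deg
  rw [nb_union]
  exact Finset.card_union_le _ _

theorem deg_sdiff_ge (E F : Finset (Sym2 V)) (v : V) : deg E v ≤ deg (E \ F) v + deg F v := by
  refine le_trans (deg_mono ?_ v) (deg_union_le _ _ v)
  intro e he
  rw [Finset.mem_union, Finset.mem_sdiff]
  tauto

/-- edges touching a set -/
noncomputable def tch (E : Finset (Sym2 V)) (S : Finset V) : Finset (Sym2 V) :=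
  E.filter (fun e => ∃ v ∈ S, v ∈ e)

theorem mem_tch {E : Finset (Sym2 V)} {S : Finset V} {x y : V} :
    s(x, y) ∈ tch E S ↔ s(x, y) ∈ E ∧ (x ∈ S ∨ y ∈ S) := by
  unfold tch
  rw [Finset.mem_filter]
  apply and_congr_right
  intro _
  constructor
  · rintro ⟨v, hv, h⟩
    rw [Sym2.mem_iff] at h
    rcases h with rfl | rfl
    · exact Or.inl hv
    · exact Or.inr hv
  · rintro (h | h)
    · exact ⟨x, h, Sym2.mem_mk_left _ _⟩
    · exact ⟨y, h, Sym2.mem_mk_right _ _⟩

theorem card_tch_singleton (E : Finset (Sym2 V)) (v : V) : (tch E {v}).card = deg E v := by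
  unfold deg
  have : tch E {v} = (nb E v).image (fun w => s(v, w)) := by
    ext e
    induction e using Sym2.ind with
    | _ x y =>
      rw [mem_tch, Finset.mem_image, Finset.mem_singleton, Finset.mem_singleton]
      constructor
      · rintro ⟨h1, rfl | rfl⟩
        · exact ⟨y, mem_nb.mpr h1, rfl⟩
        · exact ⟨x, mem_nb.mpr (by rw [Sym2.eq_swap]; exact h1), Sym2.eq_swap⟩
      · rintro ⟨w, hw, h⟩
        rw [mem_nb] at hw
        rw [← h]
        refine ⟨hw, ?_⟩
        rw [Sym2.eq_iff] at h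
        tauto
  rw [this, Finset.card_image_of_injective]
  intro a b hab
  simp only [Sym2.eq_iff] at hab
  rcases hab with ⟨_, h⟩ | ⟨h1, h2⟩
  · exact h
  · rw [h2, h1]

theorem tch_eq_biUnion (E : Finset (Sym2 V)) (S : Finset V) :
    tch E S = S.biUnion (fun v => tch E {v}) := by
  ext e
  unfold tch
  simp only [Finset.mem_filter, Finset.mem_biUnion, Finset.mem_singleton]
  constructor
  · rintro ⟨h, v, hv, hve⟩
    exact ⟨v, hv, h, v, rfl, hve⟩
  · rintro ⟨v, hv, h, w, rfl, hwe⟩
    exact ⟨h, w, hv, hwe⟩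

theorem card_tch_le (E : Finset (Sym2 V)) (S : Finset V) :
    (tch E S).card ≤ ∑ v ∈ S, deg E v := by
  rw [tch_eq_biUnion]
  refine Finset.card_biUnion_le.trans (le_of_eq ?_)
  exact Finset.sum_congr rfl (fun v _ => card_tch_singleton E v)

theorem tch_subset (E : Finset (Sym2 V)) (S : Finset V) : tch E S ⊆ E := Finset.filter_subset _ _

/-- handshake, upper form -/
theorem sum_deg_le (E : Finset (Sym2 V)) (S : Finset V) : ∑ v ∈ S, deg E v ≤ 2 * E.card := by
  have h1 : ∑ v ∈ S, deg E v = ∑ v ∈ S, ∑ e ∈ E, (if v ∈ e then 1 else 0) := by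
    apply Finset.sum_congr rfl
    intro v _
    rw [← card_tch_singleton, ← Finset.card_filter]
    congr 1
    unfold tch
    ext e
    simp
  rw [h1, Finset.sum_comm]
  calc ∑ e ∈ E, ∑ v ∈ S, (if v ∈ e then 1 else 0) ≤ ∑ e ∈ E, 2 := by
        apply Finset.sum_le_sum
        intro e _
        rw [← Finset.card_filter]
        induction e using Sym2.ind with
        | _ x y =>
          have : S.filter (fun v => v ∈ s(x, y)) ⊆ {x, y} := by
            intro v hv
            rw [Finset.mem_filter, Sym2.mem_iff] at hv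
            rw [Finset.mem_insert, Finset.mem_singleton]
            exact hv.2
          exact (Finset.card_le_card this).trans Finset.card_le_two
    _ = 2 * E.card := by rw [Finset.sum_const, smul_eq_mul, mul_comm]

/-- edges inside a set -/
noncomputable def ins (E : Finset (Sym2 V)) (Y : Finset V) : Finset (Sym2 V) :=
  E.filter (fun e => ∀ v ∈ e, v ∈ Y)

theorem mem_ins {E : Finset (Sym2 V)} {Y : Finset V} {x y : V} :
    s(x, y) ∈ ins E Y ↔ s(x, y) ∈ E ∧ x ∈ Y ∧ y ∈ Y := by
  unfold ins
  rw [Finset.mem_filter]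
  apply and_congr_right
  intro _
  constructor
  · intro h
    exact ⟨h x (Sym2.mem_mk_left _ _), h y (Sym2.mem_mk_right _ _)⟩
  · rintro ⟨h1, h2⟩ v hv
    rw [Sym2.mem_iff] at hv
    rcases hv with rfl | rfl
    · exact h1
    · exact h2

/-- edges between two sets -/
noncomputable def btw (E : Finset (Sym2 V)) (X Y : Finset V) : Finset (Sym2 V) :=
  E.filter (fun e => ∃ x ∈ X, ∃ y ∈ Y, e = s(x, y))

theorem mem_btw {E : Finset (Sym2 V)} {X Y : Finset V} {e : Sym2 V} :
    e ∈ btw E X Y ↔ e ∈ E ∧ ∃ x ∈ X, ∃ y ∈ Y, e = s(x, y) := by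
  unfold btw
  rw [Finset.mem_filter]

/-- typical properties of the two rounds -/
structure Typ (G₁ G₂ : Finset (Sym2 V)) (σ Δ κ r₀ b M z₀ c : ℕ) : Prop where
  loop : ∀ x, s(x, x) ∉ G₁ ∪ G₂
  two : ∀ v, 2 ≤ deg (G₁ ∪ G₂) v
  sm1 : ∀ s s', deg (G₁ ∪ G₂) s < σ → deg (G₁ ∪ G₂) s' < σ → s(s, s') ∉ G₁ ∪ G₂
  sm2 : ∀ s s' y, s ≠ s' → deg (G₁ ∪ G₂) s < σ → deg (G₁ ∪ G₂) s' < σ →
    s(s, y) ∈ G₁ ∪ G₂ → s(s', y) ∈ G₁ ∪ G₂ → False
  sm4 : ∀ s y w y' s', deg (G₁ ∪ G₂) s < σ → deg (G₁ ∪ G₂) s' < σ → σ ≤ deg (G₁ ∪ G₂) w →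
    y ≠ y' → s(s, y) ∈ G₁ ∪ G₂ → s(y, w) ∈ G₁ ∪ G₂ → s(w, y') ∈ G₁ ∪ G₂ →
    s(y', s') ∈ G₁ ∪ G₂ → False
  max : ∀ v, deg (G₁ ∪ G₂) v ≤ Δ
  few : ((univ.filter (fun v => deg G₁ v < σ)).card + z₀) * Δ ≤ c * Fintype.card V
  loc : ∀ Y : Finset V, Y.Nonempty → Y.card ≤ b →
    8 * (M + 1) * (ins (G₁ ∪ G₂) Y).card < σ * Y.card
  big : ∀ X Y : Finset V, Disjoint X Y → b < (M + 1) * X.card → Fintype.card V ≤ 5 * Y.card →
    κ < (btw G₁ X Y).card
  bst : ∀ F' P E' : Finset (Sym2 V), F'.card ≤ κ → P.card ≤ r₀ → E' ⊆ G₂ →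
    E'.card ≤ (c + 1) * Fintype.card V →
    (Fintype.card V) ^ 2 ≤ 32 * (Boost ((G₁ \ F') ∪ P ∪ E')).card →
    κ < (Boost ((G₁ \ F') ∪ P ∪ E') ∩ G₂).card

/-- the hypotheses on the modified graph `(G \ F') ∪ P` and the vertex set `W` -/
structure Modif (G F' P : Finset (Sym2 V)) (W : Finset V) (σ D₀ : ℕ) : Prop where
  inw : InW ((G \ F') ∪ P) W
  h1 : ∀ v ∈ W, σ ≤ deg G v → D₀ ≤ deg (G \ F') v
  h2 : ∀ s ∈ W, deg G s < σ → 2 ≤ deg ((G \ F') ∪ P) s
  h2a : ∀ s ∈ W, deg G s < σ → ∀ y, s(s, y) ∈ (G \ F') ∪ P →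
    σ ≤ deg G y ∧ ∃ s', deg G s' < σ ∧ s(s', y) ∈ G
  h2b : ∀ s ∈ W, ∀ s' ∈ W, s ≠ s' → deg G s < σ → deg G s' < σ → ∀ y,
    s(s, y) ∈ (G \ F') ∪ P → s(s', y) ∉ (G \ F') ∪ P
  h3 : ∀ x y, s(x, y) ∈ P → deg G x < σ ∨ deg G y < σ

theorem robust {G₁ G₂ : Finset (Sym2 V)} {σ Δ κ r₀ b M z₀ c D₀ : ℕ}
    (hT : Typ G₁ G₂ σ Δ κ r₀ b M z₀ c) (hz : 4 * κ < σ * (z₀ + 1)) (hD : 6 * z₀ ≤ D₀)
    (hM : 5 + 6 * z₀ ≤ M) (hb : 4 * b ≤ Fintype.card V) (hn : 4 ≤ Fintype.card V)
    {F' P : Finset (Sym2 V)} {W : Finset V} (hF : F'.card ≤ κ) (hP : P.card ≤ r₀)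
    (hWc : 20 * (Fintype.card V - W.card) ≤ Fintype.card V)
    (hm : Modif (G₁ ∪ G₂) F' P W σ D₀) : HamOn (((G₁ ∪ G₂) \ F') ∪ P) W := by
  set n := Fintype.card V with hndef
  set G := G₁ ∪ G₂ with hG
  set H' := (G \ F') ∪ P with hH'
  have hWn : W.card ≤ n := Finset.card_le_univ W
  -- damaged vertices
  set Z := univ.filter (fun v => σ ≤ 2 * deg F' v) with hZ
  have hZc : Z.card ≤ z₀ := by
    have h1 : Z.card * σ ≤ ∑ v ∈ Z, 2 * deg F' v := by
      rw [← smul_eq_mul, ← Finset.sum_const]
      apply Finset.sum_le_sum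
      intro v hv
      rw [hZ, Finset.mem_filter] at hv
      exact hv.2
    rw [← Finset.mul_sum] at h1
    have h2 := sum_deg_le F' Z
    by_contra hcon
    push Not at hcon
    have h3 : σ * (z₀ + 1) ≤ Z.card * σ := by
      rw [mul_comm]
      exact Nat.mul_le_mul_right _ hcon
    omega
  set B₁ := univ.filter (fun v => deg G₁ v < σ) ∪ Z with hB₁
  set E₂ := tch (G₂ \ F') B₁ with hE₂
  have hE₂c : E₂.card ≤ c * n := by
    have h1 : E₂.card ≤ ∑ v ∈ B₁, deg (G₂ \ F') v := card_tch_le _ _
    have h2 : ∑ v ∈ B₁, deg (G₂ \ F') v ≤ B₁.card * Δ := by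
      rw [← smul_eq_mul, ← Finset.sum_const]
      apply Finset.sum_le_sum
      intro v _
      exact (deg_mono (Finset.sdiff_subset.trans Finset.subset_union_right) v).trans (hT.max v)
    have h3 : B₁.card ≤ (univ.filter (fun v => deg G₁ v < σ)).card + z₀ :=
      (Finset.card_union_le _ _).trans (Nat.add_le_add_left hZc _)
    exact h1.trans (h2.trans ((Nat.mul_le_mul_right _ h3).trans hT.few))
  set Γ := (G₁ \ F') ∪ P ∪ E₂ with hΓ
  have hE₂G : E₂ ⊆ G₂ := (tch_subset _ _).trans Finset.sdiff_subset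
  have hΓH : Γ ⊆ H' := by
    intro e he
    rw [hΓ, Finset.mem_union, Finset.mem_union, Finset.mem_sdiff] at he
    rw [hH', Finset.mem_union, Finset.mem_sdiff, hG, Finset.mem_union]
    rcases he with (⟨h1, h2⟩ | h1) | h1
    · exact Or.inl ⟨Or.inl h1, h2⟩
    · exact Or.inr h1
    · have h3 := tch_subset _ _ h1
      rw [Finset.mem_sdiff] at h3
      exact Or.inl ⟨Or.inr h3.1, h3.2⟩
  have hΓW : InW Γ W := hm.inw.anti hΓH
  -- all edges of `H'` at `B₁` are in `Γ`
  have hB₁all : ∀ v ∈ B₁, ∀ y, s(v, y) ∈ H' → s(v, y) ∈ Γ := by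
    intro v hv y hy
    rw [hH', Finset.mem_union, Finset.mem_sdiff, hG, Finset.mem_union] at hy
    rw [hΓ, Finset.mem_union, Finset.mem_union, Finset.mem_sdiff]
    rcases hy with ⟨h1 | h1, h2⟩ | h1
    · exact Or.inl (Or.inl ⟨h1, h2⟩)
    · right
      rw [hE₂, mem_tch, Finset.mem_sdiff]
      exact ⟨⟨h1, h2⟩, Or.inl hv⟩
    · exact Or.inl (Or.inr h1)
  have hSmB : ∀ v, deg G v < σ → v ∈ B₁ := by
    intro v hv
    rw [hB₁, Finset.mem_union, Finset.mem_filter]
    left
    exact ⟨Finset.mem_univ _, lt_of_le_of_lt (deg_mono Finset.subset_union_left v) hv⟩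
  -- the part of `Γ` inside `G`
  set Γ' := (G₁ \ F') ∪ E₂ with hΓ'
  have hΓ'G : Γ' ⊆ G := by
    rw [hΓ', hG]
    exact Finset.union_subset_union Finset.sdiff_subset hE₂G
  have hΓ'Γ : Γ' ⊆ Γ := by
    intro e he
    rw [hΓ', Finset.mem_union] at he
    rw [hΓ, Finset.mem_union, Finset.mem_union]
    tauto
  have hdegΓ' : ∀ v, σ ≤ deg G v → v ∉ Z → σ < 2 * deg Γ' v ∨ σ = 0 := by
    intro v hv hvZ
    rw [hZ, Finset.mem_filter, not_and] at hvZ
    have hvF := hvZ (Finset.mem_univ v)
    push Not at hvF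
    by_cases hvB : v ∈ B₁
    · have h1 : G \ F' ⊆ G \ F' := Finset.Subset.refl _
      have h2 : nb (G \ F') v ⊆ nb Γ' v := by
        intro y hy
        rw [mem_nb] at *
        rw [Finset.mem_sdiff, hG, Finset.mem_union] at hy
        rw [hΓ', Finset.mem_union, Finset.mem_sdiff]
        rcases hy with ⟨h3 | h3, h4⟩
        · exact Or.inl ⟨h3, h4⟩
        · right
          rw [hE₂, mem_tch, Finset.mem_sdiff]
          exact ⟨⟨h3, h4⟩, Or.inl hvB⟩
      have h3 : deg (G \ F') v ≤ deg Γ' v := Finset.card_le_card h2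
      have h4 := deg_sdiff_ge G F' v
      omega
    · rw [hB₁, Finset.mem_union, not_or, Finset.mem_filter, not_and] at hvB
      have h1 := hvB.1 (Finset.mem_univ v)
      push Not at h1
      have h2 := deg_sdiff_ge G₁ F' v
      have h3 : deg (G₁ \ F') v ≤ deg Γ' v := deg_mono Finset.subset_union_left v
      omega
  have hσ0 : 0 < σ := by
    by_contra hcon
    push Not at hcon
    have : σ = 0 := by omega
    rw [this] at hz
    omega
  -- expansion of sets of large vertices
  have claimL : ∀ X : Finset V, X ⊆ W → (∀ x ∈ X, σ ≤ deg G x) → X.Nonempty →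
      (M + 1) * X.card ≤ b → 5 * X.card ≤ (extN Γ X).card := by
    intro X hXW hXL hXne hXb
    by_cases hXU : X \ Z = ∅
    · have hXZ : X ⊆ Z := Finset.sdiff_eq_empty_iff_subset.mp hXU
      have hXc : X.card ≤ z₀ := (Finset.card_le_card hXZ).trans hZc
      obtain ⟨x, hx⟩ := hXne
      have hxB : x ∈ B₁ := Finset.mem_union_right _ (hXZ hx)
      have h1 : nb (G \ F') x ⊆ extN Γ X ∪ X := by
        intro y hy
        rw [Finset.mem_union, mem_extN]
        by_cases hyX : y ∈ X
        · exact Or.inr hyX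
        · left
          refine ⟨hyX, x, hx, hB₁all x hxB y ?_⟩
          rw [mem_nb] at hy
          exact Finset.mem_union_left _ hy
      have h2 := (Finset.card_le_card h1).trans (Finset.card_union_le _ _)
      have h3 := hm.h1 x (hXW hx) (hXL x hx)
      unfold deg at h3
      omega
    · set XU := X \ Z with hXUdef
      have hXUne : XU.Nonempty := Finset.nonempty_iff_ne_empty.mpr hXU
      have hXUX : XU ⊆ X := Finset.sdiff_subset
      set N := extN Γ' XU with hN
      have hNbig : M * XU.card ≤ N.card := by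
        by_contra hcon
        push Not at hcon
        set Y := XU ∪ N with hY
        have hYc : Y.card ≤ XU.card + N.card := Finset.card_union_le _ _
        have hXUc : XU.card ≤ X.card := Finset.card_le_card hXUX
        have hYb : Y.card ≤ b := by
          have : (M + 1) * XU.card ≤ (M + 1) * X.card := Nat.mul_le_mul_left _ hXUc
          have h4 : (M + 1) * XU.card = M * XU.card + XU.card := by ring
          omega
        have hYne : Y.Nonempty := hXUne.mono Finset.subset_union_left
        have hloc := hT.loc Y hYne hYb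
        have hsum : ∑ v ∈ XU, deg (ins G Y) v ≤ 2 * (ins G Y).card := sum_deg_le _ _
        have hdeg : ∀ v ∈ XU, σ < 2 * deg (ins G Y) v := by
          intro v hv
          have hvZ : v ∉ Z := (Finset.mem_sdiff.mp hv).2
          have h5 := hdegΓ' v (hXL v (hXUX hv)) hvZ
          have h6 : nb Γ' v ⊆ nb (ins G Y) v := by
            intro y hy
            rw [mem_nb] at *
            rw [mem_ins]
            refine ⟨hΓ'G hy, Finset.mem_union_left _ hv, ?_⟩
            rw [hY, Finset.mem_union]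
            by_cases hyX : y ∈ XU
            · exact Or.inl hyX
            · right
              rw [hN, mem_extN]
              exact ⟨hyX, v, hv, hy⟩
          have h7 : deg Γ' v ≤ deg (ins G Y) v := Finset.card_le_card h6
          omega
        have hsum2 : XU.card * σ ≤ ∑ v ∈ XU, 2 * deg (ins G Y) v := by
          rw [← smul_eq_mul, ← Finset.sum_const]
          exact Finset.sum_le_sum (fun v hv => (hdeg v hv).le)
        rw [← Finset.mul_sum] at hsum2
        have h8 : XU.card * σ ≤ 4 * (ins G Y).card := by omega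
        have h9 : Y.card ≤ (M + 1) * XU.card := by
          have h4 : (M + 1) * XU.card = M * XU.card + XU.card := by ring
          omega
        have h10 : σ * Y.card ≤ σ * ((M + 1) * XU.card) := Nat.mul_le_mul_left _ h9
        have h11 : 8 * (M + 1) * (ins G Y).card < σ * ((M + 1) * XU.card) :=
          lt_of_lt_of_le hloc h10
        have h12 : (M + 1) * (XU.card * σ) ≤ (M + 1) * (4 * (ins G Y).card) :=
          Nat.mul_le_mul_left _ h8
        have h13 : σ * ((M + 1) * XU.card) = (M + 1) * (XU.card * σ) := by ring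
        have h14 : 8 * (M + 1) * (ins G Y).card = 2 * ((M + 1) * (4 * (ins G Y).card)) := by ring
        omega
      have h1 : N ⊆ extN Γ X ∪ Z := by
        intro y hy
        rw [hN, mem_extN] at hy
        obtain ⟨h2, x, hx, h3⟩ := hy
        rw [Finset.mem_union, mem_extN]
        by_cases hyX : y ∈ X
        · right
          by_contra hyZ
          exact h2 (Finset.mem_sdiff.mpr ⟨hyX, hyZ⟩)
        · left
          exact ⟨hyX, x, hXUX hx, hΓ'Γ h3⟩
      have h2 := (Finset.card_le_card h1).trans (Finset.card_union_le _ _)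
      have h3 : X.card ≤ XU.card + Z.card := by
        have : X ⊆ XU ∪ Z := by
          intro x hx
          rw [Finset.mem_union, hXUdef, Finset.mem_sdiff]
          tauto
        exact (Finset.card_le_card this).trans (Finset.card_union_le _ _)
      have h4 : 1 ≤ XU.card := hXUne.card_pos
      have h5 : (5 + 6 * z₀) * XU.card ≤ M * XU.card := Nat.mul_le_mul_right _ hM
      have h6 : 6 * z₀ * 1 ≤ 6 * z₀ * XU.card := Nat.mul_le_mul_left _ h4
      have h7 : (5 + 6 * z₀) * XU.card = 5 * XU.card + 6 * z₀ * XU.card := by ring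
      omega
  -- no room for big sets with small neighbourhoods
  have hbigX : ∀ X : Finset V, ∀ X' ⊆ X, X ⊆ W → b < (M + 1) * X'.card →
      n ≤ 5 * (W \ (X ∪ extN Γ X)).card → False := by
    intro X X' hX' hXW hbig hY
    set Y := W \ (X ∪ extN Γ X) with hYdef
    have hdisj : Disjoint X' Y := by
      rw [Finset.disjoint_left]
      intro x hx hx'
      rw [hYdef, Finset.mem_sdiff, Finset.mem_union] at hx'
      exact hx'.2 (Or.inl (hX' hx))
    have h1 := hT.big X' Y hdisj hbig hY
    have h2 : btw G₁ X' Y ⊆ F' := by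
      intro e he
      rw [mem_btw] at he
      obtain ⟨h3, x, hx, y, hy, rfl⟩ := he
      by_contra hcon
      rw [hYdef, Finset.mem_sdiff, Finset.mem_union, mem_extN, not_or] at hy
      apply hy.2.2
      refine ⟨hy.2.1, x, hX' hx, ?_⟩
      rw [hΓ, Finset.mem_union, Finset.mem_union, Finset.mem_sdiff]
      exact Or.inl (Or.inl ⟨h3, hcon⟩)
    have h3 := Finset.card_le_card h2
    omega
  have hextW : ∀ X : Finset V, extN Γ X ⊆ W := by
    intro X y hy
    rw [mem_extN] at hy
    obtain ⟨_, x, _, h⟩ := hy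
    exact (hΓW _ _ h).2
  have hexp : Expd Γ W (n / 4) := by
    intro X hXW hXne hXc
    by_contra hcon
    push Not at hcon
    set XS := X.filter (fun x => deg G x < σ) with hXS
    set XL := X.filter (fun x => ¬ deg G x < σ) with hXL
    have hXSL : XS.card + XL.card = X.card := Finset.card_filter_add_card_filter_not _
    by_cases hXLb : (M + 1) * XL.card ≤ b
    · -- small set
      have hXLext : 5 * XL.card ≤ (extN Γ XL).card := by
        by_cases hne : XL.Nonempty
        · apply claimL XL ((Finset.filter_subset _ _).trans hXW) _ hne hXLb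
          intro x hx
          rw [hXL, Finset.mem_filter] at hx
          exact not_lt.mp hx.2
        · rw [Finset.not_nonempty_iff_eq_empty] at hne
          rw [hne]; simp
      set A := XS.biUnion (fun s => nb H' s) with hA
      have hXSm : ∀ s ∈ XS, s ∈ W ∧ deg G s < σ := by
        intro s hs
        rw [hXS, Finset.mem_filter] at hs
        exact ⟨hXW hs.1, hs.2⟩
      have hAc : 2 * XS.card ≤ A.card := by
        rw [hA, Finset.card_biUnion]
        · rw [mul_comm, ← smul_eq_mul, ← Finset.sum_const]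
          apply Finset.sum_le_sum
          intro s hs
          exact hm.h2 s (hXSm s hs).1 (hXSm s hs).2
        · intro s hs s' hs' hne
          rw [Function.onFun, Finset.disjoint_left]
          intro y hy hy'
          rw [mem_nb] at hy hy'
          exact hm.h2b s (hXSm s hs).1 s' (hXSm s' hs').1 hne (hXSm s hs).2 (hXSm s' hs').2 y hy hy'
      have hAprop : ∀ y ∈ A, σ ≤ deg G y ∧ ∃ s', deg G s' < σ ∧ s(s', y) ∈ G := by
        intro y hy
        rw [hA, Finset.mem_biUnion] at hy
        obtain ⟨s, hs, hy⟩ := hy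
        rw [mem_nb] at hy
        exact hm.h2a s (hXSm s hs).1 (hXSm s hs).2 y hy
      have hsub : (A \ XL) ∪ (extN Γ XL \ (XS ∪ A)) ⊆ extN Γ X := by
        intro y hy
        rw [Finset.mem_union, Finset.mem_sdiff, Finset.mem_sdiff, Finset.mem_union] at hy
        rw [mem_extN]
        rcases hy with ⟨h1, h2⟩ | ⟨h1, h2⟩
        · have h3 := hAprop y h1
          refine ⟨?_, ?_⟩
          · intro h4
            apply h2
            rw [hXL, Finset.mem_filter]
            exact ⟨h4, not_lt.mpr h3.1⟩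
          · rw [hA, Finset.mem_biUnion] at h1
            obtain ⟨s, hs, h5⟩ := h1
            rw [mem_nb] at h5
            exact ⟨s, (Finset.mem_filter.mp hs).1, hB₁all s (hSmB s (hXSm s hs).2) y h5⟩
        · rw [mem_extN] at h1
          obtain ⟨h3, x, hx, h4⟩ := h1
          refine ⟨?_, x, (Finset.mem_filter.mp hx).1, h4⟩
          intro h5
          by_cases h6 : deg G y < σ
          · apply h2
            left
            rw [hXS, Finset.mem_filter]
            exact ⟨h5, h6⟩
          · apply h3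
            rw [hXL, Finset.mem_filter]
            exact ⟨h5, h6⟩
      have hdisj : Disjoint (A \ XL) (extN Γ XL \ (XS ∪ A)) := by
        rw [Finset.disjoint_left]
        intro y hy hy'
        rw [Finset.mem_sdiff] at hy hy'
        exact hy'.2 (Finset.mem_union_right _ hy.1)
      have hcard := Finset.card_le_card hsub
      rw [Finset.card_union_of_disjoint hdisj] at hcard
      have h1 : A.card ≤ (A \ XL).card + XL.card := by
        have : A ⊆ (A \ XL) ∪ XL := by
          intro y hy
          rw [Finset.mem_union, Finset.mem_sdiff]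
          tauto
        exact (Finset.card_le_card this).trans (Finset.card_union_le _ _)
      have h2 : (extN Γ XL).card ≤ (extN Γ XL \ (XS ∪ A)).card +
          ((extN Γ XL ∩ XS).card + (extN Γ XL ∩ A).card) := by
        have : extN Γ XL ⊆ (extN Γ XL \ (XS ∪ A)) ∪ ((extN Γ XL ∩ XS) ∪ (extN Γ XL ∩ A)) := by
          intro y hy
          rw [Finset.mem_union, Finset.mem_sdiff, Finset.mem_union, Finset.mem_union,
            Finset.mem_inter, Finset.mem_inter]
          tauto
        refine (Finset.card_le_card this).trans ((Finset.card_union_le _ _).trans ?_)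
        exact Nat.add_le_add_left (Finset.card_union_le _ _) _
      have h3 : (extN Γ XL ∩ XS).card ≤ XL.card := by
        have hex : ∀ y, y ∈ extN Γ XL ∩ XS → ∃ x ∈ XL, s(x, y) ∈ Γ := by
          intro y hy
          rw [Finset.mem_inter, mem_extN] at hy
          exact hy.1.2
        choose! f hf1 hf2 using hex
        apply Finset.card_le_card_of_injOn f hf1
        intro y hy y' hy' hff
        by_contra hne
        have hy1 : y ∈ XS := (Finset.mem_inter.mp hy).2
        have hy2 : y' ∈ XS := (Finset.mem_inter.mp hy').2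
        have e1 := hΓH (hf2 y hy)
        have e2 := hΓH (hf2 y' hy')
        rw [← hff] at e2
        rw [Sym2.eq_swap] at e1 e2
        exact hm.h2b y (hXSm y hy1).1 y' (hXSm y' hy2).1 hne (hXSm y hy1).2 (hXSm y' hy2).2 _ e1 e2
      have h4 : (extN Γ XL ∩ A).card ≤ XL.card := by
        have hex : ∀ y, y ∈ extN Γ XL ∩ A → ∃ x ∈ XL, s(x, y) ∈ Γ := by
          intro y hy
          rw [Finset.mem_inter, mem_extN] at hy
          exact hy.1.2
        choose! f hf1 hf2 using hex
        apply Finset.card_le_card_of_injOn f hf1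
        intro y hy y' hy' hff
        by_contra hne
        obtain ⟨g1, s1, hs1, hs1y⟩ := hAprop y (Finset.mem_inter.mp hy).2
        obtain ⟨g2, s2, hs2, hs2y⟩ := hAprop y' (Finset.mem_inter.mp hy').2
        have hxL : σ ≤ deg G (f y) := by
          have := hf1 y hy
          rw [hXL, Finset.mem_filter] at this
          exact not_lt.mp this.2
        have e1 := hΓH (hf2 y hy)
        have e2 := hΓH (hf2 y' hy')
        rw [← hff] at e2
        have toG : ∀ z, σ ≤ deg G z → s(f y, z) ∈ H' → s(f y, z) ∈ G := by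
          intro z hz hzH
          rw [hH', Finset.mem_union, Finset.mem_sdiff] at hzH
          rcases hzH with h5 | h5
          · exact h5.1
          · rcases hm.h3 _ _ h5 with h6 | h6
            · omega
            · omega
        refine hT.sm4 s1 y (f y) y' s2 hs1 hs2 hxL hne hs1y ?_ (toG y' g2 e2) ?_
        · rw [Sym2.eq_swap]; exact toG y g1 e1
        · rw [Sym2.eq_swap]; exact hs2y
      omega
    · push Not at hXLb
      apply hbigX X XL (Finset.filter_subset _ _) hXW hXLb
      have h1 : W ⊆ (W \ (X ∪ extN Γ X)) ∪ (X ∪ extN Γ X) := by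
        intro y hy
        rw [Finset.mem_union, Finset.mem_sdiff]
        tauto
      have h2 := (Finset.card_le_card h1).trans (Finset.card_union_le _ _)
      have h3 := Finset.card_union_le X (extN Γ X)
      omega
  have hWbig : n < 2 * W.card := by omega
  have hconn : ConnOn Γ W := by
    intro X hXW hXne hXneW
    have hsmall : ∀ X' : Finset V, X' ⊆ W → X'.Nonempty → X'.card ≤ n / 4 →
        ∃ x ∈ X', ∃ y ∈ W, y ∉ X' ∧ s(x, y) ∈ Γ := by
      intro X' h1 h2 h3
      have h4 := hexp X' h1 h2 h3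
      have h5 : (extN Γ X').Nonempty := by
        rw [← Finset.card_pos]
        have := h2.card_pos
        omega
      obtain ⟨y, hy⟩ := h5
      have hyW := hextW X' hy
      rw [mem_extN] at hy
      obtain ⟨h6, x, hx, h7⟩ := hy
      exact ⟨x, hx, y, hyW, h6, h7⟩
    by_cases h1 : X.card ≤ n / 4
    · exact hsmall X hXW hXne h1
    · by_cases h2 : (W \ X).card ≤ n / 4
      · have hne : (W \ X).Nonempty := by
          rw [Finset.sdiff_nonempty]
          intro h
          exact hXneW (Finset.Subset.antisymm hXW h)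
        obtain ⟨x, hx, y, hy, hyX, hxy⟩ := hsmall (W \ X) Finset.sdiff_subset hne h2
        rw [Finset.mem_sdiff] at hx
        have hyX' : y ∈ X := by
          by_contra h
          exact hyX (Finset.mem_sdiff.mpr ⟨hy, h⟩)
        exact ⟨y, hyX', x, hx.1, hx.2, by rw [Sym2.eq_swap]; exact hxy⟩
      · push Not at h1 h2
        have hdisj : Disjoint X (W \ X) := Finset.disjoint_sdiff
        have hbX : b < (M + 1) * X.card := by
          have : 1 * X.card ≤ (M + 1) * X.card := Nat.mul_le_mul_right _ (by omega)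
          omega
        have h3 := hT.big X (W \ X) hdisj hbX (by omega)
        have h4 : ∃ e ∈ btw G₁ X (W \ X), e ∉ F' := by
          by_contra hcon
          push Not at hcon
          have h5 : (btw G₁ X (W \ X)).card ≤ F'.card := Finset.card_le_card hcon
          omega
        obtain ⟨e, he, heF⟩ := h4
        rw [mem_btw] at he
        obtain ⟨h5, x, hx, y, hy, rfl⟩ := he
        rw [Finset.mem_sdiff] at hy
        refine ⟨x, hx, y, hy.1, hy.2, ?_⟩
        rw [hΓ, Finset.mem_union, Finset.mem_union, Finset.mem_sdiff]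
        exact Or.inl (Or.inl ⟨h5, heF⟩)
  have hL2 : 2 ≤ Lmax Γ := by
    obtain ⟨x, hx⟩ : W.Nonempty := by rw [← Finset.card_pos]; omega
    have h1 := hexp {x} (Finset.singleton_subset_iff.mpr hx) (Finset.singleton_nonempty x)
      (by rw [Finset.card_singleton]; omega)
    rw [Finset.card_singleton] at h1
    obtain ⟨y, hy⟩ : (extN Γ {x}).Nonempty := by rw [← Finset.card_pos]; omega
    rw [mem_extN] at hy
    obtain ⟨h2, x', hx', h3⟩ := hy
    rw [Finset.mem_singleton] at hx' h2
    subst hx'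
    have hp : Pth Γ [x', y] := by
      refine ⟨?_, ?_⟩
      · simp only [List.nodup_cons, List.mem_singleton, List.not_mem_nil, not_false_eq_true,
          List.nodup_nil, and_self, and_true]
        exact fun h => h2 h.symm
      · rw [List.isChain_cons_cons]
        exact ⟨h3, List.IsChain.singleton _⟩
    exact le_Lmax hp
  refine ham_of_boosters hΓH hm.inw hconn hL2 ?_
  intro Γ₂ h1 h2 h3 h4
  have hE' : Γ₂ = (G₁ \ F') ∪ P ∪ (E₂ ∪ (Γ₂ \ Γ)) := by
    rw [← Finset.union_assoc, ← hΓ]
    exact (Finset.union_sdiff_of_subset h1).symm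
  have hsubG₂ : E₂ ∪ (Γ₂ \ Γ) ⊆ G₂ := by
    apply Finset.union_subset hE₂G
    intro e he
    rw [Finset.mem_sdiff] at he
    have h5 := h2 he.1
    rw [hH', Finset.mem_union, Finset.mem_sdiff, hG, Finset.mem_union] at h5
    rcases h5 with ⟨h6 | h6, h7⟩ | h6
    · exfalso
      apply he.2
      rw [hΓ, Finset.mem_union, Finset.mem_union, Finset.mem_sdiff]
      exact Or.inl (Or.inl ⟨h6, h7⟩)
    · exact h6
    · exfalso
      apply he.2
      rw [hΓ, Finset.mem_union, Finset.mem_union]
      exact Or.inl (Or.inr h6)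
  have hcardE' : (E₂ ∪ (Γ₂ \ Γ)).card ≤ (c + 1) * n := by
    have := Finset.card_union_le E₂ (Γ₂ \ Γ)
    have h6 : (c + 1) * n = c * n + n := by ring
    omega
  have hB := card_Boost (hm.inw.anti h2) (hexp.mono h1) (hL2.trans (Lmax_mono h1))
  have hB2 : n ^ 2 ≤ 32 * (Boost Γ₂).card := by
    have h5 : n ≤ 4 * (n / 4 + 1) := by omega
    have h6 : n ^ 2 ≤ (4 * (n / 4 + 1)) ^ 2 := Nat.pow_le_pow_left h5 2
    have h7 : (4 * (n / 4 + 1)) ^ 2 = 16 * (n / 4 + 1) ^ 2 := by ring
    omega
  rw [hE'] at hB2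
  have h5 := hT.bst F' P (E₂ ∪ (Γ₂ \ Γ)) hF hP hsubG₂ hcardE' hB2
  rw [← hE'] at h5
  have h6 : ∃ e ∈ Boost Γ₂ ∩ G₂, e ∉ F' := by
    by_contra hcon
    push Not at hcon
    have h7 : (Boost Γ₂ ∩ G₂).card ≤ F'.card := Finset.card_le_card hcon
    omega
  obtain ⟨e, he, heF⟩ := h6
  rw [Finset.mem_inter] at he
  refine ⟨e, he.1, ?_⟩
  rw [hH', Finset.mem_union, Finset.mem_sdiff, hG, Finset.mem_union]
  exact Or.inl ⟨Or.inr he.2, heF⟩

end Pool.Agent.Helper96.PC
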