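import Mathlib
import Pool.Agent.Helper96.PC.Robust

set_option autoImplicit false
set_option linter.unusedSectionVars false
set_option linter.unusedVariables false
open Classical Finset

namespace Pool.Agent.Helper96.PC

variable {V : Type*} [Fintype V] [DecidableEq V]

theorem deg_le_card (E : Finset (Sym2 V)) (v : V) : deg E v ≤ E.card := by
  rw [← card_tch_singleton]
  exact Finset.card_le_card (tch_subset _ _)

theorem tch_mono_left {E E' : Finset (Sym2 V)} (h : E ⊆ E') (S : Finset V) :
    tch E S ⊆ tch E' S := by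
  unfold tch
  exact Finset.filter_subset_filter _ h

theorem tch_mono_right (E : Finset (Sym2 V)) {S S' : Finset V} (h : S ⊆ S') :
    tch E S ⊆ tch E S' := by
  intro e he
  unfold tch at *
  rw [Finset.mem_filter] at *
  obtain ⟨h1, v, hv, h2⟩ := he
  exact ⟨h1, v, h hv, h2⟩

/-- removing one vertex from a touching set -/
theorem card_tch_erase (E : Finset (Sym2 V)) {S : Finset V} {v : V} (hv : v ∈ S) :
    (tch E (S.erase v)).card + deg E v ≤ (tch E S).card + (S.erase v).card := by
  have h1 : (tch E {v} ∩ tch E (S.erase v)).card ≤ (S.erase v).card := by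
    have : tch E {v} ∩ tch E (S.erase v) ⊆ (S.erase v).image (fun w => s(v, w)) := by
      intro e
      induction e using Sym2.ind with
      | _ x y =>
        rw [Finset.mem_inter, mem_tch, mem_tch, Finset.mem_image, Finset.mem_singleton,
          Finset.mem_singleton]
        rintro ⟨⟨_, h2⟩, ⟨_, h3⟩⟩
        rcases h2 with rfl | rfl
        · rcases h3 with h3 | h3
          · exact absurd h3 (Finset.notMem_erase _ _)
          · exact ⟨y, h3, rfl⟩
        · rcases h3 with h3 | h3
          · exact ⟨x, h3, Sym2.eq_swap⟩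
          · exact absurd h3 (Finset.notMem_erase _ _)
    exact (Finset.card_le_card this).trans Finset.card_image_le
  have h2 : tch E {v} ∪ tch E (S.erase v) ⊆ tch E S := by
    apply Finset.union_subset
    · exact tch_mono_right E (Finset.singleton_subset_iff.mpr hv)
    · exact tch_mono_right E (Finset.erase_subset _ _)
  have h3 := Finset.card_le_card h2
  have h4 := Finset.card_union_add_card_inter (tch E {v}) (tch E (S.erase v))
  rw [card_tch_singleton] at h4
  omega

theorem deg_ge_of_erase (E : Finset (Sym2 V)) (T : Finset V) (F : Finset (Sym2 V)) (v : V)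
    (hv : v ∉ T) :
    deg (E \ F) v ≤ deg (E \ (F ∪ tch E T)) v + T.card := by
  unfold deg
  have : nb (E \ F) v ⊆ nb (E \ (F ∪ tch E T)) v ∪ T := by
    intro y hy
    rw [mem_nb, Finset.mem_sdiff] at hy
    rw [Finset.mem_union, mem_nb, Finset.mem_sdiff, Finset.mem_union, mem_tch]
    tauto
  exact (Finset.card_le_card this).trans (Finset.card_union_le _ _)

theorem Cov.addPair {E : Finset (Sym2 V)} {W : Finset V} {m : ℕ} (hc : Cov E W m) {t y : V}
    (ht : t ∉ W) (hy : y ∉ W) (hty : t ≠ y) (h : s(t, y) ∈ E) :
    Cov E (insert t (insert y W)) (m + 1) := by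
  obtain ⟨L, h1, h2, h3, h4⟩ := hc
  refine ⟨[t, y] :: L, by simp [h1], ?_, ?_, ?_⟩
  · intro l hl
    rw [List.mem_cons] at hl
    rcases hl with rfl | hl
    · refine ⟨by simp, ?_⟩
      rw [List.isChain_cons_cons]
      exact ⟨h, List.IsChain.singleton _⟩
    · exact h2 l hl
  · rw [List.flatten_cons, List.cons_append, List.cons_append, List.nil_append,
      List.nodup_cons, List.nodup_cons, List.mem_cons]
    refine ⟨?_, fun h' => hy ((h4 y).mp h'), h3⟩
    rintro (h' | h')
    · exact hty h'
    · exact ht ((h4 t).mp h')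
  · intro x
    rw [List.flatten_cons, List.cons_append, List.cons_append, List.nil_append, List.mem_cons,
      List.mem_cons, h4, Finset.mem_insert, Finset.mem_insert]

theorem cov_release {E : Finset (Sym2 V)} (f g : V → V) (R : Finset V) :
    ∀ (W : Finset V) (m : ℕ), Disjoint R W → (∀ v ∈ R, s(v, g v) ∈ E) →
      Cov (E ∪ R.image (fun v => s(f v, g v))) W m → Cov E (R ∪ W) (m + R.card) := by
  induction R using Finset.induction_on with
  | empty =>
    intro W m _ _ h
    simpa using h
  | insert r R hr ih =>
    intro W m hd hE h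
    rw [Finset.disjoint_insert_left] at hd
    rw [Finset.image_insert, Finset.union_insert] at h
    have h1 : Cov (E ∪ R.image (fun v => s(f v, g v))) (insert r W) (m + 1) :=
      Cov.attach_virtual h hd.1 (Finset.mem_union_left _ (hE r (Finset.mem_insert_self _ _)))
    have h2 := ih (insert r W) (m + 1) (by
      rw [Finset.disjoint_insert_right]
      exact ⟨hr, hd.2⟩) (fun v hv => hE v (Finset.mem_insert_of_mem hv)) h1
    rw [Finset.card_insert_of_notMem hr]
    have h3 : insert r R ∪ W = R ∪ insert r W := by
      ext x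
      simp only [Finset.mem_union, Finset.mem_insert]
      tauto
    rw [h3]
    have h4 : m + (R.card + 1) = m + 1 + R.card := by ring
    rw [h4]
    exact h2

/-- numerical side conditions -/
structure Params (n σ Δ κ r₀ b M z₀ D₀ k : ℕ) : Prop where
  hk : 2 ≤ k
  hz : 4 * κ < σ * (z₀ + 1)
  hD : 6 * z₀ ≤ D₀
  hD2 : 2 ≤ D₀
  hM : 5 + 6 * z₀ ≤ M
  hb : 4 * b ≤ n
  hn : 4 ≤ n
  hn2 : 20 * k ≤ n
  hn3 : 20 * (2 * ((k - 1) * (k + k * (D₀ + k)))) ≤ n
  hκ : 2 * k * Δ ≤ κ
  hκ2 : (k - 1) * (k + k * (D₀ + k)) + 2 * ((k - 1) * (k + k * (D₀ + k))) *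
    ((k - 1) * (k + k * (D₀ + k)) + 1) ≤ κ
  hσ : D₀ + ((k - 1) * (k + k * (D₀ + k)) + 2 * ((k - 1) * (k + k * (D₀ + k))) *
    ((k - 1) * (k + k * (D₀ + k)) + 1)) ≤ σ
  hσ1 : (k - 1) * (k + k * (D₀ + k)) + 1 < σ
  hr₀ : 2 * ((k - 1) * (k + k * (D₀ + k))) ≤ r₀

theorem regime_one {G₁ G₂ : Finset (Sym2 V)} {σ Δ κ r₀ b M z₀ c D₀ k : ℕ}
    (hT : Typ G₁ G₂ σ Δ κ r₀ b M z₀ c) (hp : Params (Fintype.card V) σ Δ κ r₀ b M z₀ D₀ k)
    {F : Finset (Sym2 V)} (hFG : F ⊆ G₁ ∪ G₂)
    (hF : ∀ S : Finset V, S.card = k - 1 → F.card < (tch (G₁ ∪ G₂) S).card)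
    (hreg : (univ.filter (fun v => deg (G₁ ∪ G₂) v < k + k * (D₀ + k))).card ≤ k - 1) :
    ∃ m, m + 1 ≤ k ∧ Cov ((G₁ ∪ G₂) \ F) univ m := by
  set G := G₁ ∪ G₂ with hG
  set H := G \ F with hH
  set n := Fintype.card V with hn
  obtain ⟨hk, hz, hD, hD2, hM, hb, hn4, hn2, hn3, hκ, hκ2, hσ, hσ1, hr₀⟩ := hp
  set T := univ.filter (fun v => deg H v < D₀ + k) with hTdef
  have hTc : T.card ≤ k - 1 := by
    by_contra hcon
    push Not at hcon
    obtain ⟨T', hT'T, hT'c⟩ := Finset.exists_subset_card_eq (show k ≤ T.card by omega)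
    have hex : ∃ v ∈ T', k + k * (D₀ + k) ≤ deg G v := by
      by_contra h
      push Not at h
      have : T' ⊆ univ.filter (fun v => deg G v < k + k * (D₀ + k)) := by
        intro v hv
        rw [Finset.mem_filter]
        exact ⟨Finset.mem_univ _, h v hv⟩
      have := Finset.card_le_card this
      omega
    obtain ⟨v, hv, hdv⟩ := hex
    have h1 := card_tch_erase G hv
    have hSc : (T'.erase v).card = k - 1 := by rw [Finset.card_erase_of_mem hv, hT'c]
    have h2 := hF (T'.erase v) hSc
    have h3 : (tch G T').card ≤ F.card + (tch H T').card := by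
      have : tch G T' ⊆ F ∪ tch H T' := by
        intro e he
        rw [Finset.mem_union]
        by_cases heF : e ∈ F
        · exact Or.inl heF
        · right
          unfold tch at *
          rw [Finset.mem_filter] at *
          exact ⟨Finset.mem_sdiff.mpr ⟨he.1, heF⟩, he.2⟩
      exact (Finset.card_le_card this).trans (Finset.card_union_le _ _)
    have h4 : (tch H T').card ≤ k * (D₀ + k) := by
      refine (card_tch_le H T').trans ?_
      calc ∑ v ∈ T', deg H v ≤ ∑ v ∈ T', (D₀ + k) := by
            apply Finset.sum_le_sum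
            intro w hw
            have := hT'T hw
            rw [hTdef, Finset.mem_filter] at this
            exact this.2.le
        _ = k * (D₀ + k) := by rw [Finset.sum_const, smul_eq_mul, hT'c]
    omega
  set W := univ \ T with hW
  have hWT : ∀ x, x ∈ W ↔ x ∉ T := by
    intro x; rw [hW, Finset.mem_sdiff]; simp
  have hTleW : Fintype.card V - W.card = T.card := by
    have h1 : W.card = Fintype.card V - T.card := by
      rw [hW, Finset.card_sdiff_of_subset (Finset.subset_univ _), Finset.card_univ]
    have h2 : T.card ≤ Fintype.card V := Finset.card_le_univ T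
    omega
  set F' := F ∪ tch G T with hF'
  have hFΔ : F.card ≤ k * Δ := by
    obtain ⟨S, _, hS⟩ := Finset.exists_subset_card_eq
      (show k - 1 ≤ (univ : Finset V).card by rw [Finset.card_univ]; omega)
    have h1 := hF S hS
    have h2 := card_tch_le G S
    have h3 : ∑ v ∈ S, deg G v ≤ S.card * Δ := by
      rw [← smul_eq_mul, ← Finset.sum_const]
      exact Finset.sum_le_sum (fun v _ => hT.max v)
    rw [hS] at h3
    have h4 : (k - 1) * Δ ≤ k * Δ := Nat.mul_le_mul_right _ (by omega)
    omega
  have hF'c : F'.card ≤ κ := by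
    have h1 := Finset.card_union_le F (tch G T)
    have h2 := card_tch_le G T
    have h3 : ∑ v ∈ T, deg G v ≤ T.card * Δ := by
      rw [← smul_eq_mul, ← Finset.sum_const]
      exact Finset.sum_le_sum (fun v _ => hT.max v)
    have h4 : T.card * Δ ≤ k * Δ := Nat.mul_le_mul_right _ (by omega)
    have h5 : 2 * k * Δ = k * Δ + k * Δ := by ring
    rw [hF']
    omega
  have hdegW : ∀ v ∈ W, D₀ + 1 ≤ deg (G \ F') v := by
    intro v hv
    have hvT : v ∉ T := (hWT v).mp hv
    have h1 := deg_ge_of_erase G T F v hvT
    have h2 : D₀ + k ≤ deg H v := by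
      rw [hTdef, Finset.mem_filter, not_and] at hvT
      exact not_lt.mp (hvT (Finset.mem_univ v))
    rw [hF']
    rw [← hH] at h1
    omega
  have hmod : Modif G F' ∅ W σ D₀ := by
    refine ⟨?_, ?_, ?_, ?_, ?_, ?_⟩
    · intro x y hxy
      rw [Finset.union_empty, Finset.mem_sdiff, hF', Finset.mem_union (s := F), mem_tch] at hxy
      rw [hWT, hWT]
      tauto
    · intro v hv _
      have := hdegW v hv
      omega
    · intro s hs _
      rw [Finset.union_empty]
      have := hdegW s hs
      omega
    · intro s hs hss y hy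
      rw [Finset.union_empty, Finset.mem_sdiff] at hy
      refine ⟨?_, s, hss, hy.1⟩
      by_contra hcon
      push Not at hcon
      exact hT.sm1 s y hss hcon hy.1
    · intro s hs s' hs' hne h1 h2 y hy hy'
      rw [Finset.union_empty, Finset.mem_sdiff] at hy hy'
      exact hT.sm2 s s' y hne h1 h2 hy.1 hy'.1
    · intro x y h
      exact absurd h (Finset.notMem_empty _)
  have hham := robust hT hz hD hM hb hn4 hF'c (by simp : (∅ : Finset (Sym2 V)).card ≤ r₀)
    (by omega) hmod
  have hhamH : HamOn H W := by
    apply hham.mono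
    rw [Finset.union_empty, hH, hF']
    intro e he
    rw [Finset.mem_sdiff, Finset.mem_union (s := F)] at he
    rw [Finset.mem_sdiff]
    tauto
  have hTW : Disjoint T W := by
    rw [Finset.disjoint_left]
    intro x hx hx'
    exact (hWT x).mp hx' hx
  have huniv : ∀ x, x ∈ T ∪ W := by
    intro x
    rw [Finset.mem_union, hWT]
    tauto
  by_cases hlt : T.card + 1 < k
  · refine ⟨1 + T.card, by omega, ?_⟩
    have h1 := hhamH.cov.addSet hTW
    rwa [Finset.eq_univ_iff_forall.mpr huniv] at h1
  · have hTk : T.card = k - 1 := by omega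
    have h1 := hF T hTk
    have h2 : ∃ e ∈ tch G T, e ∉ F := by
      by_contra hcon
      push Not at hcon
      have h3 : (tch G T).card ≤ F.card := Finset.card_le_card hcon
      omega
    obtain ⟨e, he, heF⟩ := h2
    obtain ⟨t, y, ht, hty⟩ : ∃ t y, t ∈ T ∧ s(t, y) ∈ H := by
      induction e using Sym2.ind with
      | _ x y =>
        rw [mem_tch] at he
        rcases he.2 with h3 | h3
        · exact ⟨x, y, h3, Finset.mem_sdiff.mpr ⟨he.1, heF⟩⟩
        · exact ⟨y, x, h3, by rw [Sym2.eq_swap]; exact Finset.mem_sdiff.mpr ⟨he.1, heF⟩⟩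
    by_cases hyT : y ∈ T
    · have hne : t ≠ y := by
        rintro rfl
        exact hT.loop t (Finset.mem_sdiff.mp hty).1
      have h3 := hhamH.cov.addPair (t := t) (y := y) (fun h => (hWT t).mp h ht)
        (fun h => (hWT y).mp h hyT) hne hty
      have hdis : Disjoint ((T.erase t).erase y) (insert t (insert y W)) := by
        rw [Finset.disjoint_left]
        intro x hx hx'
        rw [Finset.mem_erase, Finset.mem_erase] at hx
        rw [Finset.mem_insert, Finset.mem_insert, hWT] at hx'
        tauto
      have h4 := h3.addSet hdis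
      have hc1 : ((T.erase t).erase y).card = k - 3 := by
        rw [Finset.card_erase_of_mem (Finset.mem_erase.mpr ⟨hne.symm, hyT⟩),
          Finset.card_erase_of_mem ht, hTk]
        omega
      have hk3 : 3 ≤ k := by
        have : ({t, y} : Finset V).card = 2 := Finset.card_pair hne
        have h5 : ({t, y} : Finset V) ⊆ T := by
          intro x hx
          rw [Finset.mem_insert, Finset.mem_singleton] at hx
          rcases hx with rfl | rfl
          · exact ht
          · exact hyT
        have := Finset.card_le_card h5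
        omega
      refine ⟨1 + 1 + ((T.erase t).erase y).card, by omega, ?_⟩
      have huniv' : (T.erase t).erase y ∪ insert t (insert y W) = univ := by
        rw [Finset.eq_univ_iff_forall]
        intro x
        rw [Finset.mem_union, Finset.mem_erase, Finset.mem_erase, Finset.mem_insert,
          Finset.mem_insert, hWT]
        tauto
      rwa [huniv'] at h4
    · have hyW : y ∈ W := (hWT y).mpr hyT
      have h3 := hhamH.attach (fun h => (hWT t).mp h ht) hyW hty
      have hdis : Disjoint (T.erase t) (insert t W) := by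
        rw [Finset.disjoint_left]
        intro x hx hx'
        rw [Finset.mem_erase] at hx
        rw [Finset.mem_insert, hWT] at hx'
        tauto
      have h4 := h3.addSet hdis
      refine ⟨1 + (T.erase t).card, ?_, ?_⟩
      · rw [Finset.card_erase_of_mem ht, hTk]
        omega
      · have huniv' : T.erase t ∪ insert t W = univ := by
          rw [Finset.eq_univ_iff_forall]
          intro x
          rw [Finset.mem_union, Finset.mem_erase, Finset.mem_insert, hWT]
          tauto
        rwa [huniv'] at h4

end Pool.Agent.Helper96.PC
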