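import Mathlib
import Pool.Agent.Helper96.PC.Regime

set_option autoImplicit false
set_option linter.unusedSectionVars false
set_option linter.unusedVariables false
open Classical Finset

namespace Pool.Agent.Helper96.PC

variable {V : Type*} [Fintype V] [DecidableEq V]

/-- deleted edges at pairwise non-adjacent vertices -/
theorem sum_deg_indep {G F : Finset (Sym2 V)} (hFG : F ⊆ G) {S : Finset V}
    (hS : ∀ s ∈ S, ∀ s' ∈ S, s(s, s') ∉ G) : ∑ v ∈ S, deg F v ≤ F.card := by
  have h1 : (S.biUnion (fun v => tch F {v})).card = ∑ v ∈ S, (tch F {v}).card := by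
    apply Finset.card_biUnion
    intro s hs s' hs' hne
    rw [Function.onFun, Finset.disjoint_left]
    intro e
    induction e using Sym2.ind with
    | _ x y =>
      rw [mem_tch, mem_tch, Finset.mem_singleton, Finset.mem_singleton, Finset.mem_singleton,
        Finset.mem_singleton]
      rintro ⟨h1, h2⟩ ⟨_, h3⟩
      have h4 := hFG h1
      rcases h2 with rfl | rfl <;> rcases h3 with rfl | rfl
      · exact hne rfl
      · exact hS _ hs _ hs' h4
      · exact hS _ hs' _ hs h4
      · exact hne rfl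
  have h2 : ∑ v ∈ S, deg F v = (S.biUnion (fun v => tch F {v})).card := by
    rw [h1]
    exact Finset.sum_congr rfl (fun v _ => (card_tch_singleton F v).symm)
  rw [h2]
  apply Finset.card_le_card
  intro e he
  rw [Finset.mem_biUnion] at he
  obtain ⟨v, _, he⟩ := he
  exact tch_subset _ _ he

/-- the counting step in the sparse regime -/
theorem count_two {G F : Finset (Sym2 V)} (hFG : F ⊆ G) {I A : Finset V} {k h o : ℕ}
    (hIA : Disjoint I A)
    (hI : ∀ v ∈ I, deg G v ≤ deg F v) (hA : ∀ v ∈ A, deg G v ≤ deg F v + 1)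
    (hA1 : ∀ v ∈ A, 1 ≤ deg F v)
    (hind : ∀ s ∈ I ∪ A, ∀ s' ∈ I ∪ A, s(s, s') ∉ G)
    (hAc : A.card = 2 * h + o) (ho : o ≤ 1) (hk : 2 ≤ k)
    (hF : ∀ S : Finset V, S.card = k - 1 → F.card < (tch G S).card) :
    I.card + max 1 (h + o) + 1 ≤ k := by
  by_contra hcon
  push Not at hcon
  by_cases hIk : k - 1 ≤ I.card
  · obtain ⟨S, hSI, hSc⟩ := Finset.exists_subset_card_eq hIk
    have h1 := hF S hSc
    have h2 := card_tch_le G S
    have h3 : ∑ v ∈ S, deg G v ≤ ∑ v ∈ S, deg F v :=
      Finset.sum_le_sum (fun v hv => hI v (hSI hv))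
    have h4 := sum_deg_indep hFG (S := S) (fun s hs s' hs' =>
      hind s (Finset.mem_union_left _ (hSI hs)) s' (Finset.mem_union_left _ (hSI hs')))
    omega
  · push Not at hIk
    have ht : k - 1 - I.card ≤ A.card := by
      rcases le_total 1 (h + o) with h1 | h1
      · rw [max_eq_right h1] at hcon; omega
      · rw [max_eq_left h1] at hcon; omega
    obtain ⟨A', hA'A, hA'c⟩ := Finset.exists_subset_card_eq ht
    have hdisj : Disjoint I A' := Finset.disjoint_of_subset_right hA'A hIA
    have hSc : (I ∪ A').card = k - 1 := by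
      rw [Finset.card_union_of_disjoint hdisj, hA'c]; omega
    have h1 := hF (I ∪ A') hSc
    have h2 := card_tch_le G (I ∪ A')
    rw [Finset.sum_union hdisj] at h2
    have h3 : ∑ v ∈ I, deg G v ≤ ∑ v ∈ I, deg F v := Finset.sum_le_sum hI
    have h4 : ∑ v ∈ A', deg G v ≤ ∑ v ∈ A', deg F v + A'.card := by
      rw [Finset.card_eq_sum_ones, ← Finset.sum_add_distrib]
      exact Finset.sum_le_sum (fun v hv => hA v (hA'A hv))
    have h5 : (A \ A').card ≤ ∑ v ∈ A \ A', deg F v := by
      rw [Finset.card_eq_sum_ones]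
      exact Finset.sum_le_sum (fun v hv => hA1 v (Finset.mem_sdiff.mp hv).1)
    have h6 := sum_deg_indep hFG hind
    rw [Finset.sum_union hIA, ← Finset.sum_sdiff hA'A] at h6
    have h7 := Finset.card_sdiff_add_card_eq_card hA'A
    have h8 : A'.card ≤ (A \ A').card := by
      rcases le_total 1 (h + o) with h9 | h9
      · rw [max_eq_right h9] at hcon; omega
      · rw [max_eq_left h9] at hcon; omega
    omega

theorem regime_two {G₁ G₂ : Finset (Sym2 V)} {σ Δ κ r₀ b M z₀ c D₀ k : ℕ}
    (hT : Typ G₁ G₂ σ Δ κ r₀ b M z₀ c) (hp : Params (Fintype.card V) σ Δ κ r₀ b M z₀ D₀ k)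
    {F : Finset (Sym2 V)} (hFG : F ⊆ G₁ ∪ G₂)
    (hF : ∀ S : Finset V, S.card = k - 1 → F.card < (tch (G₁ ∪ G₂) S).card)
    (hreg : k ≤ (univ.filter (fun v => deg (G₁ ∪ G₂) v < k + k * (D₀ + k))).card) :
    ∃ m, m + 1 ≤ k ∧ Cov ((G₁ ∪ G₂) \ F) univ m := by
  set G := G₁ ∪ G₂ with hG
  set H := G \ F with hH
  set n := Fintype.card V with hn
  obtain ⟨hk, hz, hD, hD2, hM, hb, hn4, hn2, hn3, hκ, hκ2, hσ, hσ1, hr₀⟩ := hp
  set f₀ := (k - 1) * (k + k * (D₀ + k)) with hf₀
  have hFf : F.card < f₀ := by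
    obtain ⟨S, hS, hSc⟩ := Finset.exists_subset_card_eq (show k - 1 ≤ _ from le_trans (by omega) hreg)
    have h1 := hF S hSc
    have h2 := card_tch_le G S
    have h3 : ∑ v ∈ S, deg G v ≤ (k - 1) * (k + k * (D₀ + k)) := by
      calc ∑ v ∈ S, deg G v ≤ ∑ v ∈ S, (k + k * (D₀ + k)) := by
            apply Finset.sum_le_sum
            intro v hv
            have := hS hv
            rw [Finset.mem_filter] at this
            exact this.2.le
        _ = (k - 1) * (k + k * (D₀ + k)) := by rw [Finset.sum_const, smul_eq_mul, hSc]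
    omega
  have hdegF : ∀ v, deg F v ≤ F.card := deg_le_card F
  have hGH : ∀ v, deg G v ≤ deg H v + deg F v := fun v => deg_sdiff_ge G F v
  set I := univ.filter (fun v => deg H v = 0) with hI
  set A := univ.filter (fun v => deg H v = 1) with hA
  have hmI : ∀ v, v ∈ I ↔ deg H v = 0 := by
    intro v; rw [hI, Finset.mem_filter]; exact ⟨fun h => h.2, fun h => ⟨Finset.mem_univ _, h⟩⟩
  have hmA : ∀ v, v ∈ A ↔ deg H v = 1 := by
    intro v; rw [hA, Finset.mem_filter]; exact ⟨fun h => h.2, fun h => ⟨Finset.mem_univ _, h⟩⟩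
  have hIA : Disjoint I A := by
    rw [Finset.disjoint_left]
    intro v hv hv'
    rw [hmI] at hv
    rw [hmA] at hv'
    omega
  have hsmall : ∀ v ∈ I ∪ A, deg G v < σ := by
    intro v hv
    rw [Finset.mem_union, hmI, hmA] at hv
    have h1 := hGH v
    have h2 := hdegF v
    rcases hv with hv | hv <;> omega
  have hind : ∀ s ∈ I ∪ A, ∀ s' ∈ I ∪ A, s(s, s') ∉ G := by
    intro s hs s' hs'
    exact hT.sm1 s s' (hsmall s hs) (hsmall s' hs')
  have hlarge : ∀ s, deg G s < σ → ∀ y, s(s, y) ∈ G → σ ≤ deg G y := by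
    intro s hs y hy
    by_contra hcon
    push Not at hcon
    exact hT.sm1 s y hs hcon hy
  have hFone : ∀ v ∈ I ∪ A, 1 ≤ deg F v := by
    intro v hv
    rw [Finset.mem_union, hmI, hmA] at hv
    have h1 := hGH v
    have h2 : 2 ≤ deg G v := hT.two v
    rcases hv with hv | hv <;> omega
  -- the unique neighbours
  have hnbr : ∀ v, v ∈ A → ∃ w, s(v, w) ∈ H := by
    intro v hv
    rw [hmA] at hv
    have h1 : 0 < (nb H v).card := by
      unfold deg at hv
      omega
    obtain ⟨w, hw⟩ := Finset.card_pos.mp h1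
    exact ⟨w, mem_nb.mp hw⟩
  choose! nbr hnbr using hnbr
  -- splitting `A`
  obtain ⟨A₁, hA₁A, hA₁c⟩ := Finset.exists_subset_card_eq (show A.card / 2 ≤ A.card by omega)
  obtain ⟨A₂, hA₂A, hA₂c⟩ := Finset.exists_subset_card_eq
    (show A.card / 2 ≤ (A \ A₁).card by
      have := Finset.card_sdiff_add_card_eq_card hA₁A
      omega)
  set O := (A \ A₁) \ A₂ with hO
  have hA₂A' : A₂ ⊆ A := hA₂A.trans Finset.sdiff_subset
  have hOA : O ⊆ A := Finset.sdiff_subset.trans Finset.sdiff_subset
  have hOc : O.card + 2 * (A.card / 2) = A.card := by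
    have h1 := Finset.card_sdiff_add_card_eq_card hA₁A
    have h2 : O.card + A₂.card = (A \ A₁).card := Finset.card_sdiff_add_card_eq_card hA₂A
    omega
  have hO1 : O.card ≤ 1 := by omega
  have hA12 : Disjoint A₁ A₂ := by
    rw [Finset.disjoint_left]
    intro x hx hx'
    exact (Finset.mem_sdiff.mp (hA₂A hx')).2 hx
  have hA₁O : Disjoint A₁ O := by
    rw [Finset.disjoint_left]
    intro x hx hx'
    exact (Finset.mem_sdiff.mp (Finset.mem_sdiff.mp hx').1).2 hx
  have hA₂O : Disjoint A₂ O := by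
    rw [Finset.disjoint_left]
    intro x hx hx'
    exact (Finset.mem_sdiff.mp hx').2 hx
  have hAsplit : ∀ x, x ∈ A → x ∈ A₁ ∨ x ∈ A₂ ∨ x ∈ O := by
    intro x hx
    by_cases h1 : x ∈ A₁
    · exact Or.inl h1
    · by_cases h2 : x ∈ A₂
      · exact Or.inr (Or.inl h2)
      · right; right
        exact Finset.mem_sdiff.mpr ⟨Finset.mem_sdiff.mpr ⟨hx, h1⟩, h2⟩
  -- the pairing `f : A₁ → A₂`
  obtain ⟨f, hf1, hf2, hf3⟩ : ∃ f : V → V, (∀ v ∈ A₁, f v ∈ A₂) ∧
      (∀ v ∈ A₁, ∀ v' ∈ A₁, f v = f v' → v = v') ∧ (∀ u ∈ A₂, ∃ v ∈ A₁, f v = u) := by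
    have e : A₁ ≃ A₂ := Finset.equivOfCardEq (hA₁c.trans hA₂c.symm)
    refine ⟨fun v => if h : v ∈ A₁ then (e ⟨v, h⟩ : V) else v, ?_, ?_, ?_⟩
    · intro v hv
      simp only [hv, dif_pos]
      exact (e ⟨v, hv⟩).2
    · intro v hv v' hv' h
      simp only [hv, hv', dif_pos] at h
      have := e.injective (Subtype.ext h)
      exact congrArg Subtype.val this
    · intro u hu
      refine ⟨(e.symm ⟨u, hu⟩ : V), (e.symm ⟨u, hu⟩).2, ?_⟩
      have h1 : ((e.symm ⟨u, hu⟩ : A₁) : V) ∈ A₁ := (e.symm ⟨u, hu⟩).2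
      simp only [h1, dif_pos]
      simp
  set T := I ∪ (A₁ ∪ O) with hTdef
  set W := univ \ T with hW
  set P := A₁.image (fun v => s(f v, nbr v)) with hP
  set F' := F ∪ tch G T with hF'
  have hWT : ∀ x, x ∈ W ↔ x ∉ T := by
    intro x; rw [hW, Finset.mem_sdiff]; simp
  have hTIA : T ⊆ I ∪ A := by
    rw [hTdef]
    exact Finset.union_subset_union (Finset.Subset.refl _) (Finset.union_subset hA₁A hOA)
  have hTc : T.card ≤ 2 * F.card := by
    calc T.card = ∑ v ∈ T, 1 := Finset.card_eq_sum_ones T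
      _ ≤ ∑ v ∈ T, deg F v := Finset.sum_le_sum (fun v hv => hFone v (hTIA hv))
      _ ≤ 2 * F.card := sum_deg_le F T
  have hTleW : Fintype.card V - W.card = T.card := by
    have h1 : W.card = Fintype.card V - T.card := by
      rw [hW, Finset.card_sdiff_of_subset (Finset.subset_univ _), Finset.card_univ]
    have h2 : T.card ≤ Fintype.card V := Finset.card_le_univ T
    omega
  have hF'small : F'.card ≤ f₀ + 2 * f₀ * (f₀ + 1) := by
    have h1 := Finset.card_union_le F (tch G T)
    have h2 := card_tch_le G T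
    have h3 : ∑ v ∈ T, deg G v ≤ T.card * (f₀ + 1) := by
      rw [← smul_eq_mul, ← Finset.sum_const]
      apply Finset.sum_le_sum
      intro v hv
      have hv' := hTIA hv
      rw [Finset.mem_union, hmI, hmA] at hv'
      have h4 := hGH v
      have h5 := hdegF v
      rcases hv' with hv' | hv' <;> omega
    have h6 : T.card * (f₀ + 1) ≤ 2 * f₀ * (f₀ + 1) := Nat.mul_le_mul_right _ (by omega)
    rw [hF']
    omega
  have hF'c : F'.card ≤ κ := by omega
  have hnbrG : ∀ v ∈ A, s(v, nbr v) ∈ G := fun v hv => (Finset.mem_sdiff.mp (hnbr v hv)).1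
  have hnbrL : ∀ v ∈ A, σ ≤ deg G (nbr v) := fun v hv =>
    hlarge v (hsmall v (Finset.mem_union_right _ hv)) _ (hnbrG v hv)
  have hlargeT : ∀ y, σ ≤ deg G y → y ∉ T := by
    intro y hy hyT
    have := hsmall y (hTIA hyT)
    omega
  have hA₂T : ∀ u ∈ A₂, u ∉ T := by
    intro u hu huT
    rw [hTdef, Finset.mem_union, Finset.mem_union] at huT
    rcases huT with h | h | h
    · exact Finset.disjoint_left.mp hIA h (hA₂A' hu)
    · exact Finset.disjoint_left.mp hA12 h hu
    · exact Finset.disjoint_left.mp hA₂O hu h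
  have hmemF' : ∀ x y, s(x, y) ∈ G \ F' ↔ s(x, y) ∈ H ∧ x ∉ T ∧ y ∉ T := by
    intro x y
    rw [Finset.mem_sdiff, hF', Finset.mem_union (s := F), mem_tch, hH, Finset.mem_sdiff]
    tauto
  have hmemP : ∀ x y, s(x, y) ∈ P → ∃ v ∈ A₁, (x = f v ∧ y = nbr v) ∨ (x = nbr v ∧ y = f v) := by
    intro x y h
    rw [hP, Finset.mem_image] at h
    obtain ⟨v, hv, h⟩ := h
    refine ⟨v, hv, ?_⟩
    rw [Sym2.eq_iff] at h
    rcases h with ⟨h1, h2⟩ | ⟨h1, h2⟩
    · exact Or.inl ⟨h1.symm, h2.symm⟩
    · exact Or.inr ⟨h2.symm, h1.symm⟩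
  -- the owner of a neighbour
  have howner : ∀ s ∈ W, deg G s < σ → ∀ y, s(s, y) ∈ (G \ F') ∪ P → σ ≤ deg G y ∧
      ∃ o, deg G o < σ ∧ s(o, y) ∈ G ∧ (o = s ∨ (o ∈ A₁ ∧ f o = s)) := by
    intro s hs hss y hy
    rw [Finset.mem_union (s := G \ F')] at hy
    rcases hy with hy | hy
    · have h1 := ((hmemF' s y).mp hy).1
      have h2 := (Finset.mem_sdiff.mp h1).1
      exact ⟨hlarge s hss y h2, s, hss, h2, Or.inl rfl⟩
    · obtain ⟨v, hv, h1 | h1⟩ := hmemP s y hy
      · rw [h1.2]
        exact ⟨hnbrL v (hA₁A hv), v, hsmall v (Finset.mem_union_right _ (hA₁A hv)),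
          hnbrG v (hA₁A hv), Or.inr ⟨hv, h1.1.symm⟩⟩
      · exfalso
        have := hnbrL v (hA₁A hv)
        rw [← h1.1] at this
        omega
  have hmod : Modif G F' P W σ D₀ := by
    refine ⟨?_, ?_, ?_, ?_, ?_, ?_⟩
    · intro x y hxy
      rw [Finset.mem_union (s := G \ F')] at hxy
      rw [hWT, hWT]
      rcases hxy with hxy | hxy
      · exact ((hmemF' x y).mp hxy).2
      · obtain ⟨v, hv, ⟨h1, h2⟩ | ⟨h1, h2⟩⟩ := hmemP x y hxy
        · rw [h1, h2]
          exact ⟨hA₂T _ (hf1 v hv), hlargeT _ (hnbrL v (hA₁A hv))⟩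
        · rw [h1, h2]
          exact ⟨hlargeT _ (hnbrL v (hA₁A hv)), hA₂T _ (hf1 v hv)⟩
    · intro v _ hv
      have h1 := deg_sdiff_ge G F' v
      have h2 := deg_le_card F' v
      omega
    · intro s hs hss
      have hsT := (hWT s).mp hs
      by_cases hsA₂ : s ∈ A₂
      · obtain ⟨v, hv, hfv⟩ := hf3 s hsA₂
        have hvA := hA₁A hv
        have hsA := hA₂A' hsA₂
        have hne : s ≠ v := by
          rintro rfl
          exact Finset.disjoint_left.mp hA12 hv hsA₂
        have h1 : nbr s ≠ nbr v := by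
          intro h
          have g1 := hnbrG s hsA
          have g2 := hnbrG v hvA
          rw [h] at g1
          exact hT.sm2 s v (nbr v) hne hss (hsmall v (Finset.mem_union_right _ hvA)) g1 g2
        have h2 : ({nbr s, nbr v} : Finset V) ⊆ nb ((G \ F') ∪ P) s := by
          intro y hy
          rw [Finset.mem_insert, Finset.mem_singleton] at hy
          rw [mem_nb, Finset.mem_union (s := G \ F')]
          rcases hy with rfl | rfl
          · left
            rw [hmemF']
            exact ⟨hnbr s hsA, hsT, hlargeT _ (hnbrL s hsA)⟩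
          · right
            rw [hP, Finset.mem_image]
            exact ⟨v, hv, by rw [hfv]⟩
        have h3 := Finset.card_le_card h2
        rw [Finset.card_pair h1] at h3
        exact h3
      · have hsI : s ∉ I := fun h => hsT (Finset.mem_union_left _ h)
        have hsA : s ∉ A := by
          intro h
          rcases hAsplit s h with h1 | h1 | h1
          · exact hsT (Finset.mem_union_right _ (Finset.mem_union_left _ h1))
          · exact hsA₂ h1
          · exact hsT (Finset.mem_union_right _ (Finset.mem_union_right _ h1))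
        have h2 : 2 ≤ deg H s := by
          rw [hmI] at hsI
          rw [hmA] at hsA
          omega
        refine h2.trans (Finset.card_le_card ?_)
        intro y hy
        rw [mem_nb] at hy
        rw [mem_nb, Finset.mem_union (s := G \ F')]
        left
        rw [hmemF']
        exact ⟨hy, hsT, hlargeT y (hlarge s hss y (Finset.mem_sdiff.mp hy).1)⟩
    · intro s hs hss y hy
      obtain ⟨h1, o, h2, h3, _⟩ := howner s hs hss y hy
      exact ⟨h1, o, h2, h3⟩
    · intro s hs s' hs' hne hss hss' y hy hy'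
      obtain ⟨_, o, h2, h3, h4⟩ := howner s hs hss y hy
      obtain ⟨_, o', h2', h3', h4'⟩ := howner s' hs' hss' y hy'
      have hoo : o = o' := by
        by_contra h
        exact hT.sm2 o o' y h h2 h2' h3 h3'
      subst hoo
      have hA₁T : ∀ v ∈ A₁, v ∉ W := fun v hv hvW =>
        (hWT v).mp hvW (Finset.mem_union_right _ (Finset.mem_union_left _ hv))
      rcases h4 with rfl | ⟨h5, h6⟩ <;> rcases h4' with h7 | ⟨h7, h8⟩
      · exact hne h7
      · exact hA₁T _ h7 hs
      · exact hA₁T _ h5 (h7 ▸ hs')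
      · exact hne (h6.symm.trans h8)
    · intro x y hxy
      obtain ⟨v, hv, ⟨h1, h2⟩ | ⟨h1, h2⟩⟩ := hmemP x y hxy
      · left
        rw [h1]
        exact hsmall _ (Finset.mem_union_right _ (hA₂A' (hf1 v hv)))
      · right
        rw [h2]
        exact hsmall _ (Finset.mem_union_right _ (hA₂A' (hf1 v hv)))
  have hPc : P.card ≤ r₀ := by
    have h1 : P.card ≤ A₁.card := Finset.card_image_le
    have h2 : A₁.card ≤ T.card := Finset.card_le_card
      (Finset.subset_union_left.trans Finset.subset_union_right)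
    omega
  have hham := robust hT hz hD hM hb hn4 hF'c hPc (by omega) hmod
  have hhamH : HamOn (H ∪ P) W := by
    apply hham.mono
    apply Finset.union_subset_union _ (Finset.Subset.refl _)
    intro e he
    induction e using Sym2.ind with
    | _ x y => exact ((hmemF' x y).mp he).1
  -- counting
  have hcount := count_two (G := G) (F := F) hFG (I := I) (A := A) (k := k) (h := A.card / 2)
    (o := O.card) hIA
    (fun v hv => by
      have h1 := hGH v
      rw [hmI] at hv
      omega)
    (fun v hv => by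
      have h1 := hGH v
      rw [hmA] at hv
      omega)
    (fun v hv => hFone v (Finset.mem_union_right _ hv)) hind (by omega) hO1 hk hF
  refine ⟨I.card + max 1 (A.card / 2 + O.card), hcount, ?_⟩
  have hunivx : ∀ x, x ∈ T ∨ x ∈ W := by
    intro x
    rw [hWT]
    tauto
  by_cases hA₁e : A₁ = ∅
  · have hA2 : A.card / 2 = 0 := by rw [← hA₁c, hA₁e, Finset.card_empty]
    have hPe : P = ∅ := by rw [hP, hA₁e, Finset.image_empty]
    rw [hPe, Finset.union_empty] at hhamH
    rw [hA2, zero_add, max_eq_left hO1]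
    by_cases hOe : O = ∅
    · have hTI : T = I := by rw [hTdef, hA₁e, hOe]; simp
      have h1 : Disjoint I W := by
        rw [Finset.disjoint_left]
        intro x hx hx'
        exact (hWT x).mp hx' (hTI ▸ hx)
      have h2 := hhamH.cov.addSet h1
      have h3 : I ∪ W = univ := by
        rw [Finset.eq_univ_iff_forall]
        intro x
        rw [Finset.mem_union]
        have := hunivx x
        rwa [hTI] at this
      rw [h3, add_comm] at h2
      exact h2
    · obtain ⟨o, ho⟩ := Finset.nonempty_iff_ne_empty.mpr hOe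
      have hOo : O = {o} := by
        rw [Finset.eq_singleton_iff_unique_mem]
        refine ⟨ho, fun x hx => ?_⟩
        exact Finset.card_le_one.mp hO1 x hx o ho
      have hoA := hOA ho
      have hoT : o ∈ T := Finset.mem_union_right _ (Finset.mem_union_right _ ho)
      have h1 := hhamH.attach (v := o) (w := nbr o) (fun h => (hWT o).mp h hoT)
        ((hWT _).mpr (hlargeT _ (hnbrL o hoA))) (hnbr o hoA)
      have h2 : Disjoint I (insert o W) := by
        rw [Finset.disjoint_left]
        intro x hx hx'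
        rw [Finset.mem_insert, hWT] at hx'
        rcases hx' with rfl | hx'
        · exact Finset.disjoint_left.mp hIA hx hoA
        · exact hx' (Finset.mem_union_left _ hx)
      have h3 := h1.addSet h2
      have h4 : I ∪ insert o W = univ := by
        rw [Finset.eq_univ_iff_forall]
        intro x
        rw [Finset.mem_union, Finset.mem_insert]
        rcases hunivx x with h5 | h5
        · rw [hTdef, hA₁e, hOo, Finset.mem_union, Finset.empty_union,
            Finset.mem_singleton] at h5
          tauto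
        · tauto
      rw [h4, add_comm] at h3
      exact h3
  · obtain ⟨v₀, hv₀⟩ := Finset.nonempty_iff_ne_empty.mpr hA₁e
    have hA₁pos : 1 ≤ A.card / 2 := by
      rw [← hA₁c]; exact Finset.card_pos.mpr ⟨v₀, hv₀⟩
    rw [max_eq_right (by omega)]
    have hPins : P = insert s(f v₀, nbr v₀) ((A₁.erase v₀).image (fun v => s(f v, nbr v))) := by
      rw [hP]
      conv_lhs => rw [← Finset.insert_erase hv₀, Finset.image_insert]
    rw [hPins, Finset.union_insert] at hhamH
    have hv₀T : v₀ ∈ T := Finset.mem_union_right _ (Finset.mem_union_left _ hv₀)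
    have hv₀A := hA₁A hv₀
    have h1 := hhamH.attach_virtual (v := v₀) (by omega) (fun h => (hWT v₀).mp h hv₀T)
      ((hWT _).mpr (hlargeT _ (hnbrL v₀ hv₀A)))
      (by
        intro h
        have h2 := hnbrL v₀ hv₀A
        have h3 := hsmall _ (Finset.mem_union_right _ (hA₂A' (hf1 v₀ hv₀)))
        rw [h] at h3
        omega)
      (Finset.mem_union_left _ (hnbr v₀ hv₀A))
    have hdis : Disjoint (A₁.erase v₀) (insert v₀ W) := by
      rw [Finset.disjoint_left]
      intro x hx hx'
      rw [Finset.mem_erase] at hx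
      rw [Finset.mem_insert, hWT] at hx'
      rcases hx' with hx' | hx'
      · exact hx.1 hx'
      · exact hx' (Finset.mem_union_right _ (Finset.mem_union_left _ hx.2))
    have h2 := cov_release f nbr (A₁.erase v₀) (insert v₀ W) 1 hdis
      (fun v hv => hnbr v (hA₁A (Finset.mem_of_mem_erase hv))) h1
    have hdis2 : Disjoint (I ∪ O) (A₁.erase v₀ ∪ insert v₀ W) := by
      rw [Finset.disjoint_left]
      intro x hx hx'
      rw [Finset.mem_union] at hx
      rw [Finset.mem_union, Finset.mem_erase, Finset.mem_insert, hWT] at hx'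
      have hxT : x ∈ T := by
        rw [hTdef, Finset.mem_union, Finset.mem_union]
        tauto
      have hxA₁ : x ∉ A₁ := by
        intro h
        rcases hx with hx | hx
        · exact Finset.disjoint_left.mp hIA hx (hA₁A h)
        · exact Finset.disjoint_left.mp hA₁O h hx
      rcases hx' with hx' | rfl | hx'
      · exact hxA₁ hx'.2
      · exact hxA₁ hv₀
      · exact hx' hxT
    have h3 := h2.addSet hdis2
    have hIO : Disjoint I O := Finset.disjoint_of_subset_right hOA hIA
    rw [Finset.card_union_of_disjoint hIO, Finset.card_erase_of_mem hv₀, hA₁c] at h3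
    have h4 : I ∪ O ∪ (A₁.erase v₀ ∪ insert v₀ W) = univ := by
      rw [Finset.eq_univ_iff_forall]
      intro x
      rw [Finset.mem_union, Finset.mem_union, Finset.mem_union, Finset.mem_erase,
        Finset.mem_insert]
      rcases hunivx x with h5 | h5
      · rw [hTdef, Finset.mem_union, Finset.mem_union] at h5
        tauto
      · tauto
    rw [h4] at h3
    have h5 : 1 + (A.card / 2 - 1) + (I.card + O.card) = I.card + (A.card / 2 + O.card) := by
      omega
    rw [h5] at h3
    exact h3

theorem cover_of_few {G₁ G₂ : Finset (Sym2 V)} {σ Δ κ r₀ b M z₀ c D₀ k : ℕ}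
    (hT : Typ G₁ G₂ σ Δ κ r₀ b M z₀ c) (hp : Params (Fintype.card V) σ Δ κ r₀ b M z₀ D₀ k)
    {F : Finset (Sym2 V)} (hFG : F ⊆ G₁ ∪ G₂)
    (hF : ∀ S : Finset V, S.card = k - 1 → F.card < (tch (G₁ ∪ G₂) S).card) :
    ∃ m, m + 1 ≤ k ∧ Cov ((G₁ ∪ G₂) \ F) univ m := by
  by_cases h : (univ.filter (fun v => deg (G₁ ∪ G₂) v < k + k * (D₀ + k))).card ≤ k - 1
  · exact regime_one hT hp hFG hF h
  · have hk := hp.hk
    exact regime_two hT hp hFG hF (by omega)

end Pool.Agent.Helper96.PC
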