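import Mathlib
import Pool.Agent.Helper96.PC.Regime2

set_option autoImplicit false
set_option linter.unusedSectionVars false
set_option linter.unusedVariables false
open Classical Finset

namespace Pool.Agent.Helper96.PC

variable {V : Type*} [Fintype V] [DecidableEq V]

/-- deleting an edge costs at most one more path -/
theorem Cov.delete {E : Finset (Sym2 V)} {W : Finset V} {u w : V} {m : ℕ}
    (h : Cov (insert s(u, w) E) W m) : Cov E W m ∨ Cov E W (m + 1) := by
  obtain ⟨L, h1, h2, h3, h4⟩ := h
  by_cases hall : ∀ l ∈ L, l.IsChain (Adj E)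
  · exact Or.inl ⟨L, h1, fun l hl => ⟨(h2 l hl).1, hall l hl⟩, h3, h4⟩
  · right
    push Not at hall
    obtain ⟨l, hl, hbad⟩ := hall
    obtain ⟨A, B, rfl⟩ := List.append_of_mem hl
    have hfl : (A ++ l :: B).flatten = A.flatten ++ (l ++ B.flatten) := by
      rw [List.flatten_append, List.flatten_cons]
    have h3' := h3
    rw [hfl, List.nodup_append] at h3'
    have h3'' := h3'.2.1
    rw [List.nodup_append] at h3''
    rcases chain_split h3''.1 (h2 l hl).2 with h5 | ⟨a, b, x, y, hsplit, ha, hb, hwxy⟩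
    · exact absurd h5 hbad
    have hwl : w ∈ l := by
      rw [hsplit]
      rcases hwxy with rfl | rfl <;> simp
    have hother : ∀ l' ∈ A ++ B, l' ≠ [] ∧ l'.IsChain (Adj E) := by
      intro l' hl'
      have hmem : l' ∈ A ++ l :: B := by
        rw [List.mem_append] at hl' ⊢
        rcases hl' with h6 | h6
        · exact Or.inl h6
        · exact Or.inr (List.mem_cons_of_mem _ h6)
      refine ⟨(h2 l' hmem).1, chain_avoid (h2 l' hmem).2 ?_⟩
      intro hw'
      rw [List.mem_append] at hl'
      rcases hl' with h6 | h6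
      · exact h3'.2.2 w (List.mem_flatten.mpr ⟨l', h6, hw'⟩) w
          (List.mem_append_left _ hwl) rfl
      · exact h3''.2.2 w hwl w (List.mem_flatten.mpr ⟨l', h6, hw'⟩) rfl
    have hflat : (((a ++ [x]) :: (y :: b) :: (A ++ B)).flatten).Perm ((A ++ l :: B).flatten) := by
      rw [List.flatten_cons, List.flatten_cons, List.flatten_append, hfl, hsplit]
      have e1 : (a ++ [x] ++ (y :: b ++ (A.flatten ++ B.flatten)))
          = ((a ++ x :: y :: b) ++ A.flatten) ++ B.flatten := by simp
      rw [e1, ← List.append_assoc]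
      exact List.Perm.append_right _ List.perm_append_comm
    refine ⟨(a ++ [x]) :: (y :: b) :: (A ++ B), ?_, ?_, ?_, ?_⟩
    · rw [← h1]
      simp only [List.length_cons, List.length_append]
      omega
    · intro l' hl'
      rw [List.mem_cons, List.mem_cons] at hl'
      rcases hl' with rfl | rfl | hl'
      · exact ⟨by simp, ha⟩
      · exact ⟨by simp, hb⟩
      · exact hother l' hl'
    · rw [hflat.nodup_iff]
      exact h3
    · intro z
      rw [hflat.mem_iff]
      exact h4 z

/-- path cover number of an edge set -/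
noncomputable def muE (E : Finset (Sym2 V)) : ℕ := sInf {m | Cov E univ m}

theorem muE_spec (E : Finset (Sym2 V)) : Cov E univ (muE E) := by
  have hne : {m | Cov E (univ : Finset V) m}.Nonempty := by
    refine ⟨0 + (univ : Finset V).card, ?_⟩
    have h0 : Cov E (∅ : Finset V) 0 := ⟨[], rfl, by simp, by simp, by simp⟩
    have := h0.addSet (T := univ) (by simp)
    simpa using this
  exact Nat.sInf_mem hne

theorem muE_le {E : Finset (Sym2 V)} {m : ℕ} (h : Cov E univ m) : muE E ≤ m := Nat.sInf_le h

theorem muE_delete {E : Finset (Sym2 V)} {e : Sym2 V} : muE E ≤ muE (insert e E) + 1 := by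
  induction e using Sym2.ind with
  | _ u w =>
    rcases (muE_spec (insert s(u, w) E)).delete with h | h
    · have := muE_le h; omega
    · exact muE_le h

/-- least number of deletions leaving path cover number `k` -/
noncomputable def fE (G : Finset (Sym2 V)) (k : ℕ) : ℕ :=
  sInf {j | ∃ F, F ⊆ G ∧ F.card = j ∧ muE (G \ F) = k}

/-- least number of edges touching a set of `k - 1` vertices -/
noncomputable def mE (G : Finset (Sym2 V)) (k : ℕ) : ℕ :=
  sInf {j | ∃ S : Finset V, S.card = k - 1 ∧ (tch G S).card = j}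

theorem det_main {G₁ G₂ : Finset (Sym2 V)} {σ Δ κ r₀ b M z₀ c D₀ k : ℕ}
    (hT : Typ G₁ G₂ σ Δ κ r₀ b M z₀ c) (hp : Params (Fintype.card V) σ Δ κ r₀ b M z₀ D₀ k) :
    0 < mE (G₁ ∪ G₂) k ∧ fE (G₁ ∪ G₂) k = mE (G₁ ∪ G₂) k := by
  set G := G₁ ∪ G₂ with hG
  have hk := hp.hk
  have hn2 := hp.hn2
  have hcov : ∀ F, F ⊆ G → F.card < mE G k → muE (G \ F) + 1 ≤ k := by
    intro F hFG hF
    obtain ⟨m, hm, hc⟩ := cover_of_few hT hp hFG (fun S hS =>
      lt_of_lt_of_le hF (Nat.sInf_le ⟨S, hS, rfl⟩))
    have h1 : muE (G \ F) ≤ m := muE_le hc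
    omega
  obtain ⟨S, hS, hSm⟩ : ∃ S : Finset V, S.card = k - 1 ∧ (tch G S).card = mE G k := by
    have hne : {j | ∃ S : Finset V, S.card = k - 1 ∧ (tch G S).card = j}.Nonempty := by
      obtain ⟨S, _, hS⟩ := Finset.exists_subset_card_eq
        (show k - 1 ≤ (univ : Finset V).card by rw [Finset.card_univ]; omega)
      exact ⟨_, S, hS, rfl⟩
    exact Nat.sInf_mem hne
  have hmpos : 0 < mE G k := by
    rw [← hSm, Finset.card_pos]
    obtain ⟨v, hv⟩ : S.Nonempty := by rw [← Finset.card_pos]; omega
    have h2 : 2 ≤ (nb G v).card := hT.two v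
    obtain ⟨w, hw⟩ : (nb G v).Nonempty := by rw [← Finset.card_pos]; omega
    exact ⟨s(v, w), mem_tch.mpr ⟨mem_nb.mp hw, Or.inl hv⟩⟩
  refine ⟨hmpos, ?_⟩
  -- the upper bound
  have hup : ∃ F, F ⊆ G ∧ F.card ≤ mE G k ∧ muE (G \ F) = k := by
    have hbig : k ≤ muE (G \ tch G S) := by
      obtain ⟨x, hx⟩ : ∃ x, x ∉ S := by
        by_contra hcon
        push Not at hcon
        have h1 : Fintype.card V ≤ S.card := by
          rw [← Finset.card_univ]
          exact Finset.card_le_card (fun x _ => hcon x)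
        omega
      have h1 := (muE_spec (G \ tch G S)).lower (T := S) (by
        intro t ht y hy
        rw [Finset.mem_sdiff, mem_tch] at hy
        exact hy.2 ⟨hy.1, Or.inl ht⟩) hx
      omega
    set 𝒮 := (tch G S).powerset.filter (fun F => k ≤ muE (G \ F)) with h𝒮
    have hne : 𝒮.Nonempty := ⟨tch G S, by
      rw [h𝒮, Finset.mem_filter, Finset.mem_powerset]
      exact ⟨Finset.Subset.refl _, hbig⟩⟩
    obtain ⟨F, hF, hmin⟩ := Finset.exists_min_image 𝒮 Finset.card hne
    rw [h𝒮, Finset.mem_filter, Finset.mem_powerset] at hF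
    obtain ⟨hFS, hFk⟩ := hF
    have hFG : F ⊆ G := hFS.trans (tch_subset _ _)
    refine ⟨F, hFG, ?_, ?_⟩
    · rw [← hSm]; exact Finset.card_le_card hFS
    · apply le_antisymm _ hFk
      obtain ⟨e, he⟩ : F.Nonempty := by
        by_contra hcon
        rw [Finset.not_nonempty_iff_eq_empty] at hcon
        have := hcov ∅ (Finset.empty_subset _) (by simpa using hmpos)
        rw [hcon] at hFk
        omega
      have h1 : ¬ k ≤ muE (G \ F.erase e) := by
        intro h
        have h2 := hmin (F.erase e) (by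
          rw [h𝒮, Finset.mem_filter, Finset.mem_powerset]
          exact ⟨(Finset.erase_subset _ _).trans hFS, h⟩)
        rw [Finset.card_erase_of_mem he] at h2
        have := Finset.card_pos.mpr ⟨e, he⟩
        omega
      have h2 : G \ F.erase e = insert e (G \ F) := by
        ext x
        rw [Finset.mem_sdiff, Finset.mem_erase, Finset.mem_insert, Finset.mem_sdiff]
        by_cases hx : x = e
        · subst hx
          have := hFG he
          tauto
        · tauto
      have h3 := muE_delete (E := G \ F) (e := e)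
      rw [← h2] at h3
      omega
  obtain ⟨F₀, h1, h2, h3⟩ := hup
  apply le_antisymm
  · exact le_trans (Nat.sInf_le ⟨F₀, h1, rfl, h3⟩) h2
  · have hne : {j | ∃ F, F ⊆ G ∧ F.card = j ∧ muE (G \ F) = k}.Nonempty := ⟨_, F₀, h1, rfl, h3⟩
    obtain ⟨F, hF1, hF2, hF3⟩ := Nat.sInf_mem hne
    have h4 : F.card = fE G k := hF2
    by_contra hcon
    push Not at hcon
    have h5 := hcov F hF1 (by omega)
    omega

end Pool.Agent.Helper96.PC
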