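import Mathlib
import Pool.Agent.Helper96.PC.Det
import Pool.Agent.Helper96.Prob3

set_option autoImplicit false
set_option linter.unusedSectionVars false
set_option linter.unusedVariables false
open Classical Finset

namespace Pool.Agent.Helper96.PC

section
variable {α : Type*} [DecidableEq α] {U : Finset α} {q q₁ q₂ : ℝ}

/-- two rounds of exposure -/
theorem Ex_two (h : 1 - q = (1 - q₁) * (1 - q₂)) (f : Finset α → ℝ) :
    Ex U q₁ (fun E₁ => Ex U q₂ (fun E₂ => f (E₁ ∪ E₂))) = Ex U q f := by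
  induction U using Finset.induction_on generalizing f with
  | empty => simp [Ex_empty]
  | insert a U ha ih =>
    have e1 : ∀ E₁ : Finset α, Ex (insert a U) q₂ (fun E₂ => f (E₁ ∪ E₂))
        = (1 - q₂) * Ex U q₂ (fun E₂ => f (E₁ ∪ E₂))
          + q₂ * Ex U q₂ (fun E₂ => f (insert a (E₁ ∪ E₂))) := by
      intro E₁
      rw [Ex_insert ha]
      simp only [Finset.union_insert]
    have e2 : ∀ E₁ : Finset α, Ex (insert a U) q₂ (fun E₂ => f (insert a E₁ ∪ E₂))
        = Ex U q₂ (fun E₂ => f (insert a (E₁ ∪ E₂))) := by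
      intro E₁
      rw [Ex_insert ha]
      simp only [Finset.union_insert, Finset.insert_union, Finset.insert_idem]
      ring
    rw [Ex_insert ha, Ex_insert ha]
    simp only [e2]
    simp only [e1]
    rw [Ex_add, Ex_const_mul, Ex_const_mul, ih f, ih (fun E => f (insert a E)), h]
    have : q = 1 - (1 - q₁) * (1 - q₂) := by linarith
    rw [this]
    ring

/-- probability over two independent rounds -/
noncomputable def PP (U : Finset α) (q₁ q₂ : ℝ) (A : Finset α → Finset α → Prop) : ℝ :=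
  Ex U q₁ (fun E₁ => Pr U q₂ (fun E₂ => A E₁ E₂))

theorem PP_union (h : 1 - q = (1 - q₁) * (1 - q₂)) (A : Finset α → Prop) :
    PP U q₁ q₂ (fun E₁ E₂ => A (E₁ ∪ E₂)) = Pr U q A := by
  unfold PP Pr
  exact Ex_two h (fun E => if A E then 1 else 0)

theorem PP_left (A : Finset α → Prop) : PP U q₁ q₂ (fun E₁ _ => A E₁) = Pr U q₁ A := by
  unfold PP
  apply Ex_congr
  intro E _
  by_cases h : A E
  · simp only [h, if_true]
    exact Pr_true
  · simp only [h, if_false]
    exact Pr_false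

theorem PP_mono (h0 : 0 ≤ q₁) (h1 : q₁ ≤ 1) (h0' : 0 ≤ q₂) (h1' : q₂ ≤ 1)
    {A B : Finset α → Finset α → Prop}
    (h : ∀ E₁, E₁ ⊆ U → ∀ E₂, E₂ ⊆ U → A E₁ E₂ → B E₁ E₂) :
    PP U q₁ q₂ A ≤ PP U q₁ q₂ B := by
  apply Ex_mono h0 h1
  intro E₁ hE₁
  apply Pr_mono h0' h1'
  exact h E₁ hE₁

theorem PP_or_le (h0 : 0 ≤ q₁) (h1 : q₁ ≤ 1) (h0' : 0 ≤ q₂) (h1' : q₂ ≤ 1)
    (A B : Finset α → Finset α → Prop) :
    PP U q₁ q₂ (fun E₁ E₂ => A E₁ E₂ ∨ B E₁ E₂) ≤ PP U q₁ q₂ A + PP U q₁ q₂ B := by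
  unfold PP
  rw [← Ex_add]
  apply Ex_mono h0 h1
  intro E₁ _
  exact Pr_or_le h0' h1' _ _

theorem PP_le_of (h0 : 0 ≤ q₁) (h1 : q₁ ≤ 1) {A : Finset α → Finset α → Prop} {b : ℝ}
    (h : ∀ E₁, E₁ ⊆ U → Pr U q₂ (A E₁) ≤ b) : PP U q₁ q₂ A ≤ b := by
  unfold PP
  refine (Ex_mono h0 h1 (g := fun _ => b) h).trans ?_
  rw [Ex_const]

theorem PP_not (A : Finset α → Finset α → Prop) :
    PP U q₁ q₂ (fun E₁ E₂ => ¬ A E₁ E₂) = 1 - PP U q₁ q₂ A := by
  unfold PP
  have h := Ex_sub U q₁ (fun _ => (1:ℝ)) (fun E₁ => Pr U q₂ (fun E₂ => A E₁ E₂))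
  rw [Ex_one] at h
  rw [← h]
  apply Ex_congr
  intro E _
  exact Pr_not _

/-- strong lower tail -/
theorem Pr_card_tiny (h0 : 0 ≤ q) (h1 : q ≤ 1) {T : Finset α} (hT : T ⊆ U) {s : ℝ}
    (hs : s ≤ q * T.card / 50) :
    Pr U q (fun E => ((E ∩ T).card : ℝ) ≤ s) ≤ Real.exp (-(9 / 10 * (q * T.card))) := by
  have h2 : Pr U q (fun E => ((E ∩ T).card : ℝ) ≤ s)
      = Pr T q (fun E => (E.card : ℝ) ≤ s) := by
    rw [Pr_marg hT]
    · apply Pr_congr
      intro E hE
      rw [Finset.inter_eq_left.mpr hE]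
    · intro E _
      simp only [Finset.inter_assoc, Finset.inter_self]
  rw [h2]
  have hc : (0:ℝ) < (1/50:ℝ) ^ (s : ℝ) := by positivity
  have h3 : Pr T q (fun E => (E.card : ℝ) ≤ s)
      = Pr T q (fun E => (1/50:ℝ) ^ (s : ℝ) ≤ (1/50:ℝ) ^ E.card) := by
    apply Pr_congr
    intro E _
    rw [← Real.rpow_natCast]
    rw [Real.rpow_le_rpow_left_iff_of_base_lt_one (by norm_num) (by norm_num)]
  rw [h3]
  refine (Pr_markov h0 h1 _ (fun E _ => by positivity) hc).trans ?_
  rw [Ex_pow_card]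
  have h4 : (1 - q + q * (1/50)) ≤ Real.exp (-(49/50 * q)) := by
    have := Real.add_one_le_exp (-(49/50 * q))
    linarith
  have h5 : 0 ≤ (1 - q + q * (1/50)) := by linarith
  have h6 : (1 - q + q * (1/50)) ^ T.card ≤ Real.exp (-(49/50 * (q * T.card))) := by
    calc (1 - q + q * (1/50)) ^ T.card ≤ (Real.exp (-(49/50 * q))) ^ T.card := by
          apply pow_le_pow_left₀ h5 h4
      _ = Real.exp (-(49/50 * (q * T.card))) := by
          rw [← Real.exp_nat_mul]; congr 1; ring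
  have h7 : (1/50:ℝ) ^ (s : ℝ) = Real.exp (-(Real.log 50 * s)) := by
    rw [Real.rpow_def_of_pos (by norm_num)]
    congr 1
    rw [one_div, Real.log_inv]; ring
  rw [h7, div_le_iff₀ (Real.exp_pos _), ← Real.exp_add]
  refine h6.trans (Real.exp_le_exp.mpr ?_)
  have hl : Real.log 50 ≤ 4 := by
    rw [Real.log_le_iff_le_exp (by norm_num)]
    have h8 : (2.7182818283:ℝ) ≤ Real.exp 1 := Real.exp_one_gt_d9.le
    calc (50:ℝ) ≤ 2.7182818283 ^ 4 := by norm_num
      _ ≤ (Real.exp 1) ^ 4 := pow_le_pow_left₀ (by norm_num) h8 4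
      _ = Real.exp 4 := by rw [← Real.exp_nat_mul]; norm_num
  have hl0 : 0 ≤ Real.log 50 := Real.log_nonneg (by norm_num)
  have hqT : 0 ≤ q * T.card := by positivity
  have h9 : Real.log 50 * s ≤ Real.log 50 * (q * T.card / 50) :=
    mul_le_mul_of_nonneg_left hs hl0
  have h10 : Real.log 50 * (q * T.card / 50) ≤ 4 * (q * T.card / 50) :=
    mul_le_mul_of_nonneg_right hl (by positivity)
  linarith

theorem subset_local {J U : Finset α} : ∀ E, E ⊆ U → (J ⊆ E ↔ J ⊆ E ∩ J) := by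
  intro E _
  constructor
  · intro h; exact Finset.subset_inter h (Finset.Subset.refl _)
  · intro h; exact h.trans Finset.inter_subset_left

/-- prescribed edges and two very small stars -/
theorem Pr_two_small (h0 : 0 ≤ q) (h1 : q ≤ 1) {J T T' : Finset α} (hJ : J ⊆ U) (hT : T ⊆ U)
    (hT' : T' ⊆ U) (hJT : Disjoint J (T ∪ T')) (hTT : Disjoint T T') {s : ℝ}
    (hs : s ≤ q * T.card / 50) (hs' : s ≤ q * T'.card / 50) :
    Pr U q (fun E => J ⊆ E ∧ (((E ∩ T).card : ℝ) ≤ s ∧ ((E ∩ T').card : ℝ) ≤ s))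
      ≤ q ^ J.card * (Real.exp (-(9 / 10 * (q * T.card))) *
        Real.exp (-(9 / 10 * (q * T'.card)))) := by
  have i1 : ∀ E : Finset α, E ∩ (T ∪ T') ∩ T = E ∩ T := by
    intro E
    rw [Finset.inter_assoc, Finset.inter_eq_right.mpr Finset.subset_union_left]
  have i2 : ∀ E : Finset α, E ∩ (T ∪ T') ∩ T' = E ∩ T' := by
    intro E
    rw [Finset.inter_assoc, Finset.inter_eq_right.mpr Finset.subset_union_right]
  rw [Pr_and_indep hJT (Finset.union_subset hJ (Finset.union_subset hT hT'))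
    (fun E => J ⊆ E) (fun E => ((E ∩ T).card : ℝ) ≤ s ∧ ((E ∩ T').card : ℝ) ≤ s)
    subset_local (by intro E _; simp only [i1, i2]),
    Pr_subset (Finset.Subset.refl _)]
  apply mul_le_mul_of_nonneg_left _ (by positivity)
  rw [Pr_and_indep hTT (Finset.Subset.refl _) (fun E => ((E ∩ T).card : ℝ) ≤ s)
    (fun E => ((E ∩ T').card : ℝ) ≤ s)
    (by intro E _; simp only [Finset.inter_assoc, Finset.inter_self])
    (by intro E _; simp only [Finset.inter_assoc, Finset.inter_self])]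
  apply mul_le_mul _ _ (Pr_nonneg h0 h1 _) (Real.exp_pos _).le
  · exact Pr_card_tiny h0 h1 (Finset.Subset.refl _) hs
  · exact Pr_card_tiny h0 h1 (Finset.Subset.refl _) hs'

theorem Pr_one_small (h0 : 0 ≤ q) (h1 : q ≤ 1) {J T : Finset α} (hJ : J ⊆ U) (hT : T ⊆ U)
    (hJT : Disjoint J T) {s : ℝ} (hs : s ≤ q * T.card / 50) :
    Pr U q (fun E => J ⊆ E ∧ ((E ∩ T).card : ℝ) ≤ s)
      ≤ q ^ J.card * Real.exp (-(9 / 10 * (q * T.card))) := by
  rw [Pr_and_indep hJT (Finset.union_subset hJ hT)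
    (fun E => J ⊆ E) (fun E => ((E ∩ T).card : ℝ) ≤ s)
    subset_local (by intro E _; simp only [Finset.inter_assoc, Finset.inter_self]),
    Pr_subset (Finset.Subset.refl _)]
  apply mul_le_mul_of_nonneg_left _ (by positivity)
  exact Pr_card_tiny h0 h1 (Finset.Subset.refl _) hs

/-- at most one element of `T` is present -/
theorem Pr_card_le_one (h0 : 0 ≤ q) (h1 : q ≤ 1) {T : Finset α} (hT : T ⊆ U) :
    Pr U q (fun E => (E ∩ T).card ≤ 1)
      ≤ (1 - q) ^ T.card + T.card * (q * (1 - q) ^ (T.card - 1)) := by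
  have hstep : Pr U q (fun E => (E ∩ T).card ≤ 1) ≤ Pr U q (fun E => Disjoint T E ∨
      ∃ e ∈ T, {e} ⊆ E ∧ Disjoint (T.erase e) E) := by
    apply Pr_mono h0 h1
    intro E _ h
    by_cases h2 : Disjoint T E
    · exact Or.inl h2
    · right
      rw [Finset.not_disjoint_iff] at h2
      obtain ⟨e, he1, he2⟩ := h2
      refine ⟨e, he1, Finset.singleton_subset_iff.mpr he2, ?_⟩
      rw [Finset.disjoint_left]
      intro x hx hxE
      rw [Finset.mem_erase] at hx
      have := Finset.card_le_one.mp h x (Finset.mem_inter.mpr ⟨hxE, hx.2⟩) e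
        (Finset.mem_inter.mpr ⟨he2, he1⟩)
      exact hx.1 this
  refine hstep.trans ((Pr_or_le h0 h1 _ _).trans ?_)
  rw [Pr_disjoint hT]
  apply add_le_add le_rfl
  refine (Pr_exists_le h0 h1 _ _).trans ?_
  have hterm : ∀ e ∈ T, Pr U q (fun E => {e} ⊆ E ∧ Disjoint (T.erase e) E)
      ≤ q * (1 - q) ^ (T.card - 1) := by
    intro e he
    have hd : Disjoint ({e} : Finset α) (T.erase e) := by
      rw [Finset.disjoint_singleton_left]
      exact Finset.notMem_erase _ _
    rw [Pr_and_indep hd (Finset.union_subset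
      (Finset.singleton_subset_iff.mpr (hT he)) ((Finset.erase_subset _ _).trans hT))
      (fun E => {e} ⊆ E) (fun E => Disjoint (T.erase e) E) subset_local
      (by
        intro E _
        rw [Finset.disjoint_left, Finset.disjoint_left]
        constructor
        · intro h x hx hxE; exact h hx (Finset.mem_inter.mp hxE).1
        · intro h x hx hxE; exact h hx (Finset.mem_inter.mpr ⟨hxE, hx⟩)),
      Pr_subset (Finset.Subset.refl _), Pr_disjoint (Finset.Subset.refl _),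
      Finset.card_singleton, pow_one, Finset.card_erase_of_mem he]
  refine (Finset.sum_le_sum hterm).trans ?_
  rw [Finset.sum_const, nsmul_eq_mul]

end

end Pool.Agent.Helper96.PC
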