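import Mathlib
import Pool.Agent.Helper96.PC.Two

set_option autoImplicit false
set_option linter.unusedSectionVars false
set_option linter.unusedVariables false
open Classical Finset

namespace Pool.Agent.Helper96.PC

variable {V : Type*} [Fintype V] [DecidableEq V]

/-- all pairs of distinct vertices -/
noncomputable def allp (V : Type*) [Fintype V] [DecidableEq V] : Finset (Sym2 V) :=
  univ.filter (fun e => ¬ e.IsDiag)

theorem mem_allp {x y : V} : s(x, y) ∈ allp V ↔ x ≠ y := by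
  unfold allp
  rw [Finset.mem_filter]
  simp

/-- star at `v` over `S` -/
noncomputable def st (v : V) (S : Finset V) : Finset (Sym2 V) := S.image (fun w => s(v, w))

theorem mem_st {v x y : V} {S : Finset V} :
    s(x, y) ∈ st v S ↔ (x = v ∧ y ∈ S) ∨ (y = v ∧ x ∈ S) := by
  unfold st
  rw [Finset.mem_image]
  constructor
  · rintro ⟨w, hw, h⟩
    rw [Sym2.eq_iff] at h
    rcases h with ⟨h1, h2⟩ | ⟨h1, h2⟩
    · exact Or.inl ⟨h1.symm, h2 ▸ hw⟩
    · exact Or.inr ⟨h1.symm, h2 ▸ hw⟩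
  · rintro (⟨rfl, h⟩ | ⟨rfl, h⟩)
    · exact ⟨y, h, rfl⟩
    · exact ⟨x, h, Sym2.eq_swap⟩

theorem sym2_right_inj {v a b : V} (h : s(v, a) = s(v, b)) : a = b := by
  rw [Sym2.eq_iff] at h
  rcases h with ⟨_, h⟩ | ⟨h1, h2⟩
  · exact h
  · rw [h2, h1]

theorem card_st (v : V) (S : Finset V) : (st v S).card = S.card := by
  unfold st
  exact Finset.card_image_of_injective _ (fun a b h => sym2_right_inj h)

theorem st_subset {v : V} {S : Finset V} (h : v ∉ S) : st v S ⊆ allp V := by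
  intro e
  induction e using Sym2.ind with
  | _ x y =>
    rw [mem_st, mem_allp]
    rintro (⟨rfl, h1⟩ | ⟨rfl, h1⟩) rfl
    · exact h h1
    · exact h h1

theorem card_inter_st_le (E : Finset (Sym2 V)) (v : V) (S : Finset V) :
    (E ∩ st v S).card ≤ deg E v := by
  rw [← card_tch_singleton]
  apply Finset.card_le_card
  intro e
  induction e using Sym2.ind with
  | _ x y =>
    rw [Finset.mem_inter, mem_st, mem_tch, Finset.mem_singleton, Finset.mem_singleton]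
    tauto

theorem deg_eq_inter {E : Finset (Sym2 V)} (hE : E ⊆ allp V) (v : V) :
    deg E v = (E ∩ st v (univ.erase v)).card := by
  apply le_antisymm _ (card_inter_st_le E v _)
  rw [← card_tch_singleton]
  apply Finset.card_le_card
  intro e
  induction e using Sym2.ind with
  | _ x y =>
    rw [Finset.mem_inter, mem_st, mem_tch, Finset.mem_singleton, Finset.mem_singleton,
      Finset.mem_erase, Finset.mem_erase]
    rintro ⟨h1, h2⟩
    have h3 := mem_allp.mp (hE h1)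
    refine ⟨h1, ?_⟩
    rcases h2 with rfl | rfl
    · exact Or.inl ⟨rfl, h3.symm, Finset.mem_univ _⟩
    · exact Or.inr ⟨rfl, h3, Finset.mem_univ _⟩

/-- two small vertices and prescribed edges -/
theorem tiny2 {p d : ℝ} (h0 : 0 ≤ p) (h1 : p ≤ 1) (hd : d = Fintype.card V * p)
    (hn : 10 ≤ Fintype.card V) {Q : Finset V} (hQ : Q.card ≤ 5) {s s' : V} (hs : s ∈ Q)
    (hs' : s' ∈ Q) (hne : s ≠ s') {J : Finset (Sym2 V)} (hJU : J ⊆ allp V)
    (hJQ : ∀ x y, s(x, y) ∈ J → x ∈ Q ∧ y ∈ Q) :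
    Pr (allp V) p (fun E => J ⊆ E ∧ (deg E s < ⌈d / 100⌉₊ ∧ deg E s' < ⌈d / 100⌉₊))
      ≤ p ^ J.card * Real.exp (9 - 9 / 5 * d) := by
  set T := st s (univ \ Q) with hT
  set T' := st s' (univ \ Q) with hT'
  have hsn : s ∉ univ \ Q := by rw [Finset.mem_sdiff]; tauto
  have hsn' : s' ∉ univ \ Q := by rw [Finset.mem_sdiff]; tauto
  have hstep : Pr (allp V) p (fun E => J ⊆ E ∧ (deg E s < ⌈d / 100⌉₊ ∧ deg E s' < ⌈d / 100⌉₊))
      ≤ Pr (allp V) p (fun E => J ⊆ E ∧ (((E ∩ T).card : ℝ) ≤ d / 100 ∧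
        ((E ∩ T').card : ℝ) ≤ d / 100)) := by
    apply Pr_mono h0 h1
    intro E _ ⟨h2, h3, h4⟩
    rw [Nat.lt_ceil] at h3 h4
    have h5 : ((E ∩ T).card : ℝ) ≤ deg E s := by exact_mod_cast card_inter_st_le E s _
    have h6 : ((E ∩ T').card : ℝ) ≤ deg E s' := by exact_mod_cast card_inter_st_le E s' _
    exact ⟨h2, by linarith, by linarith⟩
  have hcard : ((univ \ Q : Finset V).card : ℝ) = Fintype.card V - Q.card := by
    rw [Finset.card_sdiff_of_subset (Finset.subset_univ _), Finset.card_univ,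
      Nat.cast_sub (Finset.card_le_univ Q)]
  have hQR : (Q.card : ℝ) ≤ 5 := by exact_mod_cast hQ
  have hnR : (10:ℝ) ≤ Fintype.card V := by exact_mod_cast hn
  have hTc : (T.card : ℝ) = Fintype.card V - Q.card := by rw [hT, card_st, hcard]
  have hTc' : (T'.card : ℝ) = Fintype.card V - Q.card := by rw [hT', card_st, hcard]
  refine hstep.trans ((Pr_two_small h0 h1 hJU (st_subset hsn) (st_subset hsn') ?_ ?_ ?_ ?_).trans ?_)
  · rw [Finset.disjoint_left]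
    intro e
    induction e using Sym2.ind with
    | _ x y =>
      intro he he'
      have h2 := hJQ x y he
      rw [Finset.mem_union, mem_st, mem_st, Finset.mem_sdiff, Finset.mem_sdiff] at he'
      tauto
  · rw [Finset.disjoint_left]
    intro e
    induction e using Sym2.ind with
    | _ x y =>
      intro he he'
      rw [mem_st, Finset.mem_sdiff, Finset.mem_sdiff] at he
      rw [mem_st, Finset.mem_sdiff, Finset.mem_sdiff] at he'
      rcases he with ⟨rfl, h2, h3⟩ | ⟨rfl, h2, h3⟩ <;> rcases he' with ⟨rfl, h4, h5⟩ | ⟨rfl, h4, h5⟩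
      · exact hne rfl
      · exact h3 hs'
      · exact h3 hs'
      · exact hne rfl
  · rw [hTc, hd]
    nlinarith
  · rw [hTc', hd]
    nlinarith
  · apply mul_le_mul_of_nonneg_left _ (by positivity)
    rw [← Real.exp_add]
    apply Real.exp_le_exp.mpr
    rw [hTc, hTc', hd]
    nlinarith

theorem tiny1 {p d : ℝ} (h0 : 0 ≤ p) (h1 : p ≤ 1) (hd : d = Fintype.card V * p)
    (hn : 10 ≤ Fintype.card V) {Q : Finset V} (hQ : Q.card ≤ 5) {s : V} (hs : s ∈ Q)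
    {J : Finset (Sym2 V)} (hJU : J ⊆ allp V)
    (hJQ : ∀ x y, s(x, y) ∈ J → x ∈ Q ∧ y ∈ Q) :
    Pr (allp V) p (fun E => J ⊆ E ∧ deg E s < ⌈d / 100⌉₊)
      ≤ p ^ J.card * Real.exp (9 - 9 / 10 * d) := by
  set T := st s (univ \ Q) with hT
  have hsn : s ∉ univ \ Q := by rw [Finset.mem_sdiff]; tauto
  have hstep : Pr (allp V) p (fun E => J ⊆ E ∧ deg E s < ⌈d / 100⌉₊)
      ≤ Pr (allp V) p (fun E => J ⊆ E ∧ ((E ∩ T).card : ℝ) ≤ d / 100) := by
    apply Pr_mono h0 h1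
    intro E _ ⟨h2, h3⟩
    rw [Nat.lt_ceil] at h3
    have h5 : ((E ∩ T).card : ℝ) ≤ deg E s := by exact_mod_cast card_inter_st_le E s _
    exact ⟨h2, by linarith⟩
  have hcard : ((univ \ Q : Finset V).card : ℝ) = Fintype.card V - Q.card := by
    rw [Finset.card_sdiff_of_subset (Finset.subset_univ _), Finset.card_univ,
      Nat.cast_sub (Finset.card_le_univ Q)]
  have hQR : (Q.card : ℝ) ≤ 5 := by exact_mod_cast hQ
  have hnR : (10:ℝ) ≤ Fintype.card V := by exact_mod_cast hn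
  have hTc : (T.card : ℝ) = Fintype.card V - Q.card := by rw [hT, card_st, hcard]
  refine hstep.trans ((Pr_one_small h0 h1 hJU (st_subset hsn) ?_ ?_).trans ?_)
  · rw [Finset.disjoint_left]
    intro e
    induction e using Sym2.ind with
    | _ x y =>
      intro he he'
      have h2 := hJQ x y he
      rw [mem_st, Finset.mem_sdiff, Finset.mem_sdiff] at he'
      tauto
  · rw [hTc, hd]
    nlinarith
  · apply mul_le_mul_of_nonneg_left _ (by positivity)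
    apply Real.exp_le_exp.mpr
    rw [hTc, hd]
    nlinarith

/-- adjacent small vertices -/
theorem Pr_sm1 {p d : ℝ} (h0 : 0 ≤ p) (h1 : p ≤ 1) (hd : d = Fintype.card V * p)
    (hn : 10 ≤ Fintype.card V) :
    Pr (allp V) p (fun E => ∃ s s' : V, deg E s < ⌈d / 100⌉₊ ∧ deg E s' < ⌈d / 100⌉₊ ∧
      s(s, s') ∈ E) ≤ Fintype.card V * d * Real.exp (9 - 9 / 5 * d) := by
  have hstep : Pr (allp V) p (fun E => ∃ s s' : V, deg E s < ⌈d / 100⌉₊ ∧
      deg E s' < ⌈d / 100⌉₊ ∧ s(s, s') ∈ E)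
      ≤ Pr (allp V) p (fun E => ∃ t ∈ (univ : Finset (V × V)), t.1 ≠ t.2 ∧
        ({s(t.1, t.2)} ⊆ E ∧ (deg E t.1 < ⌈d / 100⌉₊ ∧ deg E t.2 < ⌈d / 100⌉₊))) := by
    apply Pr_mono h0 h1
    rintro E hE ⟨s, s', h2, h3, h4⟩
    exact ⟨(s, s'), Finset.mem_univ _, mem_allp.mp (hE h4), Finset.singleton_subset_iff.mpr h4,
      h2, h3⟩
  refine hstep.trans ((Pr_exists_le h0 h1 _ _).trans ?_)
  have hterm : ∀ t ∈ (univ : Finset (V × V)), Pr (allp V) p (fun E => t.1 ≠ t.2 ∧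
        ({s(t.1, t.2)} ⊆ E ∧ (deg E t.1 < ⌈d / 100⌉₊ ∧ deg E t.2 < ⌈d / 100⌉₊)))
      ≤ p * Real.exp (9 - 9 / 5 * d) := by
    rintro ⟨s, s'⟩ _
    by_cases hne : s = s'
    · subst hne
      simp only [ne_eq, not_true_eq_false, false_and]
      rw [Pr_false]
      positivity
    · refine le_trans (Pr_mono h0 h1 (fun E _ h => h.2)) ?_
      have h2 := tiny2 h0 h1 hd hn (Q := {s, s'}) (by
        exact Finset.card_le_two.trans (by norm_num)) (s := s) (s' := s') (by simp) (by simp) hne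
        (J := {s(s, s')}) (by
          rw [Finset.singleton_subset_iff]; exact mem_allp.mpr hne)
        (by
          intro x y h
          rw [Finset.mem_singleton, Sym2.eq_iff] at h
          simp only [Finset.mem_insert, Finset.mem_singleton]
          tauto)
      rwa [Finset.card_singleton, pow_one] at h2
  refine (Finset.sum_le_sum hterm).trans ?_
  rw [Finset.sum_const, nsmul_eq_mul, Finset.card_univ, Fintype.card_prod, hd]
  push_cast
  apply le_of_eq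
  ring

/-- two small vertices with a common neighbour -/
theorem Pr_sm2 {p d : ℝ} (h0 : 0 ≤ p) (h1 : p ≤ 1) (hd : d = Fintype.card V * p)
    (hn : 10 ≤ Fintype.card V) :
    Pr (allp V) p (fun E => ∃ s s' y : V, s ≠ s' ∧ deg E s < ⌈d / 100⌉₊ ∧
      deg E s' < ⌈d / 100⌉₊ ∧ s(s, y) ∈ E ∧ s(s', y) ∈ E)
      ≤ Fintype.card V * d ^ 2 * Real.exp (9 - 9 / 5 * d) := by
  have hstep : Pr (allp V) p (fun E => ∃ s s' y : V, s ≠ s' ∧ deg E s < ⌈d / 100⌉₊ ∧
      deg E s' < ⌈d / 100⌉₊ ∧ s(s, y) ∈ E ∧ s(s', y) ∈ E)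
      ≤ Pr (allp V) p (fun E => ∃ t ∈ (univ : Finset (V × V × V)),
        (t.1 ≠ t.2.1 ∧ t.1 ≠ t.2.2 ∧ t.2.1 ≠ t.2.2) ∧
        ({s(t.1, t.2.2), s(t.2.1, t.2.2)} ⊆ E ∧
          (deg E t.1 < ⌈d / 100⌉₊ ∧ deg E t.2.1 < ⌈d / 100⌉₊))) := by
    apply Pr_mono h0 h1
    rintro E hE ⟨s, s', y, h2, h3, h4, h5, h6⟩
    refine ⟨(s, s', y), Finset.mem_univ _, ⟨h2, mem_allp.mp (hE h5), mem_allp.mp (hE h6)⟩, ?_,
      h3, h4⟩
    intro e he
    rw [Finset.mem_insert, Finset.mem_singleton] at he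
    rcases he with rfl | rfl
    · exact h5
    · exact h6
  refine hstep.trans ((Pr_exists_le h0 h1 _ _).trans ?_)
  have hterm : ∀ t ∈ (univ : Finset (V × V × V)), Pr (allp V) p (fun E =>
        (t.1 ≠ t.2.1 ∧ t.1 ≠ t.2.2 ∧ t.2.1 ≠ t.2.2) ∧
        ({s(t.1, t.2.2), s(t.2.1, t.2.2)} ⊆ E ∧
          (deg E t.1 < ⌈d / 100⌉₊ ∧ deg E t.2.1 < ⌈d / 100⌉₊)))
      ≤ p ^ 2 * Real.exp (9 - 9 / 5 * d) := by
    rintro ⟨s, s', y⟩ _
    by_cases hne : s ≠ s' ∧ s ≠ y ∧ s' ≠ y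
    · obtain ⟨g1, g2, g3⟩ := hne
      refine le_trans (Pr_mono h0 h1 (fun E _ h => h.2)) ?_
      have hJc : ({s(s, y), s(s', y)} : Finset (Sym2 V)).card = 2 := by
        apply Finset.card_pair
        intro h
        rw [Sym2.eq_iff] at h
        tauto
      have h2 := tiny2 h0 h1 hd hn (Q := {s, s', y}) (by
        exact Finset.card_le_three.trans (by norm_num)) (s := s) (s' := s') (by simp) (by simp) g1
        (J := {s(s, y), s(s', y)}) (by
          intro e he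
          rw [Finset.mem_insert, Finset.mem_singleton] at he
          rcases he with rfl | rfl
          · exact mem_allp.mpr g2
          · exact mem_allp.mpr g3)
        (by
          intro a b h
          rw [Finset.mem_insert, Finset.mem_singleton, Sym2.eq_iff, Sym2.eq_iff] at h
          simp only [Finset.mem_insert, Finset.mem_singleton]
          tauto)
      rwa [hJc] at h2
    · have : ∀ E : Finset (Sym2 V), ((s ≠ s' ∧ s ≠ y ∧ s' ≠ y) ∧
        ({s(s, y), s(s', y)} ⊆ E ∧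
          (deg E s < ⌈d / 100⌉₊ ∧ deg E s' < ⌈d / 100⌉₊))) ↔ False := by
        intro E; tauto
      simp only [this]
      rw [Pr_false]
      positivity
  refine (Finset.sum_le_sum hterm).trans ?_
  rw [Finset.sum_const, nsmul_eq_mul, Finset.card_univ, Fintype.card_prod, Fintype.card_prod, hd]
  push_cast
  apply le_of_eq
  ring

theorem card_four {α : Type*} [DecidableEq α] {a b c e : α} (h1 : a ≠ b) (h2 : a ≠ c)
    (h3 : a ≠ e) (h4 : b ≠ c) (h5 : b ≠ e) (h6 : c ≠ e) : ({a, b, c, e} : Finset α).card = 4 := by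
  rw [Finset.card_insert_of_notMem, Finset.card_insert_of_notMem, Finset.card_pair h6]
  · simp only [Finset.mem_insert, Finset.mem_singleton]; tauto
  · simp only [Finset.mem_insert, Finset.mem_singleton]; tauto

/-- a small vertex on a four-cycle -/
theorem Pr_cyc4 {p d : ℝ} (h0 : 0 ≤ p) (h1 : p ≤ 1) (hd : d = Fintype.card V * p)
    (hn : 10 ≤ Fintype.card V) :
    Pr (allp V) p (fun E => ∃ s y w y' : V, s ≠ w ∧ y ≠ y' ∧ deg E s < ⌈d / 100⌉₊ ∧
      s(s, y) ∈ E ∧ s(y, w) ∈ E ∧ s(w, y') ∈ E ∧ s(y', s) ∈ E)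
      ≤ d ^ 4 * Real.exp (9 - 9 / 10 * d) := by
  have hstep : Pr (allp V) p (fun E => ∃ s y w y' : V, s ≠ w ∧ y ≠ y' ∧ deg E s < ⌈d / 100⌉₊ ∧
      s(s, y) ∈ E ∧ s(y, w) ∈ E ∧ s(w, y') ∈ E ∧ s(y', s) ∈ E)
      ≤ Pr (allp V) p (fun E => ∃ t ∈ (univ : Finset (V × V × V × V)),
        (t.1 ≠ t.2.1 ∧ t.1 ≠ t.2.2.1 ∧ t.1 ≠ t.2.2.2 ∧ t.2.1 ≠ t.2.2.1 ∧ t.2.1 ≠ t.2.2.2 ∧
          t.2.2.1 ≠ t.2.2.2) ∧
        ({s(t.1, t.2.1), s(t.2.1, t.2.2.1), s(t.2.2.1, t.2.2.2), s(t.2.2.2, t.1)} ⊆ E ∧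
          deg E t.1 < ⌈d / 100⌉₊)) := by
    apply Pr_mono h0 h1
    rintro E hE ⟨s, y, w, y', h2, h3, h4, h5, h6, h7, h8⟩
    refine ⟨(s, y, w, y'), Finset.mem_univ _, ⟨mem_allp.mp (hE h5), h2,
      (mem_allp.mp (hE h8)).symm, mem_allp.mp (hE h6), h3, mem_allp.mp (hE h7)⟩, ?_, h4⟩
    intro e he
    simp only [Finset.mem_insert, Finset.mem_singleton] at he
    rcases he with rfl | rfl | rfl | rfl
    · exact h5
    · exact h6
    · exact h7
    · exact h8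
  refine hstep.trans ((Pr_exists_le h0 h1 _ _).trans ?_)
  have hterm : ∀ t ∈ (univ : Finset (V × V × V × V)), Pr (allp V) p (fun E =>
        (t.1 ≠ t.2.1 ∧ t.1 ≠ t.2.2.1 ∧ t.1 ≠ t.2.2.2 ∧ t.2.1 ≠ t.2.2.1 ∧ t.2.1 ≠ t.2.2.2 ∧
          t.2.2.1 ≠ t.2.2.2) ∧
        ({s(t.1, t.2.1), s(t.2.1, t.2.2.1), s(t.2.2.1, t.2.2.2), s(t.2.2.2, t.1)} ⊆ E ∧
          deg E t.1 < ⌈d / 100⌉₊))
      ≤ p ^ 4 * Real.exp (9 - 9 / 10 * d) := by
    rintro ⟨s, y, w, y'⟩ _
    by_cases hne : (s ≠ y ∧ s ≠ w ∧ s ≠ y' ∧ y ≠ w ∧ y ≠ y' ∧ w ≠ y')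
    · obtain ⟨g1, g2, g3, g4, g5, g6⟩ := hne
      refine le_trans (Pr_mono h0 h1 (fun E _ h => h.2)) ?_
      have hJc : ({s(s, y), s(y, w), s(w, y'), s(y', s)} : Finset (Sym2 V)).card = 4 := by
        apply card_four <;> intro h <;> rw [Sym2.eq_iff] at h <;> tauto
      have h2 := tiny1 h0 h1 hd hn (Q := {s, y, w, y'}) (by
        exact Finset.card_le_four.trans (by norm_num)) (s := s) (by simp)
        (J := {s(s, y), s(y, w), s(w, y'), s(y', s)}) (by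
          intro e he
          simp only [Finset.mem_insert, Finset.mem_singleton] at he
          rcases he with rfl | rfl | rfl | rfl
          · exact mem_allp.mpr g1
          · exact mem_allp.mpr g4
          · exact mem_allp.mpr g6
          · exact mem_allp.mpr g3.symm)
        (by
          intro a b h
          simp only [Finset.mem_insert, Finset.mem_singleton, Sym2.eq_iff] at h
          simp only [Finset.mem_insert, Finset.mem_singleton]
          tauto)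
      rwa [hJc] at h2
    · have : ∀ E : Finset (Sym2 V), ((s ≠ y ∧ s ≠ w ∧ s ≠ y' ∧ y ≠ w ∧ y ≠ y' ∧ w ≠ y') ∧
        ({s(s, y), s(y, w), s(w, y'), s(y', s)} ⊆ E ∧ deg E s < ⌈d / 100⌉₊)) ↔ False := by
        intro E; tauto
      simp only [this]
      rw [Pr_false]
      positivity
  refine (Finset.sum_le_sum hterm).trans ?_
  rw [Finset.sum_const, nsmul_eq_mul, Finset.card_univ, Fintype.card_prod, Fintype.card_prod,
    Fintype.card_prod, hd]
  push_cast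
  apply le_of_eq
  ring

/-- two small vertices at distance four -/
theorem Pr_path4 {p d : ℝ} (h0 : 0 ≤ p) (h1 : p ≤ 1) (hd : d = Fintype.card V * p)
    (hn : 10 ≤ Fintype.card V) :
    Pr (allp V) p (fun E => ∃ s y w y' s' : V, s ≠ s' ∧ s ≠ w ∧ w ≠ s' ∧ y ≠ y' ∧ y ≠ s' ∧
      y' ≠ s ∧ deg E s < ⌈d / 100⌉₊ ∧ deg E s' < ⌈d / 100⌉₊ ∧
      s(s, y) ∈ E ∧ s(y, w) ∈ E ∧ s(w, y') ∈ E ∧ s(y', s') ∈ E)
      ≤ Fintype.card V * d ^ 4 * Real.exp (9 - 9 / 5 * d) := by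
  have hstep : Pr (allp V) p (fun E => ∃ s y w y' s' : V, s ≠ s' ∧ s ≠ w ∧ w ≠ s' ∧ y ≠ y' ∧
      y ≠ s' ∧ y' ≠ s ∧ deg E s < ⌈d / 100⌉₊ ∧ deg E s' < ⌈d / 100⌉₊ ∧
      s(s, y) ∈ E ∧ s(y, w) ∈ E ∧ s(w, y') ∈ E ∧ s(y', s') ∈ E)
      ≤ Pr (allp V) p (fun E => ∃ t ∈ (univ : Finset (V × V × V × V × V)),
        (t.1 ≠ t.2.2.2.2 ∧ t.1 ≠ t.2.2.1 ∧ t.2.2.1 ≠ t.2.2.2.2 ∧ t.2.1 ≠ t.2.2.2.1 ∧
          t.2.1 ≠ t.2.2.2.2 ∧ t.2.2.2.1 ≠ t.1 ∧ t.1 ≠ t.2.1 ∧ t.2.1 ≠ t.2.2.1 ∧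
          t.2.2.1 ≠ t.2.2.2.1 ∧ t.2.2.2.1 ≠ t.2.2.2.2) ∧
        ({s(t.1, t.2.1), s(t.2.1, t.2.2.1), s(t.2.2.1, t.2.2.2.1),
          s(t.2.2.2.1, t.2.2.2.2)} ⊆ E ∧
          (deg E t.1 < ⌈d / 100⌉₊ ∧ deg E t.2.2.2.2 < ⌈d / 100⌉₊))) := by
    apply Pr_mono h0 h1
    rintro E hE ⟨s, y, w, y', s', a1, a2, a3, a4, a5, a6, h3, h4, h5, h6, h7, h8⟩
    refine ⟨(s, y, w, y', s'), Finset.mem_univ _, ⟨a1, a2, a3, a4, a5, a6, mem_allp.mp (hE h5),
      mem_allp.mp (hE h6), mem_allp.mp (hE h7), mem_allp.mp (hE h8)⟩, ?_, h3, h4⟩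
    intro e he
    simp only [Finset.mem_insert, Finset.mem_singleton] at he
    rcases he with rfl | rfl | rfl | rfl
    · exact h5
    · exact h6
    · exact h7
    · exact h8
  refine hstep.trans ((Pr_exists_le h0 h1 _ _).trans ?_)
  have hterm : ∀ t ∈ (univ : Finset (V × V × V × V × V)), Pr (allp V) p (fun E =>
        (t.1 ≠ t.2.2.2.2 ∧ t.1 ≠ t.2.2.1 ∧ t.2.2.1 ≠ t.2.2.2.2 ∧ t.2.1 ≠ t.2.2.2.1 ∧
          t.2.1 ≠ t.2.2.2.2 ∧ t.2.2.2.1 ≠ t.1 ∧ t.1 ≠ t.2.1 ∧ t.2.1 ≠ t.2.2.1 ∧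
          t.2.2.1 ≠ t.2.2.2.1 ∧ t.2.2.2.1 ≠ t.2.2.2.2) ∧
        ({s(t.1, t.2.1), s(t.2.1, t.2.2.1), s(t.2.2.1, t.2.2.2.1),
          s(t.2.2.2.1, t.2.2.2.2)} ⊆ E ∧
          (deg E t.1 < ⌈d / 100⌉₊ ∧ deg E t.2.2.2.2 < ⌈d / 100⌉₊)))
      ≤ p ^ 4 * Real.exp (9 - 9 / 5 * d) := by
    rintro ⟨s, y, w, y', s'⟩ _
    by_cases hne : (s ≠ s' ∧ s ≠ w ∧ w ≠ s' ∧ y ≠ y' ∧ y ≠ s' ∧ y' ≠ s ∧ s ≠ y ∧ y ≠ w ∧
        w ≠ y' ∧ y' ≠ s')
    · obtain ⟨g1, g2, g3, g4, g5, g6, g7, g8, g9, g10⟩ := hne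
      refine le_trans (Pr_mono h0 h1 (fun E _ h => h.2)) ?_
      have hJc : ({s(s, y), s(y, w), s(w, y'), s(y', s')} : Finset (Sym2 V)).card = 4 := by
        apply card_four <;> intro h <;> rw [Sym2.eq_iff] at h <;> tauto
      have h2 := tiny2 h0 h1 hd hn (Q := {s, y, w, y', s'}) Finset.card_le_five
        (s := s) (s' := s') (by simp) (by simp) g1
        (J := {s(s, y), s(y, w), s(w, y'), s(y', s')}) (by
          intro e he
          simp only [Finset.mem_insert, Finset.mem_singleton] at he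
          rcases he with rfl | rfl | rfl | rfl
          · exact mem_allp.mpr g7
          · exact mem_allp.mpr g8
          · exact mem_allp.mpr g9
          · exact mem_allp.mpr g10)
        (by
          intro a b h
          simp only [Finset.mem_insert, Finset.mem_singleton, Sym2.eq_iff] at h
          simp only [Finset.mem_insert, Finset.mem_singleton]
          tauto)
      rwa [hJc] at h2
    · have : ∀ E : Finset (Sym2 V), ((s ≠ s' ∧ s ≠ w ∧ w ≠ s' ∧ y ≠ y' ∧ y ≠ s' ∧ y' ≠ s ∧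
        s ≠ y ∧ y ≠ w ∧ w ≠ y' ∧ y' ≠ s') ∧
        ({s(s, y), s(y, w), s(w, y'), s(y', s')} ⊆ E ∧
          (deg E s < ⌈d / 100⌉₊ ∧ deg E s' < ⌈d / 100⌉₊))) ↔ False := by
        intro E; tauto
      simp only [this]
      rw [Pr_false]
      positivity
  refine (Finset.sum_le_sum hterm).trans ?_
  rw [Finset.sum_const, nsmul_eq_mul, Finset.card_univ, Fintype.card_prod, Fintype.card_prod,
    Fintype.card_prod, Fintype.card_prod, hd]
  push_cast
  apply le_of_eq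
  ring

end Pool.Agent.Helper96.PC
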