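import Mathlib
import Pool.Agent.Helper96.PC.Loc
import Pool.Agent.Helper96.Clus2
import Pool.Agent.Helper96.Rooted

set_option autoImplicit false
set_option linter.unusedSectionVars false
set_option linter.unusedVariables false
open Classical Finset

namespace Pool.Agent.Helper96.PC

variable {V : Type*} [Fintype V] [DecidableEq V]

theorem card_erase_univ (v : V) : ((univ : Finset V).erase v).card = Fintype.card V - 1 := by
  rw [Finset.card_erase_of_mem (Finset.mem_univ _), Finset.card_univ]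

theorem card_pos_of (v : V) : 1 ≤ Fintype.card V := Fintype.card_pos_iff.mpr ⟨v⟩

/-- a vertex of degree at most one -/
theorem Pr_deg_one {p d : ℝ} (h0 : 0 ≤ p) (h1 : p ≤ 1) (hd : d = Fintype.card V * p)
    (hn : 2 ≤ Fintype.card V) :
    Pr (allp V) p (fun E => ∃ v : V, deg E v ≤ 1)
      ≤ Fintype.card V * ((1 + d) * Real.exp (2 - d)) := by
  have hd0 : 0 ≤ d := by rw [hd]; positivity
  have hstep : Pr (allp V) p (fun E => ∃ v : V, deg E v ≤ 1)
      ≤ Pr (allp V) p (fun E => ∃ v ∈ (univ : Finset V), (E ∩ st v (univ.erase v)).card ≤ 1) := by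
    apply Pr_mono h0 h1
    rintro E hE ⟨v, hv⟩
    exact ⟨v, Finset.mem_univ _, by rw [← deg_eq_inter hE]; exact hv⟩
  refine hstep.trans ((Pr_exists_le h0 h1 _ _).trans ?_)
  have hterm : ∀ v ∈ (univ : Finset V),
      Pr (allp V) p (fun E => (E ∩ st v (univ.erase v)).card ≤ 1)
      ≤ (1 + d) * Real.exp (2 - d) := by
    intro v _
    refine (Pr_card_le_one h0 h1 (st_subset (Finset.notMem_erase _ _))).trans ?_
    rw [card_st, card_erase_univ]
    have hnR : (2:ℝ) ≤ Fintype.card V := by exact_mod_cast hn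
    have e1 : (1 - p) ^ (Fintype.card V - 1) ≤ Real.exp (2 - d) := by
      refine (one_sub_pow_le_exp h1 _).trans (Real.exp_le_exp.mpr ?_)
      rw [Nat.cast_sub (by omega), hd]
      push_cast
      nlinarith
    have e2 : (1 - p) ^ (Fintype.card V - 1 - 1) ≤ Real.exp (2 - d) := by
      refine (one_sub_pow_le_exp h1 _).trans (Real.exp_le_exp.mpr ?_)
      rw [Nat.cast_sub (by omega), Nat.cast_sub (by omega), hd]
      push_cast
      nlinarith
    have e3 : ((Fintype.card V - 1 : ℕ) : ℝ) * (p * (1 - p) ^ (Fintype.card V - 1 - 1))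
        ≤ d * Real.exp (2 - d) := by
      rw [← mul_assoc]
      apply mul_le_mul _ e2 (pow_nonneg (by linarith) _) hd0
      rw [Nat.cast_sub (by omega), hd]
      push_cast
      nlinarith
    linarith
  refine (Finset.sum_le_sum hterm).trans ?_
  rw [Finset.sum_const, nsmul_eq_mul, Finset.card_univ]

/-- large degrees -/
theorem Pr_max {p d : ℝ} (h0 : 0 ≤ p) (h1 : p ≤ 1) (hd : d = Fintype.card V * p) :
    Pr (allp V) p (fun E => ∃ v : V, ⌈6 * d⌉₊ < deg E v)
      ≤ Fintype.card V * (1 / 2 : ℝ) ^ (⌈6 * d⌉₊ + 1) := by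
  have hd0 : 0 ≤ d := by rw [hd]; positivity
  have hstep : Pr (allp V) p (fun E => ∃ v : V, ⌈6 * d⌉₊ < deg E v)
      ≤ Pr (allp V) p (fun E => ∃ v ∈ (univ : Finset V),
        ⌈6 * d⌉₊ + 1 ≤ (E ∩ st v (univ.erase v)).card) := by
    apply Pr_mono h0 h1
    rintro E hE ⟨v, hv⟩
    exact ⟨v, Finset.mem_univ _, by rw [← deg_eq_inter hE]; exact hv⟩
  refine hstep.trans ((Pr_exists_le h0 h1 _ _).trans ?_)
  have hterm : ∀ v ∈ (univ : Finset V),
      Pr (allp V) p (fun E => ⌈6 * d⌉₊ + 1 ≤ (E ∩ st v (univ.erase v)).card)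
      ≤ (1 / 2 : ℝ) ^ (⌈6 * d⌉₊ + 1) := by
    intro v _
    refine (Pr_card_ge' h0 h1 (st_subset (Finset.notMem_erase _ _)) _ (by omega)).trans ?_
    rw [card_st, card_erase_univ]
    have hn1 := card_pos_of v
    have hce : 6 * d ≤ ⌈6 * d⌉₊ := Nat.le_ceil _
    have he : Real.exp 1 ≤ 3 := Real.exp_one_lt_d9.le.trans (by norm_num)
    apply pow_le_pow_left₀
    · positivity
    · rw [div_le_iff₀ (by positivity)]
      rw [Nat.cast_sub hn1]
      push_cast
      have h3 : ((Fintype.card V : ℝ) - 1) * p ≤ d := by rw [hd]; nlinarith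
      have h4 : Real.exp 1 * (((Fintype.card V : ℝ) - 1) * p) ≤ 3 * d := by
        have h5 : Real.exp 1 * (((Fintype.card V : ℝ) - 1) * p) ≤ Real.exp 1 * d :=
          mul_le_mul_of_nonneg_left h3 (Real.exp_pos _).le
        have h6 : Real.exp 1 * d ≤ 3 * d := mul_le_mul_of_nonneg_right he hd0
        linarith
      linarith
  refine (Finset.sum_le_sum hterm).trans ?_
  rw [Finset.sum_const, nsmul_eq_mul, Finset.card_univ]

/-- few vertices of small degree in the first round -/
theorem Pr_few {q : ℝ} (h0 : 0 ≤ q) (h1 : q ≤ 1) {σ Δ : ℕ} (hn : 1 ≤ Fintype.card V)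
    (hΔ : 0 < Δ) (hσ : (σ : ℝ) ≤ q * (Fintype.card V - 1) / 2) :
    Pr (allp V) q (fun E => Fintype.card V ≤ (univ.filter (fun v : V => deg E v < σ)).card * Δ)
      ≤ Δ * Real.exp (-(q * (Fintype.card V - 1) / 8)) := by
  have hne : (univ : Finset V).Nonempty := by
    rw [← Finset.card_pos, Finset.card_univ]; omega
  have hΔR : (0:ℝ) < Δ := by exact_mod_cast hΔ
  have h2 : ∀ v ∈ (univ : Finset V), Pr (allp V) q (fun E => deg E v < σ)
      ≤ Real.exp (-(q * (Fintype.card V - 1) / 8)) := by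
    intro v _
    have hc : ((st v (univ.erase v)).card : ℝ) = Fintype.card V - 1 := by
      rw [card_st, card_erase_univ, Nat.cast_sub hn]; push_cast; rfl
    have h3 : Pr (allp V) q (fun E => deg E v < σ)
        ≤ Pr (allp V) q (fun E => ((E ∩ st v (univ.erase v)).card : ℝ)
          ≤ q * (st v (univ.erase v)).card / 2) := by
      apply Pr_mono h0 h1
      intro E hE hlt
      rw [deg_eq_inter hE] at hlt
      have h4 : ((E ∩ st v (univ.erase v)).card : ℝ) < σ := by exact_mod_cast hlt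
      rw [hc]
      linarith
    refine h3.trans ((Pr_card_le h0 h1 (st_subset (Finset.notMem_erase _ _))).trans ?_)
    rw [hc]
  have h3 := Pr_many h0 h1 (univ : Finset V) hne (fun v E => deg E v < σ)
    (c := 1 / Δ) (by positivity) h2
  have h4 : Pr (allp V) q (fun E => Fintype.card V ≤
      (univ.filter (fun v : V => deg E v < σ)).card * Δ)
      ≤ Pr (allp V) q (fun E => (1 / Δ : ℝ) * (univ : Finset V).card
        ≤ ((univ.filter (fun v : V => deg E v < σ)).card : ℝ)) := by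
    apply Pr_mono h0 h1
    intro E _ h5
    rw [Finset.card_univ, one_div, inv_mul_le_iff₀ hΔR]
    have : (Fintype.card V : ℝ) ≤ (univ.filter (fun v : V => deg E v < σ)).card * Δ := by
      exact_mod_cast h5
    linarith
  refine h4.trans (le_trans (le_of_eq ?_) (h3.trans (le_of_eq ?_)))
  · apply Pr_congr
    intro E _
    convert Iff.rfl
  · field_simp

theorem card_ins_allp (Y : Finset V) : (ins (allp V) Y).card ≤ Y.card ^ 2 := by
  have h1 : ins (allp V) Y ⊆ (Y ×ˢ Y).image (fun t => s(t.1, t.2)) := by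
    intro e
    induction e using Sym2.ind with
    | _ x y =>
      rw [mem_ins, Finset.mem_image]
      rintro ⟨_, h2, h3⟩
      exact ⟨(x, y), Finset.mem_product.mpr ⟨h2, h3⟩, rfl⟩
  refine (Finset.card_le_card h1).trans (Finset.card_image_le.trans ?_)
  rw [Finset.card_product, sq]

theorem ins_eq_inter {E : Finset (Sym2 V)} (hE : E ⊆ allp V) (Y : Finset V) :
    ins E Y = E ∩ ins (allp V) Y := by
  ext e
  induction e using Sym2.ind with
  | _ x y =>
    rw [Finset.mem_inter, mem_ins, mem_ins]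
    constructor
    · rintro ⟨h1, h2⟩; exact ⟨h1, hE h1, h2⟩
    · rintro ⟨h1, _, h2⟩; exact ⟨h1, h2⟩

theorem geom_le {ρ : ℝ} (h0 : 0 ≤ ρ) (h1 : ρ ≤ 1 / 2) (b : ℕ) :
    ∑ y ∈ Finset.Icc 1 b, ρ ^ y + 2 * ρ ^ (b + 1) ≤ 2 * ρ := by
  induction b with
  | zero => simp
  | succ b ih =>
    rw [Finset.sum_Icc_succ_top (by omega)]
    have h2 : 0 ≤ ρ ^ (b + 1) := by positivity
    have h3 : ρ ^ (b + 1 + 1) = ρ * ρ ^ (b + 1) := by ring
    rw [h3]
    nlinarith

/-- no small dense sets -/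
theorem Pr_loc {p d θ β : ℝ} (h0 : 0 ≤ p) (h1 : p ≤ 1) (hd : d = Fintype.card V * p)
    (hn : 1 ≤ Fintype.card V) {b : ℕ} (hθ : 0 < θ) (hβ : β = θ / 21)
    (hb : (b : ℝ) ≤ β * Fintype.card V) (hθd : 1 ≤ θ * d)
    (hρ : Real.exp 1 / β * Real.exp (-(2 * (θ * d))) ≤ 1 / 2) :
    Pr (allp V) p (fun E => ∃ Y : Finset V, Y.Nonempty ∧ Y.card ≤ b ∧
      θ * d * Y.card ≤ (ins E Y).card)
      ≤ 2 * (Real.exp 1 / β * Real.exp (-(2 * (θ * d)))) := by
  set n := Fintype.card V with hndef
  have hnR : (1:ℝ) ≤ n := by exact_mod_cast hn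
  have hβ0 : 0 < β := by rw [hβ]; positivity
  have hd0 : 0 < d := by
    by_contra hcon
    push Not at hcon
    nlinarith
  set ρ := Real.exp 1 / β * Real.exp (-(2 * (θ * d))) with hρdef
  have hρ0 : 0 ≤ ρ := by positivity
  have hstep : Pr (allp V) p (fun E => ∃ Y : Finset V, Y.Nonempty ∧ Y.card ≤ b ∧
      θ * d * Y.card ≤ (ins E Y).card)
      ≤ Pr (allp V) p (fun E => ∃ y ∈ Finset.Icc 1 b, ∃ Y ∈ (univ : Finset V).powersetCard y,
        ⌈θ * d * y⌉₊ ≤ (E ∩ ins (allp V) Y).card) := by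
    apply Pr_mono h0 h1
    rintro E hE ⟨Y, hY, hYb, hYE⟩
    refine ⟨Y.card, Finset.mem_Icc.mpr ⟨hY.card_pos, hYb⟩, Y,
      Finset.mem_powersetCard.mpr ⟨Finset.subset_univ _, rfl⟩, ?_⟩
    rw [← ins_eq_inter hE]
    exact Nat.ceil_le.mpr hYE
  refine hstep.trans ((Pr_exists_le h0 h1 _ _).trans ?_)
  have hterm : ∀ y ∈ Finset.Icc 1 b, Pr (allp V) p (fun E =>
      ∃ Y ∈ (univ : Finset V).powersetCard y,
        ⌈θ * d * y⌉₊ ≤ (E ∩ ins (allp V) Y).card) ≤ ρ ^ y := by
    intro y hy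
    rw [Finset.mem_Icc] at hy
    obtain ⟨hy1, hyb⟩ := hy
    have hyR : (1:ℝ) ≤ y := by exact_mod_cast hy1
    have hy0 : (0:ℝ) < y := by linarith
    set t := ⌈θ * d * y⌉₊ with ht
    have htR : θ * d * y ≤ t := Nat.le_ceil _
    have hty : (y:ℝ) ≤ t := by nlinarith
    have hty' : y ≤ t := by exact_mod_cast hty
    have ht0 : 0 < t := by omega
    have ht0R : (0:ℝ) < t := by exact_mod_cast ht0
    set r : ℝ := y / (β * n) with hr
    have hβn : 0 < β * n := by positivity
    have hr0 : 0 < r := by positivity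
    have hr1 : r ≤ 1 := by
      rw [hr, div_le_one hβn]
      have : (y:ℝ) ≤ b := by exact_mod_cast hyb
      linarith
    have hone : ∀ Y ∈ (univ : Finset V).powersetCard y, Pr (allp V) p (fun E =>
        t ≤ (E ∩ ins (allp V) Y).card) ≤ Real.exp (-(2 * (θ * d))) ^ y * r ^ y := by
      intro Y hY
      rw [Finset.mem_powersetCard] at hY
      have hTs : ins (allp V) Y ⊆ allp V := Finset.filter_subset _ _
      refine (Pr_card_ge' h0 h1 hTs t ht0).trans ?_
      have hcard : ((ins (allp V) Y).card : ℝ) ≤ (y:ℝ) ^ 2 := by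
        have := card_ins_allp Y
        rw [hY.2] at this
        exact_mod_cast this
      have hbase : Real.exp 1 * (ins (allp V) Y).card * p / t ≤ Real.exp (-2) * r := by
        rw [div_le_iff₀ ht0R]
        have e1 : Real.exp 1 * (ins (allp V) Y).card * p ≤ Real.exp 1 * (y:ℝ) ^ 2 * p := by
          apply mul_le_mul_of_nonneg_right _ h0
          exact mul_le_mul_of_nonneg_left hcard (Real.exp_pos _).le
        have e2 : Real.exp (-2) * r * (θ * d * y) ≤ Real.exp (-2) * r * t :=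
          mul_le_mul_of_nonneg_left htR (by positivity)
        refine e1.trans (le_trans ?_ e2)
        have e3 : Real.exp (-2) * r * (θ * d * y) = Real.exp (-2) * (21 * (y:ℝ) ^ 2 * p) := by
          rw [hr, hβ, hd]
          field_simp
        rw [e3]
        have e4 : Real.exp 1 = Real.exp (-2) * Real.exp 3 := by
          rw [← Real.exp_add]; norm_num
        have e5 : Real.exp 3 ≤ 21 := by
          have h8 : Real.exp 1 ≤ 2.7182818286 := Real.exp_one_lt_d9.le
          calc Real.exp 3 = (Real.exp 1) ^ 3 := by rw [← Real.exp_nat_mul]; norm_num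
            _ ≤ 2.7182818286 ^ 3 := pow_le_pow_left₀ (Real.exp_pos _).le h8 3
            _ ≤ 21 := by norm_num
        rw [e4]
        have e6 : 0 ≤ Real.exp (-2) * ((y:ℝ) ^ 2 * p) := by positivity
        nlinarith
      calc (Real.exp 1 * (ins (allp V) Y).card * p / t) ^ t
          ≤ (Real.exp (-2) * r) ^ t := pow_le_pow_left₀ (by positivity) hbase t
        _ = Real.exp (-2) ^ t * r ^ t := mul_pow _ _ _
        _ ≤ Real.exp (-(2 * (θ * d))) ^ y * r ^ y := by
            apply mul_le_mul _ _ (by positivity) (by positivity)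
            · rw [← Real.exp_nat_mul, ← Real.exp_nat_mul]
              apply Real.exp_le_exp.mpr
              nlinarith
            · exact pow_le_pow_of_le_one hr0.le hr1 hty'
    refine (Pr_exists_le h0 h1 _ _).trans ((Finset.sum_le_sum hone).trans ?_)
    rw [Finset.sum_const, nsmul_eq_mul, Finset.card_powersetCard, Finset.card_univ, ← hndef]
    have hch : ((n.choose y : ℕ) : ℝ) ≤ (Real.exp 1 * n / y) ^ y := by
      have := choose_mul_pow_le (q := 1) zero_le_one n y (by omega)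
      simpa using this
    calc ((n.choose y : ℕ) : ℝ) * (Real.exp (-(2 * (θ * d))) ^ y * r ^ y)
        ≤ (Real.exp 1 * n / y) ^ y * (Real.exp (-(2 * (θ * d))) ^ y * r ^ y) :=
          mul_le_mul_of_nonneg_right hch (by positivity)
      _ = (Real.exp 1 * n / y * (Real.exp (-(2 * (θ * d))) * r)) ^ y := by
          rw [mul_pow, mul_pow]
      _ = ρ ^ y := by
          congr 1
          rw [hρdef, hr]
          field_simp
  refine (Finset.sum_le_sum hterm).trans ?_
  have := geom_le hρ0 hρ b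
  have h3 : 0 ≤ ρ ^ (b + 1) := by positivity
  linarith

theorem card_btw_allp {X Y : Finset V} (h : Disjoint X Y) :
    (btw (allp V) X Y).card = X.card * Y.card := by
  have h1 : btw (allp V) X Y = (X ×ˢ Y).image (fun t => s(t.1, t.2)) := by
    ext e
    rw [mem_btw, Finset.mem_image]
    constructor
    · rintro ⟨_, x, hx, y, hy, rfl⟩
      exact ⟨(x, y), Finset.mem_product.mpr ⟨hx, hy⟩, rfl⟩
    · rintro ⟨⟨x, y⟩, hxy, rfl⟩
      rw [Finset.mem_product] at hxy
      obtain ⟨hx, hy⟩ := hxy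
      simp only at hx hy ⊢
      refine ⟨mem_allp.mpr ?_, x, hx, y, hy, rfl⟩
      intro hEq
      subst hEq
      exact Finset.disjoint_left.mp h hx hy
  rw [h1, Finset.card_image_of_injOn, Finset.card_product]
  rintro ⟨x, y⟩ hxy ⟨x', y'⟩ hxy' heq
  rw [Finset.mem_coe, Finset.mem_product] at hxy hxy'
  simp only at heq
  rw [Sym2.eq_iff] at heq
  rcases heq with ⟨rfl, rfl⟩ | ⟨rfl, rfl⟩
  · rfl
  · exact absurd hxy'.2 (Finset.disjoint_left.mp h hxy.1)

theorem btw_eq_inter {E : Finset (Sym2 V)} (hE : E ⊆ allp V) (X Y : Finset V) :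
    btw E X Y = E ∩ btw (allp V) X Y := by
  ext e
  rw [Finset.mem_inter, mem_btw, mem_btw]
  constructor
  · rintro ⟨h1, h2⟩; exact ⟨h1, hE h1, h2⟩
  · rintro ⟨h1, _, h2⟩; exact ⟨h1, h2⟩

/-- many edges between large sets -/
theorem Pr_big {q : ℝ} (h0 : 0 ≤ q) (h1 : q ≤ 1) {b M κ : ℕ}
    (hκ : (κ : ℝ) ≤ q * ((b / (M + 1) : ℝ) * (Fintype.card V / 5)) / 2) :
    Pr (allp V) q (fun E => ∃ X Y : Finset V, Disjoint X Y ∧ b < (M + 1) * X.card ∧
      Fintype.card V ≤ 5 * Y.card ∧ (btw E X Y).card ≤ κ)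
      ≤ (4:ℝ) ^ Fintype.card V *
        Real.exp (-(q * ((b / (M + 1) : ℝ) * (Fintype.card V / 5)) / 8)) := by
  set n := Fintype.card V with hndef
  have hstep : Pr (allp V) q (fun E => ∃ X Y : Finset V, Disjoint X Y ∧ b < (M + 1) * X.card ∧
      n ≤ 5 * Y.card ∧ (btw E X Y).card ≤ κ)
      ≤ Pr (allp V) q (fun E => ∃ t ∈ (univ : Finset (Finset V × Finset V)),
        (Disjoint t.1 t.2 ∧ b < (M + 1) * t.1.card ∧
      n ≤ 5 * t.2.card) ∧ (E ∩ btw (allp V) t.1 t.2).card ≤ κ) := by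
    apply Pr_mono h0 h1
    rintro E hE ⟨X, Y, h2, h3, h4, h5⟩
    refine ⟨(X, Y), Finset.mem_univ _, ⟨h2, h3, h4⟩, ?_⟩
    rw [← btw_eq_inter hE]
    exact h5
  refine hstep.trans ((Pr_exists_le h0 h1 _ _).trans ?_)
  have hterm : ∀ t ∈ (univ : Finset (Finset V × Finset V)), Pr (allp V) q (fun E =>
        (Disjoint t.1 t.2 ∧ b < (M + 1) * t.1.card ∧
      n ≤ 5 * t.2.card) ∧ (E ∩ btw (allp V) t.1 t.2).card ≤ κ)
      ≤ Real.exp (-(q * ((b / (M + 1) : ℝ) * (n / 5)) / 8)) := by
    rintro ⟨X, Y⟩ _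
    by_cases hc : Disjoint X Y ∧ b < (M + 1) * X.card ∧ n ≤ 5 * Y.card
    · obtain ⟨h2, h3, h4⟩ := hc
      have hX : (b / (M + 1) : ℝ) ≤ X.card := by
        rw [div_le_iff₀ (by positivity)]
        have : (b:ℝ) ≤ (M + 1) * X.card := by exact_mod_cast h3.le
        linarith
      have hY : (n / 5 : ℝ) ≤ Y.card := by
        rw [div_le_iff₀ (by norm_num)]
        have : (n:ℝ) ≤ 5 * Y.card := by exact_mod_cast h4
        linarith
      have hT : ((b / (M + 1) : ℝ) * (n / 5)) ≤ (btw (allp V) X Y).card := by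
        rw [card_btw_allp h2]
        push_cast
        exact mul_le_mul hX hY (by positivity) (by positivity)
      have hTs : btw (allp V) X Y ⊆ allp V := Finset.filter_subset _ _
      have hqT : q * ((b / (M + 1) : ℝ) * (n / 5)) ≤ q * (btw (allp V) X Y).card :=
        mul_le_mul_of_nonneg_left hT h0
      refine le_trans (Pr_mono h0 h1 (B := fun E => ((E ∩ btw (allp V) X Y).card : ℝ)
        ≤ q * (btw (allp V) X Y).card / 2) ?_) ((Pr_card_le h0 h1 hTs).trans ?_)
      · rintro E _ ⟨_, h6⟩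
        have : ((E ∩ btw (allp V) X Y).card : ℝ) ≤ κ := by exact_mod_cast h6
        linarith
      · apply Real.exp_le_exp.mpr
        linarith
    · have : ∀ E : Finset (Sym2 V), ((Disjoint X Y ∧ b < (M + 1) * X.card ∧
          n ≤ 5 * Y.card) ∧ (E ∩ btw (allp V) X Y).card ≤ κ) ↔ False := by
        intro E; tauto
      simp only [this]
      rw [Pr_false]
      positivity
  refine (Finset.sum_le_sum hterm).trans ?_
  rw [Finset.sum_const, nsmul_eq_mul, Finset.card_univ, Fintype.card_prod, Fintype.card_finset,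
    ← hndef]
  apply le_of_eq
  push_cast
  rw [← mul_pow]
  norm_num

end Pool.Agent.Helper96.PC
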