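import Mathlib
import Pool.Agent.Helper96.PC.Loc2

set_option autoImplicit false
set_option linter.unusedSectionVars false
set_option linter.unusedVariables false
open Classical Finset

namespace Pool.Agent.Helper96.PC

variable {V : Type*} [Fintype V] [DecidableEq V]

theorem card_allp_le : (allp V).card ≤ Fintype.card V ^ 2 := by
  have h1 : allp V = ins (allp V) univ := by
    ext e
    induction e using Sym2.ind with
    | _ x y =>
      rw [mem_ins]
      simp
  rw [h1]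
  have := card_ins_allp (univ : Finset V)
  rwa [Finset.card_univ] at this

theorem card_sym2_le : Fintype.card (Sym2 V) ≤ Fintype.card V ^ 2 := by
  have h1 : (univ : Finset (Sym2 V)) = (univ : Finset (V × V)).image (fun t => s(t.1, t.2)) := by
    ext e
    induction e using Sym2.ind with
    | _ x y =>
      rw [Finset.mem_image]
      exact ⟨fun _ => ⟨(x, y), Finset.mem_univ _, rfl⟩, fun _ => Finset.mem_univ _⟩
  rw [← Finset.card_univ, h1]
  refine Finset.card_image_le.trans ?_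
  rw [Finset.card_univ, Fintype.card_prod, sq]

theorem Boost_subset (E : Finset (Sym2 V)) : Boost E ⊆ allp V := by
  intro e he
  obtain ⟨l, u, v, _, _, _, _, huv, rfl⟩ := mem_Boost.mp he
  exact mem_allp.mpr huv

theorem sum_pow_small {α : Type*} [DecidableEq α] (U : Finset α) {q lam : ℝ} (h0 : 0 ≤ q)
    (hl : 1 ≤ lam) (J : ℕ) :
    ∑ E ∈ U.powerset.filter (fun E => E.card ≤ J), q ^ E.card
      ≤ lam ^ J * (1 + q / lam) ^ U.card := by
  have hl0 : 0 < lam := by linarith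
  have h1 := Finset.sum_pow_mul_eq_add_pow (q / lam) 1 U
  simp only [one_pow, mul_one] at h1
  rw [add_comm 1, ← h1, Finset.mul_sum]
  refine le_trans (Finset.sum_le_sum (g := fun E => lam ^ J * (q / lam) ^ E.card) ?_) ?_
  · intro E hE
    rw [Finset.mem_filter] at hE
    have h2 : q ^ E.card = lam ^ E.card * (q / lam) ^ E.card := by
      rw [← mul_pow, mul_div_cancel₀ _ hl0.ne']
    rw [h2]
    exact mul_le_mul_of_nonneg_right (pow_le_pow_right₀ hl hE.2) (by positivity)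
  · apply Finset.sum_le_sum_of_subset_of_nonneg (Finset.filter_subset _ _)
    intro E _ _
    positivity

/-- boosters are hit, for one base set -/
theorem Pr_bst_one {q lam m₀ : ℝ} (h0 : 0 ≤ q) (h1 : q ≤ 1) (hl : 1 ≤ lam) {J κ : ℕ}
    (H : Finset (Sym2 V)) (hm : m₀ + J ≤ (Fintype.card V : ℝ) ^ 2 / 32)
    (hκ : (κ : ℝ) ≤ q * m₀ / 2) :
    Pr (allp V) q (fun E₂ => ∃ E' : Finset (Sym2 V), E' ⊆ E₂ ∧ E'.card ≤ J ∧
      (Fintype.card V) ^ 2 ≤ 32 * (Boost (H ∪ E')).card ∧ (Boost (H ∪ E') ∩ E₂).card ≤ κ)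
      ≤ lam ^ J * (1 + q / lam) ^ (allp V).card * Real.exp (-(q * m₀ / 8)) := by
  have hstep : Pr (allp V) q (fun E₂ => ∃ E' : Finset (Sym2 V), E' ⊆ E₂ ∧ E'.card ≤ J ∧
      (Fintype.card V) ^ 2 ≤ 32 * (Boost (H ∪ E')).card ∧ (Boost (H ∪ E') ∩ E₂).card ≤ κ)
      ≤ Pr (allp V) q (fun E₂ => ∃ E' ∈ (allp V).powerset.filter (fun E => E.card ≤ J),
        (Fintype.card V) ^ 2 ≤ 32 * (Boost (H ∪ E')).card ∧ (E' ⊆ E₂ ∧
          (E₂ ∩ (Boost (H ∪ E') \ E')).card ≤ κ)) := by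
    apply Pr_mono h0 h1
    rintro E₂ hE₂ ⟨E', h2, h3, h4, h5⟩
    refine ⟨E', ?_, h4, h2, le_trans (Finset.card_le_card ?_) h5⟩
    · rw [Finset.mem_filter, Finset.mem_powerset]
      exact ⟨h2.trans hE₂, h3⟩
    · intro e he
      rw [Finset.mem_inter, Finset.mem_sdiff] at he
      exact Finset.mem_inter.mpr ⟨he.2.1, he.1⟩
  refine hstep.trans ((Pr_exists_le h0 h1 _ _).trans ?_)
  have hterm : ∀ E' ∈ (allp V).powerset.filter (fun E => E.card ≤ J), Pr (allp V) q (fun E₂ =>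
        (Fintype.card V) ^ 2 ≤ 32 * (Boost (H ∪ E')).card ∧ (E' ⊆ E₂ ∧
          (E₂ ∩ (Boost (H ∪ E') \ E')).card ≤ κ))
      ≤ q ^ E'.card * Real.exp (-(q * m₀ / 8)) := by
    intro E' hE'
    rw [Finset.mem_filter, Finset.mem_powerset] at hE'
    by_cases hc : (Fintype.card V) ^ 2 ≤ 32 * (Boost (H ∪ E')).card
    · refine le_trans (Pr_mono h0 h1 (fun E _ h => h.2)) ?_
      have hT : Boost (H ∪ E') \ E' ⊆ allp V := Finset.sdiff_subset.trans (Boost_subset _)
      have hd : Disjoint E' (Boost (H ∪ E') \ E') := Finset.disjoint_sdiff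
      rw [Pr_and_indep hd (Finset.union_subset hE'.1 hT) (fun E => E' ⊆ E)
        (fun E => (E ∩ (Boost (H ∪ E') \ E')).card ≤ κ) subset_local
        (by intro E _; simp only [Finset.inter_assoc, Finset.inter_self]),
        Pr_subset (Finset.Subset.refl _)]
      apply mul_le_mul_of_nonneg_left _ (by positivity)
      have hc' : (Fintype.card V : ℝ) ^ 2 ≤ 32 * (Boost (H ∪ E')).card := by exact_mod_cast hc
      have hcs : ((Boost (H ∪ E')).card : ℝ) ≤ (Boost (H ∪ E') \ E').card + E'.card := by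
        have := Finset.card_le_card_sdiff_add_card (s := Boost (H ∪ E')) (t := E')
        exact_mod_cast this
      have hJ : (E'.card : ℝ) ≤ J := by exact_mod_cast hE'.2
      have hm2 : m₀ ≤ (Boost (H ∪ E') \ E').card := by linarith
      have hqm : q * m₀ ≤ q * (Boost (H ∪ E') \ E').card := mul_le_mul_of_nonneg_left hm2 h0
      refine le_trans (Pr_mono h0 h1 (B := fun E => ((E ∩ (Boost (H ∪ E') \ E')).card : ℝ)
        ≤ q * (Boost (H ∪ E') \ E').card / 2) ?_)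
        ((Pr_card_le h0 h1 (Finset.Subset.refl _)).trans ?_)
      · intro E _ h6
        have : ((E ∩ (Boost (H ∪ E') \ E')).card : ℝ) ≤ κ := by exact_mod_cast h6
        linarith
      · apply Real.exp_le_exp.mpr
        linarith
    · simp only [hc, false_and]
      rw [Pr_false]
      positivity
  refine (Finset.sum_le_sum hterm).trans ?_
  rw [← Finset.sum_mul]
  exact mul_le_mul_of_nonneg_right (sum_pow_small _ h0 hl J) (Real.exp_pos _).le

theorem card_small_le (r : ℕ) :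
    (((univ : Finset (Sym2 V)).powerset.filter (fun R => R.card ≤ r)).card : ℝ)
      ≤ ((Fintype.card V : ℝ) ^ 2 + 1) ^ r := by
  have h1 := card_small_subsets (univ : Finset (Sym2 V)) r
  have h2 : ((univ : Finset (Sym2 V)).card + 1) ^ r ≤ (Fintype.card V ^ 2 + 1) ^ r := by
    apply Nat.pow_le_pow_left
    rw [Finset.card_univ]
    exact Nat.add_le_add_right card_sym2_le 1
  exact_mod_cast h1.trans h2

/-- boosters are hit, for all modifications of the first round -/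
theorem Pr_bst {q lam m₀ : ℝ} (h0 : 0 ≤ q) (h1 : q ≤ 1) (hl : 1 ≤ lam) {J κ r₀ : ℕ}
    (G₁ : Finset (Sym2 V)) (hm : m₀ + J ≤ (Fintype.card V : ℝ) ^ 2 / 32)
    (hκ : (κ : ℝ) ≤ q * m₀ / 2) :
    Pr (allp V) q (fun E₂ => ∃ F' P E' : Finset (Sym2 V), F'.card ≤ κ ∧ P.card ≤ r₀ ∧ E' ⊆ E₂ ∧
      E'.card ≤ J ∧ (Fintype.card V) ^ 2 ≤ 32 * (Boost ((G₁ \ F') ∪ P ∪ E')).card ∧
      (Boost ((G₁ \ F') ∪ P ∪ E') ∩ E₂).card ≤ κ)
      ≤ ((Fintype.card V : ℝ) ^ 2 + 1) ^ (κ + r₀) *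
        (lam ^ J * (1 + q / lam) ^ (allp V).card * Real.exp (-(q * m₀ / 8))) := by
  have hstep : Pr (allp V) q (fun E₂ => ∃ F' P E' : Finset (Sym2 V), F'.card ≤ κ ∧ P.card ≤ r₀ ∧
      E' ⊆ E₂ ∧ E'.card ≤ J ∧ (Fintype.card V) ^ 2 ≤ 32 * (Boost ((G₁ \ F') ∪ P ∪ E')).card ∧
      (Boost ((G₁ \ F') ∪ P ∪ E') ∩ E₂).card ≤ κ)
      ≤ Pr (allp V) q (fun E₂ => ∃ t ∈
        ((univ : Finset (Sym2 V)).powerset.filter (fun R => R.card ≤ κ)) ×ˢ
        ((univ : Finset (Sym2 V)).powerset.filter (fun R => R.card ≤ r₀)),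
        ∃ E' : Finset (Sym2 V), E' ⊆ E₂ ∧ E'.card ≤ J ∧
        (Fintype.card V) ^ 2 ≤ 32 * (Boost (((G₁ \ t.1) ∪ t.2) ∪ E')).card ∧
        (Boost (((G₁ \ t.1) ∪ t.2) ∪ E') ∩ E₂).card ≤ κ) := by
    apply Pr_mono h0 h1
    rintro E₂ hE₂ ⟨F', P, E', h2, h3, h4, h5, h6, h7⟩
    refine ⟨(F', P), ?_, E', h4, h5, h6, h7⟩
    rw [Finset.mem_product, Finset.mem_filter, Finset.mem_filter, Finset.mem_powerset,
      Finset.mem_powerset]
    exact ⟨⟨Finset.subset_univ _, h2⟩, ⟨Finset.subset_univ _, h3⟩⟩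
  refine hstep.trans ((Pr_exists_le h0 h1 _ _).trans ?_)
  refine (Finset.sum_le_sum (fun t _ => Pr_bst_one h0 h1 hl ((G₁ \ t.1) ∪ t.2) hm hκ)).trans ?_
  rw [Finset.sum_const, nsmul_eq_mul, Finset.card_product, pow_add]
  push_cast
  apply mul_le_mul_of_nonneg_right _ (by positivity)
  exact mul_le_mul (card_small_le κ) (card_small_le r₀) (by positivity) (by positivity)

end Pool.Agent.Helper96.PC
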