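import Mathlib
import Pool.Agent.Helper96.PC.Bst

set_option autoImplicit false
set_option linter.unusedSectionVars false
set_option linter.unusedVariables false
open Classical Finset

namespace Pool.Agent.Helper96.PC

variable {V : Type*} [Fintype V] [DecidableEq V]

def BTwo (E : Finset (Sym2 V)) : Prop := ∃ v : V, deg E v ≤ 1
def BSm1 (σ : ℕ) (E : Finset (Sym2 V)) : Prop :=
  ∃ s s' : V, deg E s < σ ∧ deg E s' < σ ∧ s(s, s') ∈ E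
def BSm2 (σ : ℕ) (E : Finset (Sym2 V)) : Prop :=
  ∃ s s' y : V, s ≠ s' ∧ deg E s < σ ∧ deg E s' < σ ∧ s(s, y) ∈ E ∧ s(s', y) ∈ E
def BCyc (σ : ℕ) (E : Finset (Sym2 V)) : Prop :=
  ∃ s y w y' : V, s ≠ w ∧ y ≠ y' ∧ deg E s < σ ∧
      s(s, y) ∈ E ∧ s(y, w) ∈ E ∧ s(w, y') ∈ E ∧ s(y', s) ∈ E
def BPath (σ : ℕ) (E : Finset (Sym2 V)) : Prop :=
  ∃ s y w y' s' : V, s ≠ s' ∧ s ≠ w ∧ w ≠ s' ∧ y ≠ y' ∧ y ≠ s' ∧
      y' ≠ s ∧ deg E s < σ ∧ deg E s' < σ ∧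
      s(s, y) ∈ E ∧ s(y, w) ∈ E ∧ s(w, y') ∈ E ∧ s(y', s') ∈ E
def BMax (Δ : ℕ) (E : Finset (Sym2 V)) : Prop := ∃ v : V, Δ < deg E v
def BLoc (σ M b : ℕ) (E : Finset (Sym2 V)) : Prop :=
  ∃ Y : Finset V, Y.Nonempty ∧ Y.card ≤ b ∧ σ * Y.card ≤ 8 * (M + 1) * (ins E Y).card
def BFew (σ Δ : ℕ) (E : Finset (Sym2 V)) : Prop :=
  Fintype.card V ≤ (univ.filter (fun v : V => deg E v < σ)).card * Δ
def BBig (κ M b : ℕ) (E : Finset (Sym2 V)) : Prop :=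
  ∃ X Y : Finset V, Disjoint X Y ∧ b < (M + 1) * X.card ∧
      Fintype.card V ≤ 5 * Y.card ∧ (btw E X Y).card ≤ κ
def BBst (κ r₀ J : ℕ) (E₁ E₂ : Finset (Sym2 V)) : Prop :=
  ∃ F' P E' : Finset (Sym2 V), F'.card ≤ κ ∧ P.card ≤ r₀ ∧ E' ⊆ E₂ ∧
      E'.card ≤ J ∧ (Fintype.card V) ^ 2 ≤ 32 * (Boost ((E₁ \ F') ∪ P ∪ E')).card ∧
      (Boost ((E₁ \ F') ∪ P ∪ E') ∩ E₂).card ≤ κ

theorem typ_of_not {E₁ E₂ : Finset (Sym2 V)} (h1 : E₁ ⊆ allp V) (h2 : E₂ ⊆ allp V)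
    {σ Δ κ r₀ b M z₀ c : ℕ} (hc : Fintype.card V + z₀ * Δ ≤ c * Fintype.card V)
    (a1 : ¬ BTwo (E₁ ∪ E₂)) (a2 : ¬ BSm1 σ (E₁ ∪ E₂)) (a3 : ¬ BSm2 σ (E₁ ∪ E₂))
    (a4 : ¬ BCyc σ (E₁ ∪ E₂)) (a5 : ¬ BPath σ (E₁ ∪ E₂)) (a6 : ¬ BMax Δ (E₁ ∪ E₂))
    (a7 : ¬ BLoc σ M b (E₁ ∪ E₂)) (a8 : ¬ BFew σ Δ E₁) (a9 : ¬ BBig κ M b E₁)
    (a10 : ¬ BBst κ r₀ ((c + 1) * Fintype.card V) E₁ E₂) :
    Typ E₁ E₂ σ Δ κ r₀ b M z₀ c := by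
  have hG : E₁ ∪ E₂ ⊆ allp V := Finset.union_subset h1 h2
  refine ⟨?_, ?_, ?_, ?_, ?_, ?_, ?_, ?_, ?_, ?_⟩
  · intro x hx
    exact mem_allp.mp (hG hx) rfl
  · intro v
    by_contra hcon
    exact a1 ⟨v, by omega⟩
  · intro s s' hs hs' h
    exact a2 ⟨s, s', hs, hs', h⟩
  · intro s s' y hne hs hs' h h'
    exact a3 ⟨s, s', y, hne, hs, hs', h, h'⟩
  · intro s y w y' s' hs hs' hw hyy e1 e2 e3 e4
    have hsw : s ≠ w := by rintro rfl; omega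
    have hws : w ≠ s' := by rintro rfl; omega
    by_cases hss : s = s'
    · subst hss
      exact a4 ⟨s, y, w, y', hsw, hyy, hs, e1, e2, e3, e4⟩
    · have h3 : y ≠ s' := by
        rintro rfl
        exact a2 ⟨s, y, hs, hs', e1⟩
      have h4 : y' ≠ s := by
        rintro rfl
        exact a2 ⟨y', s', hs, hs', e4⟩
      exact a5 ⟨s, y, w, y', s', hss, hsw, hws, hyy, h3, h4, hs, hs', e1, e2, e3, e4⟩
  · intro v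
    by_contra hcon
    exact a6 ⟨v, by omega⟩
  · unfold BFew at a8
    push Not at a8
    rw [add_mul]
    have : (univ.filter (fun v => deg E₁ v < σ)).card * Δ + z₀ * Δ
        ≤ Fintype.card V + z₀ * Δ := by
      apply Nat.add_le_add_right
      convert a8.le
    omega
  · intro Y hY hYb
    by_contra hcon
    push Not at hcon
    exact a7 ⟨Y, hY, hYb, hcon⟩
  · intro X Y hXY h3 h4
    by_contra hcon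
    push Not at hcon
    exact a9 ⟨X, Y, hXY, h3, h4, hcon⟩
  · intro F' P E' h3 h4 h5 h6 h7
    by_contra hcon
    push Not at hcon
    exact a10 ⟨F', P, E', h3, h4, h5, h6, h7, hcon⟩

theorem PP_left_le {U : Finset (Sym2 V)} {q₁ q₂ : ℝ} {A : Finset (Sym2 V) → Prop} {x : ℝ}
    (h : Pr U q₁ A ≤ x) : PP U q₁ q₂ (fun E₁ _ => A E₁) ≤ x := by
  rw [PP_left]; exact h

theorem PP_union_le {U : Finset (Sym2 V)} {q q₁ q₂ : ℝ} (hq : 1 - q = (1 - q₁) * (1 - q₂))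
    {A : Finset (Sym2 V) → Prop} {x : ℝ}
    (h : Pr U q A ≤ x) : PP U q₁ q₂ (fun E₁ E₂ => A (E₁ ∪ E₂)) ≤ x := by
  rw [PP_union hq]; exact h

/-- the failure probability is at most the sum of the parts -/
theorem fail_le {p q : ℝ} (h0 : 0 ≤ p) (h1 : p ≤ 1) (hq0 : 0 ≤ q) (hq1 : q ≤ 1)
    (hq : 1 - p = (1 - q) * (1 - q))
    {σ Δ κ r₀ b M z₀ c D₀ k : ℕ} (hc : Fintype.card V + z₀ * Δ ≤ c * Fintype.card V)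
    (hp : Params (Fintype.card V) σ Δ κ r₀ b M z₀ D₀ k)
    {x₁ x₂ x₃ x₄ x₅ x₆ x₇ x₈ x₉ x₁₀ : ℝ}
    (g1 : Pr (allp V) p BTwo ≤ x₁) (g2 : Pr (allp V) p (BSm1 σ) ≤ x₂)
    (g3 : Pr (allp V) p (BSm2 σ) ≤ x₃) (g4 : Pr (allp V) p (BCyc σ) ≤ x₄)
    (g5 : Pr (allp V) p (BPath σ) ≤ x₅) (g6 : Pr (allp V) p (BMax Δ) ≤ x₆)
    (g7 : Pr (allp V) p (BLoc σ M b) ≤ x₇) (g8 : Pr (allp V) q (BFew σ Δ) ≤ x₈)
    (g9 : Pr (allp V) q (BBig κ M b) ≤ x₉)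
    (g10 : ∀ E₁ : Finset (Sym2 V), Pr (allp V) q (BBst κ r₀ ((c + 1) * Fintype.card V) E₁) ≤ x₁₀) :
    1 - (x₁ + x₂ + x₃ + x₄ + x₅ + x₆ + x₇ + x₈ + x₉ + x₁₀)
      ≤ Pr (allp V) p (fun E => 0 < mE E k ∧ fE E k = mE E k) := by
  have hmain : Pr (allp V) p (fun E => ¬ (0 < mE E k ∧ fE E k = mE E k))
      ≤ x₁ + x₂ + x₃ + x₄ + x₅ + x₆ + x₇ + x₈ + x₉ + x₁₀ := by
    rw [← PP_union (q₁ := q) (q₂ := q) hq]
    refine le_trans (PP_mono hq0 hq1 hq0 hq1 (B := fun E₁ E₂ =>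
      (((((((((BTwo (E₁ ∪ E₂) ∨ BSm1 σ (E₁ ∪ E₂)) ∨ BSm2 σ (E₁ ∪ E₂)) ∨ BCyc σ (E₁ ∪ E₂)) ∨
        BPath σ (E₁ ∪ E₂)) ∨ BMax Δ (E₁ ∪ E₂)) ∨ BLoc σ M b (E₁ ∪ E₂)) ∨ BFew σ Δ E₁) ∨
        BBig κ M b E₁) ∨ BBst κ r₀ ((c + 1) * Fintype.card V) E₁ E₂)) ?_) ?_
    · intro E₁ hE₁ E₂ hE₂ hne
      by_contra hcon
      push Not at hcon
      obtain ⟨⟨⟨⟨⟨⟨⟨⟨⟨a1, a2⟩, a3⟩, a4⟩, a5⟩, a6⟩, a7⟩, a8⟩, a9⟩, a10⟩ := hcon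
      exact hne (det_main (typ_of_not hE₁ hE₂ hc a1 a2 a3 a4 a5 a6 a7 a8 a9 a10) hp)
    · refine (PP_or_le hq0 hq1 hq0 hq1 _ _).trans (add_le_add ?_ (PP_le_of hq0 hq1
        (fun E₁ _ => g10 E₁)))
      refine (PP_or_le hq0 hq1 hq0 hq1 _ _).trans (add_le_add ?_ (PP_left_le g9))
      refine (PP_or_le hq0 hq1 hq0 hq1 _ _).trans (add_le_add ?_ (PP_left_le g8))
      refine (PP_or_le hq0 hq1 hq0 hq1 _ _).trans (add_le_add ?_ (PP_union_le hq g7))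
      refine (PP_or_le hq0 hq1 hq0 hq1 _ _).trans (add_le_add ?_ (PP_union_le hq g6))
      refine (PP_or_le hq0 hq1 hq0 hq1 _ _).trans (add_le_add ?_ (PP_union_le hq g5))
      refine (PP_or_le hq0 hq1 hq0 hq1 _ _).trans (add_le_add ?_ (PP_union_le hq g4))
      refine (PP_or_le hq0 hq1 hq0 hq1 _ _).trans (add_le_add ?_ (PP_union_le hq g3))
      refine (PP_or_le hq0 hq1 hq0 hq1 _ _).trans (add_le_add ?_ (PP_union_le hq g2))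
      exact PP_union_le hq g1
  rw [Pr_not] at hmain
  linarith

end Pool.Agent.Helper96.PC
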