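import Mathlib
import Pool.Agent.Helper96.PC.Asm

set_option autoImplicit false
set_option linter.unusedSectionVars false
set_option linter.unusedVariables false
open Classical Finset

namespace Pool.Agent.Helper96.PC

variable {V : Type*} [Fintype V] [DecidableEq V]

theorem params_ok {n k r K : ℕ} (hk : 2 ≤ k) {d β : ℝ}
    (hr : r = (k - 1) * (k + k * (33600 * k + k)))
    (hK : K = 33600 * k + (r + 2 * r * (r + 1)) + 40 * r + 20 * k + 4)
    (hn : K ≤ n) (hd : 100 * (K : ℝ) ≤ d) (hβ0 : 0 ≤ β) (hβ : β ≤ 1 / 4) :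
    Params n ⌈d / 100⌉₊ ⌈6 * d⌉₊ (2 * k * ⌈6 * d⌉₊) (2 * r) ⌊β * n⌋₊ (5 + 33600 * k)
      (5600 * k) (33600 * k) k := by
  have hK4 : 4 ≤ K := by omega
  have hKR : (4:ℝ) ≤ K := by exact_mod_cast hK4
  have hd1 : 1 ≤ d := by linarith
  have hσ : K ≤ ⌈d / 100⌉₊ := by
    have : (K:ℝ) ≤ ⌈d / 100⌉₊ := le_trans (by linarith) (Nat.le_ceil _)
    exact_mod_cast this
  have hΔ : K ≤ ⌈6 * d⌉₊ := by
    have : (K:ℝ) ≤ ⌈6 * d⌉₊ := le_trans (by linarith) (Nat.le_ceil _)
    exact_mod_cast this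
  have hkΔ : ⌈6 * d⌉₊ ≤ 2 * k * ⌈6 * d⌉₊ := by
    have : 1 ≤ 2 * k := by omega
    calc ⌈6 * d⌉₊ = 1 * ⌈6 * d⌉₊ := (one_mul _).symm
      _ ≤ 2 * k * ⌈6 * d⌉₊ := Nat.mul_le_mul_right _ this
  refine ⟨hk, ?_, ?_, ?_, ?_, ?_, ?_, ?_, ?_, le_rfl, ?_, ?_, ?_, ?_⟩
  · have h1 : ((4 * (2 * k * ⌈6 * d⌉₊) : ℕ) : ℝ) < ((⌈d / 100⌉₊ * (5600 * k + 1) : ℕ) : ℝ) := by
      push_cast
      have e1 : (⌈6 * d⌉₊ : ℝ) < 6 * d + 1 := Nat.ceil_lt_add_one (by linarith)
      have e2 : d / 100 ≤ (⌈d / 100⌉₊ : ℝ) := Nat.le_ceil _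
      have hkR : (2:ℝ) ≤ k := by exact_mod_cast hk
      have e3 : (⌈6 * d⌉₊ : ℝ) ≤ 7 * d := by linarith
      have e4 : (k:ℝ) * ⌈6 * d⌉₊ ≤ k * (7 * d) := mul_le_mul_of_nonneg_left e3 (by linarith)
      have e5 : d / 100 * (5600 * k + 1) ≤ (⌈d / 100⌉₊ : ℝ) * (5600 * k + 1) :=
        mul_le_mul_of_nonneg_right e2 (by positivity)
      nlinarith
    exact_mod_cast h1
  · omega
  · omega
  · omega
  · have h1 : (⌊β * n⌋₊ : ℝ) ≤ β * n := Nat.floor_le (by positivity)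
    have h2 : β * n ≤ 1 / 4 * n := mul_le_mul_of_nonneg_right hβ (by positivity)
    have h3 : ((4 * ⌊β * n⌋₊ : ℕ) : ℝ) ≤ (n : ℝ) := by
      push_cast
      linarith
    exact_mod_cast h3
  · omega
  · omega
  · rw [← hr]; omega
  · rw [← hr]; omega
  · rw [← hr]; omega
  · rw [← hr]; omega
  · rw [← hr]

theorem sqrt_facts {p q : ℝ} (h0 : 0 ≤ p) (h1 : p ≤ 1) (hq : q = 1 - Real.sqrt (1 - p)) :
    p / 2 ≤ q ∧ q ≤ p ∧ 1 - p = (1 - q) * (1 - q) := by
  have h2 : Real.sqrt (1 - p) * Real.sqrt (1 - p) = 1 - p := Real.mul_self_sqrt (by linarith)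
  have h3 : 0 ≤ Real.sqrt (1 - p) := Real.sqrt_nonneg _
  have h4 : Real.sqrt (1 - p) ≤ 1 := by
    calc Real.sqrt (1 - p) ≤ Real.sqrt 1 := Real.sqrt_le_sqrt (by linarith)
      _ = 1 := Real.sqrt_one
  refine ⟨?_, ?_, ?_⟩
  · rw [hq]
    nlinarith
  · rw [hq]
    nlinarith
  · rw [hq]
    ring_nf
    nlinarith

theorem half_le_exp : (1 / 2 : ℝ) ≤ Real.exp (-(1 / 2)) := by
  have := Real.add_one_le_exp (-(1/2) : ℝ)
  linarith

theorem le_exp_sqrt {x : ℝ} (hx : 0 ≤ x) : x + 1 ≤ Real.exp (2 * Real.sqrt x) := by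
  have h1 : Real.sqrt x * Real.sqrt x = x := Real.mul_self_sqrt hx
  have h2 : 0 ≤ Real.sqrt x := Real.sqrt_nonneg _
  have h3 := Real.add_one_le_exp (Real.sqrt x)
  calc x + 1 ≤ (Real.sqrt x + 1) ^ 2 := by nlinarith
    _ ≤ (Real.exp (Real.sqrt x)) ^ 2 := pow_le_pow_left₀ (by linarith) h3 2
    _ = Real.exp (2 * Real.sqrt x) := by rw [← Real.exp_nat_mul]; norm_num

/-- the numerical bound for the booster event -/
theorem num_bst {n κ r₀ c k N : ℕ} {d q : ℝ} (hn : 1 ≤ n) (hd : 2800 ≤ d) (hdn : d ≤ n)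
    (hq0 : 0 ≤ q) (hq : d / n / 2 ≤ q) (hq2 : q ≤ d / n) (hκ : (κ : ℝ) ≤ 14 * k * d)
    (hN : N ≤ n ^ 2)
    (h1 : (20000 * (14 * k + r₀ : ℝ)) ^ 2 ≤ n) (h2 : (3200 * ((c : ℝ) + 1)) ^ 2 ≤ d) :
    ((n : ℝ) ^ 2 + 1) ^ (κ + r₀) *
        (d ^ ((c + 1) * n) * (1 + q / d) ^ N * Real.exp (-(q * ((n:ℝ) ^ 2 / 40) / 8)))
      ≤ Real.exp (-n) := by
  have hnR : (1:ℝ) ≤ n := by exact_mod_cast hn
  have hd0 : 0 < d := by linarith
  have hn0 : (0:ℝ) < n := by linarith
  have hsn : Real.sqrt n * Real.sqrt n = n := Real.mul_self_sqrt hn0.le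
  have hsd : Real.sqrt d * Real.sqrt d = d := Real.mul_self_sqrt hd0.le
  have hsn0 : 0 ≤ Real.sqrt n := Real.sqrt_nonneg _
  have hsd0 : 0 ≤ Real.sqrt d := Real.sqrt_nonneg _
  have g1 : 20000 * (14 * k + r₀ : ℝ) ≤ Real.sqrt n := by
    apply Real.le_sqrt_of_sq_le h1
  have g2 : 3200 * ((c : ℝ) + 1) ≤ Real.sqrt d := by
    apply Real.le_sqrt_of_sq_le h2
  -- first factor
  have f1 : ((n : ℝ) ^ 2 + 1) ^ (κ + r₀) ≤ Real.exp (d * n / 5000) := by
    have e1 : (n : ℝ) ^ 2 + 1 ≤ Real.exp (4 * Real.sqrt n) := by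
      have e2 := le_exp_sqrt hn0.le
      calc (n : ℝ) ^ 2 + 1 ≤ ((n : ℝ) + 1) ^ 2 := by nlinarith
        _ ≤ (Real.exp (2 * Real.sqrt n)) ^ 2 := pow_le_pow_left₀ (by linarith) e2 2
        _ = Real.exp (4 * Real.sqrt n) := by
          rw [← Real.exp_nat_mul]; congr 1; push_cast; ring
    calc ((n : ℝ) ^ 2 + 1) ^ (κ + r₀) ≤ (Real.exp (4 * Real.sqrt n)) ^ (κ + r₀) :=
          pow_le_pow_left₀ (by positivity) e1 _
      _ = Real.exp ((κ + r₀ : ℝ) * (4 * Real.sqrt n)) := by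
          rw [← Real.exp_nat_mul]; push_cast; ring_nf
      _ ≤ Real.exp (d * n / 5000) := by
          apply Real.exp_le_exp.mpr
          have e3 : (κ + r₀ : ℝ) ≤ d * (14 * k + r₀) := by
            have : (r₀ : ℝ) ≤ d * r₀ := by
              have : (0:ℝ) ≤ r₀ := by positivity
              nlinarith
            linarith
          have e4 : (κ + r₀ : ℝ) * (4 * Real.sqrt n) ≤ d * (14 * k + r₀) * (4 * Real.sqrt n) :=
            mul_le_mul_of_nonneg_right e3 (by positivity)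
          have e5 : d * (14 * k + r₀) * (4 * Real.sqrt n) ≤ d * (Real.sqrt n / 20000) *
              (4 * Real.sqrt n) := by
            apply mul_le_mul_of_nonneg_right _ (by positivity)
            apply mul_le_mul_of_nonneg_left _ hd0.le
            linarith
          have e6 : d * (Real.sqrt n / 20000) * (4 * Real.sqrt n) = d * n / 5000 := by
            have : d * (Real.sqrt n / 20000) * (4 * Real.sqrt n)
              = d * (Real.sqrt n * Real.sqrt n) / 5000 := by ring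
            rw [this, hsn]
          linarith
  have f2 : d ^ ((c + 1) * n) ≤ Real.exp (d * n / 1600) := by
    have e1 : d ≤ Real.exp (2 * Real.sqrt d) := by
      have := le_exp_sqrt hd0.le
      linarith
    calc d ^ ((c + 1) * n) ≤ (Real.exp (2 * Real.sqrt d)) ^ ((c + 1) * n) :=
          pow_le_pow_left₀ hd0.le e1 _
      _ = Real.exp (((c:ℝ) + 1) * n * (2 * Real.sqrt d)) := by
          rw [← Real.exp_nat_mul]; push_cast; ring_nf
      _ ≤ Real.exp (d * n / 1600) := by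
          apply Real.exp_le_exp.mpr
          have e2 : ((c:ℝ) + 1) * n * (2 * Real.sqrt d) ≤ (Real.sqrt d / 3200) * n *
              (2 * Real.sqrt d) := by
            apply mul_le_mul_of_nonneg_right _ (by positivity)
            apply mul_le_mul_of_nonneg_right _ hn0.le
            linarith
          have e3 : (Real.sqrt d / 3200) * n * (2 * Real.sqrt d) = d * n / 1600 := by
            have : (Real.sqrt d / 3200) * n * (2 * Real.sqrt d)
              = (Real.sqrt d * Real.sqrt d) * n / 1600 := by ring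
            rw [this, hsd]
          linarith
  have f3 : (1 + q / d) ^ N ≤ Real.exp n := by
    have e1 : 1 + q / d ≤ Real.exp (q / d) := by
      have := Real.add_one_le_exp (q / d)
      linarith
    calc (1 + q / d) ^ N ≤ (Real.exp (q / d)) ^ N := pow_le_pow_left₀ (by positivity) e1 _
      _ = Real.exp (N * (q / d)) := by rw [← Real.exp_nat_mul]
      _ ≤ Real.exp n := by
          apply Real.exp_le_exp.mpr
          have e2 : (N:ℝ) ≤ (n:ℝ) ^ 2 := by exact_mod_cast hN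
          have e3 : q / d ≤ 1 / n := by
            rw [div_le_div_iff₀ hd0 hn0]
            rw [le_div_iff₀ hn0] at hq2
            linarith
          calc (N:ℝ) * (q / d) ≤ (n:ℝ) ^ 2 * (1 / n) := by
                apply mul_le_mul e2 e3 (by positivity) (by positivity)
            _ = n := by field_simp
  have f4 : Real.exp (-(q * ((n:ℝ) ^ 2 / 40) / 8)) ≤ Real.exp (-(d * n / 640)) := by
    apply Real.exp_le_exp.mpr
    have e1 : d / n / 2 * ((n:ℝ) ^ 2 / 40) ≤ q * ((n:ℝ) ^ 2 / 40) :=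
      mul_le_mul_of_nonneg_right hq (by positivity)
    have e2 : d / n / 2 * ((n:ℝ) ^ 2 / 40) = d * n / 80 := by
      field_simp
      ring
    linarith
  calc ((n : ℝ) ^ 2 + 1) ^ (κ + r₀) *
        (d ^ ((c + 1) * n) * (1 + q / d) ^ N * Real.exp (-(q * ((n:ℝ) ^ 2 / 40) / 8)))
      ≤ Real.exp (d * n / 5000) * (Real.exp (d * n / 1600) * Real.exp n *
        Real.exp (-(d * n / 640))) := by
        apply mul_le_mul f1 _ (by positivity) (Real.exp_pos _).le
        apply mul_le_mul _ f4 (Real.exp_pos _).le (by positivity)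
        exact mul_le_mul f2 f3 (by positivity) (Real.exp_pos _).le
    _ = Real.exp (d * n / 5000 + (d * n / 1600 + n + -(d * n / 640))) := by
        rw [← Real.exp_add, ← Real.exp_add, ← Real.exp_add]
    _ ≤ Real.exp (-n) := by
        apply Real.exp_le_exp.mpr
        nlinarith

end Pool.Agent.Helper96.PC
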