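import Mathlib
import Pool.Agent.Helper96.PC.Num

set_option autoImplicit false
set_option linter.unusedSectionVars false
set_option linter.unusedVariables false
open Classical Finset

namespace Pool.Agent.Helper96.PC

variable {V : Type*} [Fintype V] [DecidableEq V]

/-- the exponential unit -/
noncomputable def uu (θ d : ℝ) : ℝ := d ^ 4 * Real.exp (-(2 * θ * d))

theorem uu_ge {θ d : ℝ} (hd1 : 1 ≤ d) (hθ : θ ≤ 1 / 800) (m : ℕ) (a : ℝ) (hm : m ≤ 4)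
    (ha : 1 / 400 ≤ a) : d ^ m * Real.exp (-(a * d)) ≤ uu θ d := by
  unfold uu
  apply mul_le_mul (pow_le_pow_right₀ hd1 hm) _ (Real.exp_pos _).le (by positivity)
  apply Real.exp_le_exp.mpr
  have h2 : 2 * θ * d ≤ a * d := mul_le_mul_of_nonneg_right (by linarith) (by linarith)
  linarith

theorem exp9 (x : ℝ) : Real.exp (9 - x) = Real.exp 9 * Real.exp (-x) := by
  rw [← Real.exp_add]; ring_nf

theorem n_exp {n : ℕ} {d : ℝ} (hnexp : (n:ℝ) ≤ Real.exp d) (x : ℝ) :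
    (n:ℝ) * Real.exp (-x) ≤ Real.exp (d - x) := by
  calc (n:ℝ) * Real.exp (-x) ≤ Real.exp d * Real.exp (-x) :=
        mul_le_mul_of_nonneg_right hnexp (Real.exp_pos _).le
    _ = Real.exp (d - x) := by rw [← Real.exp_add]; ring_nf

theorem poly_bound {n : ℕ} {d θ : ℝ} (hd1 : 1 ≤ d) (hθ : θ ≤ 1 / 800)
    (hnexp : (n:ℝ) ≤ Real.exp d) (m : ℕ) (hm : m ≤ 4) :
    (n:ℝ) * d ^ m * Real.exp (9 - 9 / 5 * d) ≤ Real.exp 9 * uu θ d := by
  have h3 := n_exp hnexp (9 / 5 * d)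
  have h4 := uu_ge hd1 hθ m (4 / 5) hm (by norm_num)
  have h5 : d - 9 / 5 * d = -(4 / 5 * d) := by ring
  rw [h5] at h3
  rw [exp9]
  calc (n:ℝ) * d ^ m * (Real.exp 9 * Real.exp (-(9 / 5 * d)))
      = Real.exp 9 * (d ^ m * ((n:ℝ) * Real.exp (-(9 / 5 * d)))) := by ring
    _ ≤ Real.exp 9 * (d ^ m * Real.exp (-(4 / 5 * d))) := by
        apply mul_le_mul_of_nonneg_left _ (Real.exp_pos _).le
        exact mul_le_mul_of_nonneg_left h3 (by positivity)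
    _ ≤ Real.exp 9 * uu θ d := mul_le_mul_of_nonneg_left h4 (Real.exp_pos _).le

theorem cyc_bound {d θ : ℝ} (hd1 : 1 ≤ d) (hθ : θ ≤ 1 / 800) :
    d ^ 4 * Real.exp (9 - 9 / 10 * d) ≤ Real.exp 9 * uu θ d := by
  have h4 := uu_ge hd1 hθ 4 (9 / 10) (by norm_num) (by norm_num)
  rw [exp9]
  calc d ^ 4 * (Real.exp 9 * Real.exp (-(9 / 10 * d)))
      = Real.exp 9 * (d ^ 4 * Real.exp (-(9 / 10 * d))) := by ring
    _ ≤ Real.exp 9 * uu θ d := mul_le_mul_of_nonneg_left h4 (Real.exp_pos _).le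

theorem exp_le_uu {d θ x : ℝ} (hd1 : 1 ≤ d) (hθ : θ ≤ 1 / 800) (hx : d ≤ x) :
    Real.exp (-x) ≤ 1 * uu θ d := by
  have h4 := uu_ge hd1 hθ 0 1 (by norm_num) (by norm_num)
  rw [pow_zero, one_mul] at h4
  rw [one_mul]
  refine le_trans (Real.exp_le_exp.mpr ?_) h4
  linarith

theorem max_bound {n : ℕ} {d θ : ℝ} (hd1 : 1 ≤ d) (hθ : θ ≤ 1 / 800)
    (hnexp : (n:ℝ) ≤ Real.exp d) :
    (n:ℝ) * (1 / 2 : ℝ) ^ (⌈6 * d⌉₊ + 1) ≤ 1 * uu θ d := by
  have h3 : (1 / 2 : ℝ) ^ (⌈6 * d⌉₊ + 1) ≤ Real.exp (-(3 * d)) := by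
    calc (1 / 2 : ℝ) ^ (⌈6 * d⌉₊ + 1) ≤ (Real.exp (-(1 / 2))) ^ (⌈6 * d⌉₊ + 1) :=
          pow_le_pow_left₀ (by norm_num) half_le_exp _
      _ = Real.exp (((⌈6 * d⌉₊ + 1 : ℕ) : ℝ) * (-(1 / 2))) := by rw [← Real.exp_nat_mul]
      _ ≤ Real.exp (-(3 * d)) := by
          apply Real.exp_le_exp.mpr
          push_cast
          have : 6 * d ≤ (⌈6 * d⌉₊ : ℝ) := Nat.le_ceil _
          linarith
  have h5 := n_exp hnexp (3 * d)
  have h6 : d - 3 * d = -(2 * d) := by ring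
  rw [h6] at h5
  calc (n:ℝ) * (1 / 2 : ℝ) ^ (⌈6 * d⌉₊ + 1) ≤ (n:ℝ) * Real.exp (-(3 * d)) :=
        mul_le_mul_of_nonneg_left h3 (by positivity)
    _ ≤ Real.exp (-(2 * d)) := h5
    _ ≤ 1 * uu θ d := exp_le_uu hd1 hθ (by linarith)

theorem loc_bound {n : ℕ} {p d θ β : ℝ} (h0 : 0 ≤ p) (h1 : p ≤ 1)
    (hd : d = Fintype.card V * p) (hn : 1 ≤ Fintype.card V) {M b : ℕ}
    (hθM : θ * (800 * ((M : ℝ) + 1)) = 1) (hθ0 : 0 < θ)
    (hβ : β = θ / 21) (hb : (b : ℝ) ≤ β * Fintype.card V) (hd1 : 1 ≤ d) (hdA4 : 1 / θ ≤ d)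
    (hdA3 : 3 / (β * θ) ≤ d) :
    Pr (allp V) p (BLoc ⌈d / 100⌉₊ M b) ≤ 2 * (Real.exp 1 / β) * uu θ d := by
  have hβ0 : 0 < β := by rw [hβ]; positivity
  have he3 : Real.exp 1 ≤ 3 := Real.exp_one_lt_d9.le.trans (by norm_num)
  have hθd : 1 ≤ θ * d := by
    rw [div_le_iff₀ hθ0] at hdA4
    linarith
  have hd0 : 0 < d := by linarith
  have hρ : Real.exp 1 / β * Real.exp (-(2 * (θ * d))) ≤ 1 / 2 := by
    have e1 : Real.exp (-(2 * (θ * d))) ≤ 1 / (2 * (θ * d)) := by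
      rw [Real.exp_neg, ← one_div]
      apply one_div_le_one_div_of_le (by positivity)
      have := Real.add_one_le_exp (2 * (θ * d))
      linarith
    calc Real.exp 1 / β * Real.exp (-(2 * (θ * d))) ≤ 3 / β * (1 / (2 * (θ * d))) := by
          apply mul_le_mul _ e1 (Real.exp_pos _).le (by positivity)
          exact div_le_div_of_nonneg_right he3 hβ0.le
      _ ≤ 1 / 2 := by
          rw [div_mul_div_comm, div_le_div_iff₀ (by positivity) (by norm_num)]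
          rw [div_le_iff₀ (by positivity)] at hdA3
          linarith
  have h2 := Pr_loc (b := b) h0 h1 hd hn hθ0 hβ hb hθd hρ
  refine le_trans (Pr_mono h0 h1 ?_) (h2.trans ?_)
  · rintro E _ ⟨Y, hY, hYb, hYE⟩
    refine ⟨Y, hY, hYb, ?_⟩
    have e1 : (⌈d / 100⌉₊ : ℝ) * Y.card ≤ 8 * ((M:ℝ) + 1) * (ins E Y).card := by
      exact_mod_cast hYE
    have e2 : d / 100 * Y.card ≤ (⌈d / 100⌉₊ : ℝ) * Y.card :=
      mul_le_mul_of_nonneg_right (Nat.le_ceil _) (by positivity)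
    have e3 : d / 100 * Y.card ≤ 8 * ((M:ℝ) + 1) * (ins E Y).card := e2.trans e1
    have e4 : θ * (d * Y.card) ≤ θ * (800 * ((M:ℝ) + 1) * (ins E Y).card) := by
      apply mul_le_mul_of_nonneg_left _ hθ0.le
      linarith
    calc θ * d * Y.card = θ * (d * Y.card) := by ring
      _ ≤ θ * (800 * ((M:ℝ) + 1) * (ins E Y).card) := e4
      _ = (θ * (800 * ((M:ℝ) + 1))) * (ins E Y).card := by ring
      _ = (ins E Y).card := by rw [hθM, one_mul]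
  · have h4 : Real.exp (-(2 * (θ * d))) ≤ uu θ d := by
      unfold uu
      have : -(2 * (θ * d)) = -(2 * θ * d) := by ring
      rw [this]
      exact le_mul_of_one_le_left (Real.exp_pos _).le (one_le_pow₀ hd1)
    calc 2 * (Real.exp 1 / β * Real.exp (-(2 * (θ * d))))
        = 2 * (Real.exp 1 / β) * Real.exp (-(2 * (θ * d))) := by ring
      _ ≤ 2 * (Real.exp 1 / β) * uu θ d := mul_le_mul_of_nonneg_left h4 (by positivity)

theorem few_bound {q d θ : ℝ} (hq0 : 0 ≤ q) (hq1 : q ≤ 1) (hd : 2800 ≤ d)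
    (hθ : θ ≤ 1 / 800) (hn : 2 ≤ Fintype.card V) (hqnd : d / 2 ≤ q * Fintype.card V)
    (hΔ7 : (⌈6 * d⌉₊ : ℝ) ≤ 7 * d) :
    Pr (allp V) q (BFew ⌈d / 100⌉₊ ⌈6 * d⌉₊) ≤ 7 * uu θ d := by
  have hnR : (2:ℝ) ≤ Fintype.card V := by exact_mod_cast hn
  have hqn8 : d / 4 ≤ q * ((Fintype.card V:ℝ) - 1) := by
    have h1 : (Fintype.card V:ℝ) / 2 ≤ Fintype.card V - 1 := by linarith
    have h2 : q * ((Fintype.card V:ℝ) / 2) ≤ q * ((Fintype.card V:ℝ) - 1) :=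
      mul_le_mul_of_nonneg_left h1 hq0
    linarith
  have hΔ0 : 0 < ⌈6 * d⌉₊ := Nat.ceil_pos.mpr (by linarith)
  have hσ : (⌈d / 100⌉₊ : ℝ) ≤ q * (Fintype.card V - 1) / 2 := by
    have : (⌈d / 100⌉₊ : ℝ) < d / 100 + 1 := Nat.ceil_lt_add_one (by linarith)
    linarith
  have h2 := Pr_few (V := V) hq0 hq1 (by omega) hΔ0 hσ
  unfold BFew
  refine le_trans (le_trans (le_of_eq ?_) h2) ?_
  · apply Pr_congr
    intro E _
    convert Iff.rfl
  have h4 := uu_ge (show 1 ≤ d by linarith) hθ 1 (1 / 32) (by norm_num) (by norm_num)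
  calc (⌈6 * d⌉₊ : ℝ) * Real.exp (-(q * ((Fintype.card V:ℝ) - 1) / 8))
      ≤ (7 * d) * Real.exp (-(1 / 32 * d)) := by
        apply mul_le_mul hΔ7 _ (Real.exp_pos _).le (by linarith)
        apply Real.exp_le_exp.mpr
        linarith
    _ = 7 * (d ^ 1 * Real.exp (-(1 / 32 * d))) := by ring
    _ ≤ 7 * uu θ d := mul_le_mul_of_nonneg_left h4 (by norm_num)

theorem big_bound {q d θ β k : ℝ} (hq0 : 0 ≤ q) (hq1 : q ≤ 1) (hd1 : 1 ≤ d)
    (hdn : d ≤ Fintype.card V)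
    (hθ : θ ≤ 1 / 800) (hqnd : d / 2 ≤ q * Fintype.card V) {κ M b : ℕ}
    (hκR : (κ : ℝ) ≤ 14 * k * d)
    (hb1 : 280 * k * ((M:ℝ) + 1) ≤ b) (hb2 : 240 * ((M:ℝ) + 1) * Fintype.card V ≤ d * b) :
    Pr (allp V) q (BBig κ M b) ≤ 1 * uu θ d := by
  have hd0 : 0 < d := by linarith
  have hbig1 : d * (b : ℝ) / (10 * ((M:ℝ) + 1)) ≤
      q * (((b : ℝ) / ((M:ℝ) + 1)) * (Fintype.card V / 5)) := by
    have e1 : q * (((b : ℝ) / ((M:ℝ) + 1)) * (Fintype.card V / 5))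
        = (q * Fintype.card V) * (((b : ℝ) / (5 * ((M:ℝ) + 1)))) := by
      field_simp
    rw [e1]
    calc d * (b : ℝ) / (10 * ((M:ℝ) + 1))
        = (d / 2) * (((b : ℝ) / (5 * ((M:ℝ) + 1)))) := by field_simp; ring
      _ ≤ (q * Fintype.card V) * (((b : ℝ) / (5 * ((M:ℝ) + 1)))) :=
          mul_le_mul_of_nonneg_right hqnd (by positivity)
  have hκ' : (κ : ℝ) ≤ q * (((b : ℝ) / ((M:ℝ) + 1)) * (Fintype.card V / 5)) / 2 := by
    have e2 : 28 * k * d ≤ d * (b : ℝ) / (10 * ((M:ℝ) + 1)) := by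
      rw [le_div_iff₀ (by positivity)]
      have e4 : d * (280 * k * ((M:ℝ) + 1)) ≤ d * (b : ℝ) :=
        mul_le_mul_of_nonneg_left hb1 hd0.le
      linarith
    linarith
  have h2 := Pr_big (V := V) (b := b) (M := M) hq0 hq1 hκ'
  refine le_trans h2 ?_
  refine le_trans ?_ (exp_le_uu hd1 hθ hdn)
  have e4 : (4:ℝ) ^ Fintype.card V ≤ Real.exp (2 * Fintype.card V) := by
    have e5 : (4:ℝ) ≤ Real.exp 2 := by
      have h8 : (2.7:ℝ) ≤ Real.exp 1 := le_trans (by norm_num) Real.exp_one_gt_d9.le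
      calc (4:ℝ) ≤ 2.7 ^ 2 := by norm_num
        _ ≤ (Real.exp 1) ^ 2 := pow_le_pow_left₀ (by norm_num) h8 2
        _ = Real.exp 2 := by rw [← Real.exp_nat_mul]; norm_num
    calc (4:ℝ) ^ Fintype.card V ≤ (Real.exp 2) ^ Fintype.card V :=
          pow_le_pow_left₀ (by norm_num) e5 _
      _ = Real.exp (2 * Fintype.card V) := by rw [← Real.exp_nat_mul]; ring_nf
  have e6 : Real.exp (-(q * (((b : ℝ) / ((M:ℝ) + 1)) * (Fintype.card V / 5)) / 8))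
      ≤ Real.exp (-(3 * Fintype.card V)) := by
    apply Real.exp_le_exp.mpr
    have e7 : 24 * (Fintype.card V:ℝ) ≤ d * (b : ℝ) / (10 * ((M:ℝ) + 1)) := by
      rw [le_div_iff₀ (by positivity)]
      linarith
    linarith
  calc (4:ℝ) ^ Fintype.card V *
        Real.exp (-(q * (((b : ℝ) / ((M:ℝ) + 1)) * (Fintype.card V / 5)) / 8))
      ≤ Real.exp (2 * Fintype.card V) * Real.exp (-(3 * Fintype.card V)) :=
        mul_le_mul e4 e6 (Real.exp_pos _).le (Real.exp_pos _).le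
    _ = Real.exp (-(Fintype.card V:ℝ)) := by rw [← Real.exp_add]; ring_nf

theorem bst_bound {q d θ : ℝ} (hq0 : 0 ≤ q) (hq1 : q ≤ 1) (hd : 2800 ≤ d)
    (hdn : d ≤ Fintype.card V)
    (hθ : θ ≤ 1 / 800) (hqn : d / Fintype.card V / 2 ≤ q) (hqn2 : q ≤ d / Fintype.card V)
    {κ r₀ c k : ℕ}
    (hκR : (κ : ℝ) ≤ 14 * k * d)
    (hnA1 : (20000 * (14 * k + r₀ : ℝ)) ^ 2 ≤ Fintype.card V)
    (hdA6 : (3200 * ((c : ℝ) + 1)) ^ 2 ≤ d)
    (hnA4 : 160 * ((c:ℝ) + 1) ≤ Fintype.card V) (hnA5 : 2240 * (k:ℝ) ≤ Fintype.card V)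
    (E₁ : Finset (Sym2 V)) :
    Pr (allp V) q (BBst κ r₀ ((c + 1) * Fintype.card V) E₁) ≤ 1 * uu θ d := by
  have hd0 : 0 < d := by linarith
  have hn0 : (0:ℝ) < Fintype.card V := by linarith
  have hn1 : 1 ≤ Fintype.card V := by exact_mod_cast hn0
  have hqnd : d / 2 ≤ q * Fintype.card V := by
    have := mul_le_mul_of_nonneg_right hqn hn0.le
    have e1 : d / Fintype.card V / 2 * Fintype.card V = d / 2 := by field_simp
    linarith
  have hm : (Fintype.card V:ℝ) ^ 2 / 40 + ((c + 1) * Fintype.card V : ℕ)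
      ≤ (Fintype.card V : ℝ) ^ 2 / 32 := by
    push_cast
    have : 160 * ((c:ℝ) + 1) * Fintype.card V ≤ Fintype.card V * Fintype.card V :=
      mul_le_mul_of_nonneg_right hnA4 (by positivity)
    linarith
  have hκ' : (κ : ℝ) ≤ q * ((Fintype.card V:ℝ) ^ 2 / 40) / 2 := by
    have e1 : d / 2 * Fintype.card V ≤ q * Fintype.card V * Fintype.card V :=
      mul_le_mul_of_nonneg_right hqnd (by positivity)
    have e2 : 2240 * (k:ℝ) * d ≤ Fintype.card V * d := mul_le_mul_of_nonneg_right hnA5 hd0.le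
    linarith
  have h2 := Pr_bst (V := V) (r₀ := r₀) hq0 hq1 (show 1 ≤ d by linarith) E₁ hm hκ'
  refine le_trans h2 ?_
  refine le_trans ?_ (exp_le_uu (by linarith) hθ hdn)
  exact num_bst hn1 hd hdn hq0 hqn hqn2 hκR card_allp_le hnA1 hdA6

end Pool.Agent.Helper96.PC
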