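import Mathlib
import Pool.Agent.Helper96.PC.MainA

set_option autoImplicit false
set_option linter.unusedSectionVars false
set_option linter.unusedVariables false
open Classical Finset

namespace Pool.Agent.Helper96.PC

variable {V : Type*} [Fintype V] [DecidableEq V]

/-- all the parts together -/
theorem core_bound {k r K c : ℕ} {θ β p : ℝ} (hk : 2 ≤ k)
    (hr : r = (k - 1) * (k + k * (33600 * k + k)))
    (hK : K = 33600 * k + (r + 2 * r * (r + 1)) + 40 * r + 20 * k + 4)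
    (hc : c = 7 * (5600 * k) + 1) (hθ0 : 0 < θ) (hθ1 : θ ≤ 1 / 800)
    (hθM : θ * (800 * (((5 + 33600 * k : ℕ) : ℝ) + 1)) = 1) (hβ : β = θ / 21)
    (h0 : 0 ≤ p) (h1 : p ≤ 1) {d : ℝ} (hd : d = Fintype.card V * p)
    (hnexp : (Fintype.card V : ℝ) ≤ Real.exp d)
    (hdA1 : 100 * (K:ℝ) ≤ d) (hdA2 : 2800 ≤ d) (hdA3 : 3 / (β * θ) ≤ d) (hdA4 : 1 / θ ≤ d)
    (hdA5 : 480 * (((5 + 33600 * k : ℕ) : ℝ) + 1) / β ≤ d)
    (hnA1 : (20000 * (14 * k + ((2 * r : ℕ) : ℝ))) ^ 2 ≤ d)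
    (hdA6 : (3200 * ((c : ℝ) + 1)) ^ 2 ≤ d)
    (hnA2 : 560 * k * (((5 + 33600 * k : ℕ) : ℝ) + 1) / β ≤ d)
    (hnA3 : 2 / β ≤ d) (hnA4 : 160 * ((c:ℝ) + 1) ≤ d) (hnA5 : 2240 * (k:ℝ) ≤ d) :
    1 - (Fintype.card V * ((1 + d) * Real.exp (2 - d)) +
      (4 * Real.exp 9 + 2 * (Real.exp 1 / β) + 10) * uu θ d)
      ≤ Pr (allp V) p (fun E => 0 < mE E k ∧ fE E k = mE E k) := by
  have hβ0 : 0 < β := by rw [hβ]; positivity
  have hβ1 : β ≤ 1 / 4 := by rw [hβ]; linarith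
  have hd0 : 0 < d := by linarith
  have hd1 : 1 ≤ d := by linarith
  have hdn : d ≤ Fintype.card V := by
    rw [hd]
    exact mul_le_of_le_one_right (by positivity) h1
  have hnR : (2800:ℝ) ≤ Fintype.card V := by linarith
  have hn0 : (0:ℝ) < Fintype.card V := by linarith
  have hn2800 : 2800 ≤ Fintype.card V := by exact_mod_cast hnR
  have hKn : K ≤ Fintype.card V := by
    have : (K:ℝ) ≤ Fintype.card V := by linarith
    exact_mod_cast this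
  obtain ⟨q, hqdef⟩ : ∃ q : ℝ, q = 1 - Real.sqrt (1 - p) := ⟨_, rfl⟩
  obtain ⟨hq2, hqp, hqq⟩ := sqrt_facts h0 h1 hqdef
  have hq0 : 0 ≤ q := by linarith
  have hq1 : q ≤ 1 := by linarith
  have hn10 : 10 ≤ Fintype.card V := by omega
  have hΔ7 : (⌈6 * d⌉₊ : ℝ) ≤ 7 * d := by
    have : (⌈6 * d⌉₊ : ℝ) < 6 * d + 1 := Nat.ceil_lt_add_one (by linarith)
    linarith
  have hκR : ((2 * k * ⌈6 * d⌉₊ : ℕ) : ℝ) ≤ 14 * k * d := by
    push_cast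
    have := mul_le_mul_of_nonneg_left hΔ7 (show (0:ℝ) ≤ 2 * k by positivity)
    linarith
  have hpd : d / Fintype.card V = p := by rw [hd]; field_simp
  have hqn : d / Fintype.card V / 2 ≤ q := by rw [hpd]; exact hq2
  have hqn2 : q ≤ d / Fintype.card V := by rw [hpd]; exact hqp
  have hqnd : d / 2 ≤ q * Fintype.card V := by
    have := mul_le_mul_of_nonneg_right hq2 hn0.le
    rw [hd]; linarith
  have hb0 : (⌊β * Fintype.card V⌋₊ : ℝ) ≤ β * Fintype.card V := Nat.floor_le (by positivity)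
  have hbfl : β * Fintype.card V / 2 ≤ (⌊β * Fintype.card V⌋₊ : ℝ) := by
    have h2 : β * Fintype.card V - 1 < (⌊β * Fintype.card V⌋₊ : ℝ) := Nat.sub_one_lt_floor _
    have h3 : 2 ≤ β * Fintype.card V := by
      rw [div_le_iff₀ hβ0] at hnA3
      have : d * β ≤ Fintype.card V * β := mul_le_mul_of_nonneg_right hdn hβ0.le
      linarith
    linarith
  have hM1 : (0:ℝ) < ((5 + 33600 * k : ℕ) : ℝ) + 1 := by positivity
  have hb1 : 280 * k * (((5 + 33600 * k : ℕ) : ℝ) + 1) ≤ (⌊β * Fintype.card V⌋₊ : ℝ) := by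
    rw [div_le_iff₀ hβ0] at hnA2
    have : d * β ≤ Fintype.card V * β := mul_le_mul_of_nonneg_right hdn hβ0.le
    linarith
  have hb2 : 240 * (((5 + 33600 * k : ℕ) : ℝ) + 1) * Fintype.card V
      ≤ d * (⌊β * Fintype.card V⌋₊ : ℝ) := by
    rw [div_le_iff₀ hβ0] at hdA5
    have e8 : d * (β * Fintype.card V / 2) ≤ d * (⌊β * Fintype.card V⌋₊ : ℝ) :=
      mul_le_mul_of_nonneg_left hbfl hd0.le
    have e9 : 480 * (((5 + 33600 * k : ℕ) : ℝ) + 1) * Fintype.card V ≤ d * β * Fintype.card V :=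
      mul_le_mul_of_nonneg_right hdA5 hn0.le
    linarith
  have g1 : Pr (allp V) p BTwo ≤ Fintype.card V * ((1 + d) * Real.exp (2 - d)) :=
    Pr_deg_one h0 h1 hd (by omega)
  have g2 : Pr (allp V) p (BSm1 ⌈d / 100⌉₊) ≤ Real.exp 9 * uu θ d := by
    have h3 := poly_bound hd1 hθ1 hnexp 1 (by norm_num)
    rw [pow_one] at h3
    exact (Pr_sm1 h0 h1 hd hn10).trans h3
  have g3 : Pr (allp V) p (BSm2 ⌈d / 100⌉₊) ≤ Real.exp 9 * uu θ d :=
    (Pr_sm2 h0 h1 hd hn10).trans (poly_bound hd1 hθ1 hnexp 2 (by norm_num))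
  have g4 : Pr (allp V) p (BCyc ⌈d / 100⌉₊) ≤ Real.exp 9 * uu θ d :=
    (Pr_cyc4 h0 h1 hd hn10).trans (cyc_bound hd1 hθ1)
  have g5 : Pr (allp V) p (BPath ⌈d / 100⌉₊) ≤ Real.exp 9 * uu θ d :=
    (Pr_path4 h0 h1 hd hn10).trans (poly_bound hd1 hθ1 hnexp 4 (by norm_num))
  have g6 : Pr (allp V) p (BMax ⌈6 * d⌉₊) ≤ 1 * uu θ d :=
    (Pr_max h0 h1 hd).trans (max_bound hd1 hθ1 hnexp)
  have g7 : Pr (allp V) p (BLoc ⌈d / 100⌉₊ (5 + 33600 * k) ⌊β * Fintype.card V⌋₊)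
      ≤ 2 * (Real.exp 1 / β) * uu θ d :=
    loc_bound (n := Fintype.card V) h0 h1 hd (by omega) hθM hθ0 hβ hb0 hd1 hdA4 hdA3
  have g8 : Pr (allp V) q (BFew ⌈d / 100⌉₊ ⌈6 * d⌉₊) ≤ 7 * uu θ d :=
    few_bound hq0 hq1 hdA2 hθ1 (by omega) hqnd hΔ7
  have g9 : Pr (allp V) q (BBig (2 * k * ⌈6 * d⌉₊) (5 + 33600 * k) ⌊β * Fintype.card V⌋₊)
      ≤ 1 * uu θ d :=
    big_bound (k := k) (β := β) hq0 hq1 hd1 hdn hθ1 hqnd hκR hb1 hb2
  have g10 : ∀ E₁ : Finset (Sym2 V), Pr (allp V) q (BBst (2 * k * ⌈6 * d⌉₊) (2 * r)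
      ((c + 1) * Fintype.card V) E₁) ≤ 1 * uu θ d := fun E₁ =>
    bst_bound (k := k) hq0 hq1 hdA2 hdn hθ1 hqn hqn2 hκR (by linarith) hdA6 (by linarith)
      (by linarith) E₁
  have hcc : Fintype.card V + 5600 * k * ⌈6 * d⌉₊ ≤ c * Fintype.card V := by
    have e1 : (⌈6 * d⌉₊ : ℝ) ≤ 7 * Fintype.card V := by linarith
    have e2 : ⌈6 * d⌉₊ ≤ 7 * Fintype.card V := by exact_mod_cast e1
    have e3 : 5600 * k * ⌈6 * d⌉₊ ≤ 5600 * k * (7 * Fintype.card V) := Nat.mul_le_mul_left _ e2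
    calc Fintype.card V + 5600 * k * ⌈6 * d⌉₊
        ≤ Fintype.card V + 5600 * k * (7 * Fintype.card V) := Nat.add_le_add_left e3 _
      _ = c * Fintype.card V := by rw [hc]; ring
  have hparams := params_ok hk hr hK hKn hdA1 hβ0.le hβ1
  have hfin := fail_le (V := V) h0 h1 hq0 hq1 hqq hcc hparams g1 g2 g3 g4 g5 g6 g7 g8 g9 g10
  refine le_trans (le_of_eq ?_) hfin
  ring

/-- quantitative form of the main theorem -/
theorem main_bound (k : ℕ) (hk : 2 ≤ k) : ∃ C γ A : ℝ, 0 < γ ∧ ∀ (W : Type) [Fintype W]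
    [DecidableEq W] (p : ℝ), 0 ≤ p → p ≤ 1 → A ≤ Fintype.card W * p →
    (Fintype.card W : ℝ) ≤ Real.exp (Fintype.card W * p) →
    1 - (Fintype.card W * ((1 + Fintype.card W * p) * Real.exp (2 - Fintype.card W * p)) +
      C * ((Fintype.card W * p) ^ 4 * Real.exp (-(γ * (Fintype.card W * p)))))
      ≤ Pr (allp W) p (fun E => 0 < mE E k ∧ fE E k = mE E k) := by
  obtain ⟨r, hr⟩ : ∃ r : ℕ, r = (k - 1) * (k + k * (33600 * k + k)) := ⟨_, rfl⟩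
  obtain ⟨K, hK⟩ : ∃ K : ℕ, K = 33600 * k + (r + 2 * r * (r + 1)) + 40 * r + 20 * k + 4 := ⟨_, rfl⟩
  obtain ⟨c, hc⟩ : ∃ c : ℕ, c = 7 * (5600 * k) + 1 := ⟨_, rfl⟩
  obtain ⟨M', hM'⟩ : ∃ M' : ℝ, M' = ((5 + 33600 * k : ℕ) : ℝ) + 1 := ⟨_, rfl⟩
  have hM0 : 1 ≤ M' := by
    rw [hM']
    have : (0:ℝ) ≤ ((5 + 33600 * k : ℕ) : ℝ) := Nat.cast_nonneg _
    linarith
  obtain ⟨θ, hθ⟩ : ∃ θ : ℝ, θ = 1 / (800 * M') := ⟨_, rfl⟩
  obtain ⟨β, hβ⟩ : ∃ β : ℝ, β = θ / 21 := ⟨_, rfl⟩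
  have hθ0 : 0 < θ := by rw [hθ]; positivity
  have hθM : θ * (800 * M') = 1 := by
    rw [hθ]; field_simp
  have hθ1 : θ ≤ 1 / 800 := by
    rw [hθ]
    apply one_div_le_one_div_of_le (by norm_num)
    linarith
  have hβ0 : 0 < β := by rw [hβ]; positivity
  obtain ⟨A, hA⟩ : ∃ A : ℝ, A = 100 * K + 2800 + 3 / (β * θ) + 1 / θ + 480 * M' / β +
    (20000 * (14 * k + ((2 * r : ℕ) : ℝ))) ^ 2 + (3200 * ((c : ℝ) + 1)) ^ 2 +
      560 * k * M' / β + 2 / β + 160 * (c + 1) + 2240 * k := ⟨_, rfl⟩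
  have p1 : 0 ≤ 100 * (K:ℝ) := by positivity
  have p2 : 0 ≤ 3 / (β * θ) := by positivity
  have p3 : 0 ≤ 1 / θ := by positivity
  have p4 : 0 ≤ 480 * M' / β := by positivity
  have p5 : 0 ≤ (20000 * (14 * k + ((2 * r : ℕ) : ℝ))) ^ 2 := by positivity
  have p6 : 0 ≤ (3200 * ((c : ℝ) + 1)) ^ 2 := by positivity
  have p7 : 0 ≤ 560 * k * M' / β := by positivity
  have p8 : 0 ≤ 2 / β := by positivity
  have p9 : 0 ≤ 160 * ((c:ℝ) + 1) := by positivity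
  have p10 : 0 ≤ 2240 * (k:ℝ) := by positivity
  refine ⟨4 * Real.exp 9 + 2 * (Real.exp 1 / β) + 10, 2 * θ, A, by positivity, ?_⟩
  intro W _ _ p h0 h1 hAd hnexp
  rw [hM'] at hA p4 p7 hθM
  have := core_bound (V := W) hk hr hK hc hθ0 hθ1 hθM hβ h0 h1 rfl hnexp
    (by linarith) (by linarith) (by linarith) (by linarith) (by linarith) (by linarith)
    (by linarith) (by linarith) (by linarith) (by linarith) (by linarith)
  unfold uu at this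
  exact this

end Pool.Agent.Helper96.PC
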