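import Mathlib
import Pool.Agent.Helper96.PC.MainB

set_option autoImplicit false
set_option linter.unusedSectionVars false
set_option linter.unusedVariables false
open Classical Finset Filter Topology

namespace Pool.Agent.Helper96.PC

theorem tendsto_pow_exp {γ : ℝ} (hγ : 0 < γ) (m : ℕ) :
    Tendsto (fun x : ℝ => x ^ m * Real.exp (-(γ * x))) atTop (𝓝 0) := by
  have h1 := (Real.tendsto_pow_mul_exp_neg_atTop_nhds_zero m).comp
    (tendsto_id.const_mul_atTop hγ)
  have h2 := h1.const_mul ((1 / γ) ^ m)
  rw [mul_zero] at h2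
  refine h2.congr (fun x => ?_)
  simp only [Function.comp, id]
  rw [← mul_assoc, ← mul_pow]
  congr 2
  field_simp

theorem tendsto_lin_exp : Tendsto (fun w : ℝ => Real.exp 2 * ((3 + w) * Real.exp (-w))) atTop
    (𝓝 0) := by
  have h1 := (Real.tendsto_pow_mul_exp_neg_atTop_nhds_zero 1)
  have h0 := (Real.tendsto_pow_mul_exp_neg_atTop_nhds_zero 0)
  have h2 := ((h0.const_mul 3).add h1).const_mul (Real.exp 2)
  simp only [mul_zero, add_zero] at h2
  refine h2.congr (fun x => ?_)
  ring

/-- the bound for degree-one vertices near the threshold -/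
theorem one_bound {n : ℕ} (hn : 3 ≤ n) {d w : ℝ} (hw : 0 ≤ w)
    (hd : d = w + Real.log n + Real.log (Real.log n)) :
    (n:ℝ) * ((1 + d) * Real.exp (2 - d)) ≤ Real.exp 2 * ((3 + w) * Real.exp (-w)) := by
  have hnR : (3:ℝ) ≤ n := by exact_mod_cast hn
  have hn0 : (0:ℝ) < n := by linarith
  have hl1 : 1 ≤ Real.log n := by
    rw [Real.le_log_iff_exp_le hn0]
    have := Real.exp_one_lt_d9.le
    linarith
  have hl0 : 0 < Real.log n := by linarith
  have hll : Real.log (Real.log n) ≤ Real.log n := by
    have := Real.log_le_sub_one_of_pos hl0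
    linarith
  have h1 : Real.exp (2 - d) = Real.exp 2 * Real.exp (-w) / (n * Real.log n) := by
    have : 2 - d = 2 + (-w) + (-Real.log n) + (-Real.log (Real.log n)) := by rw [hd]; ring
    rw [this, Real.exp_add, Real.exp_add, Real.exp_add, Real.exp_neg (Real.log n),
      Real.exp_neg (Real.log (Real.log n)), Real.exp_log hn0, Real.exp_log hl0]
    field_simp
  rw [h1]
  have h2 : (1 + d) / Real.log n ≤ 3 + w := by
    rw [div_le_iff₀ hl0, hd]
    nlinarith
  calc (n:ℝ) * ((1 + d) * (Real.exp 2 * Real.exp (-w) / (n * Real.log n)))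
      = Real.exp 2 * ((1 + d) / Real.log n * Real.exp (-w)) := by field_simp
    _ ≤ Real.exp 2 * ((3 + w) * Real.exp (-w)) := by
        apply mul_le_mul_of_nonneg_left _ (Real.exp_pos _).le
        exact mul_le_mul_of_nonneg_right h2 (Real.exp_pos _).le

theorem log_cast_tendsto : Tendsto (fun n : ℕ => Real.log n) atTop atTop :=
  Real.tendsto_log_atTop.comp tendsto_natCast_atTop_atTop

/-- `f_k = m_k` with high probability -/
theorem lim_one {k : ℕ} (hk : 2 ≤ k) {p : ℕ → ℝ} (hp : ∀ n, 0 ≤ p n ∧ p n ≤ 1)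
    (hw : Tendsto (fun n : ℕ => (n:ℝ) * p n - Real.log n - Real.log (Real.log n)) atTop atTop) :
    Tendsto (fun n : ℕ => Pr (allp (Fin n)) (p n)
      (fun E => 0 < mE E k ∧ fE E k = mE E k)) atTop (𝓝 1) := by
  obtain ⟨C, γ, A, hγ, hmain⟩ := main_bound k hk
  have hdtop : Tendsto (fun n : ℕ => (n:ℝ) * p n) atTop atTop := by
    apply tendsto_atTop_mono' atTop _ log_cast_tendsto
    filter_upwards [hw.eventually_ge_atTop 0, eventually_ge_atTop 3] with n h1 h2
    have hnR : (3:ℝ) ≤ n := by exact_mod_cast h2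
    have hl1 : 1 ≤ Real.log n := by
      rw [Real.le_log_iff_exp_le (by linarith)]
      have := Real.exp_one_lt_d9.le
      linarith
    have := Real.log_nonneg hl1
    linarith
  have hx : Tendsto (fun n : ℕ => (n:ℝ) * ((1 + n * p n) * Real.exp (2 - n * p n))) atTop
      (𝓝 0) := by
    have hup := tendsto_lin_exp.comp hw
    apply squeeze_zero' _ _ hup
    · filter_upwards [] with n
      have := (hp n).1
      positivity
    · filter_upwards [hw.eventually_ge_atTop 0, eventually_ge_atTop 3] with n h1 h2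
      exact one_bound h2 h1 (by ring)
  have hy : Tendsto (fun n : ℕ => C * (((n:ℝ) * p n) ^ 4 * Real.exp (-(γ * (n * p n))))) atTop
      (𝓝 0) := by
    have := ((tendsto_pow_exp hγ 4).comp hdtop).const_mul C
    rw [mul_zero] at this
    exact this
  have hlow : Tendsto (fun n : ℕ => 1 - ((n:ℝ) * ((1 + n * p n) * Real.exp (2 - n * p n)) +
      C * (((n:ℝ) * p n) ^ 4 * Real.exp (-(γ * (n * p n)))))) atTop (𝓝 1) := by
    have := (hx.add hy).const_sub 1
    rw [add_zero, sub_zero] at this
    exact this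
  apply tendsto_of_tendsto_of_tendsto_of_le_of_le' hlow tendsto_const_nhds
  · filter_upwards [hdtop.eventually_ge_atTop A, hw.eventually_ge_atTop 0,
      eventually_ge_atTop 3] with n h1 h2 h3
    have hnR : (3:ℝ) ≤ n := by exact_mod_cast h3
    have hl1 : 1 ≤ Real.log n := by
      rw [Real.le_log_iff_exp_le (by linarith)]
      have := Real.exp_one_lt_d9.le
      linarith
    have hll := Real.log_nonneg hl1
    have hexp : (n:ℝ) ≤ Real.exp (n * p n) := by
      rw [← Real.log_le_iff_le_exp (by linarith)]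
      linarith
    have := hmain (Fin n) (p n) (hp n).1 (hp n).2 (by rw [Fintype.card_fin]; exact h1)
      (by rw [Fintype.card_fin]; exact hexp)
    rw [Fintype.card_fin] at this
    exact this
  · filter_upwards [] with n
    exact Pr_le_one (hp n).1 (hp n).2 _

end Pool.Agent.Helper96.PC
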