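import Mathlib
import Pool.Agent.Helper96.PC.Lim

set_option autoImplicit false
set_option linter.unusedSectionVars false
set_option linter.unusedVariables false
open Classical Finset Filter Topology

namespace Pool.Agent.Helper96.PC

section
variable {α : Type*} [DecidableEq α] {U : Finset α} {q : ℝ}

/-- the rate function -/
noncomputable def rate (x : ℝ) : ℝ := x * Real.log x - x + 1

theorem rate_pos {x : ℝ} (hx : 0 < x) (hx1 : x ≠ 1) : 0 < rate x := by
  unfold rate
  have h1 : Real.log (1 / x) < 1 / x - 1 := Real.log_lt_sub_one_of_pos (by positivity) (by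
    intro h
    rw [div_eq_one_iff_eq hx.ne'] at h
    exact hx1 h.symm)
  rw [one_div, Real.log_inv] at h1
  have h2 : x * (-Real.log x) < x * (x⁻¹ - 1) := mul_lt_mul_of_pos_left h1 hx
  have h3 : x * (x⁻¹ - 1) = 1 - x := by field_simp
  linarith

theorem Ex_pow_inter (h0 : 0 ≤ q) (h1 : q ≤ 1) {T : Finset α} (hT : T ⊆ U) {x : ℝ}
    (hx : 0 < x) : Ex U q (fun E => x ^ (E ∩ T).card) ≤ Real.exp (q * T.card * (x - 1)) := by
  have h2 : Ex U q (fun E => x ^ (E ∩ T).card) = Ex T q (fun E => x ^ E.card) := by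
    rw [Ex_marg hT]
    · apply Ex_congr
      intro E hE
      rw [Finset.inter_eq_left.mpr hE]
    · intro E _
      simp only [Finset.inter_assoc, Finset.inter_self]
  rw [h2, Ex_pow_card]
  have h3 : 1 - q + q * x ≤ Real.exp (q * (x - 1)) := by
    have := Real.add_one_le_exp (q * (x - 1))
    linarith
  have h4 : 0 ≤ 1 - q + q * x := by
    have := mul_nonneg h0 hx.le
    linarith
  calc (1 - q + q * x) ^ T.card ≤ (Real.exp (q * (x - 1))) ^ T.card :=
        pow_le_pow_left₀ h4 h3 _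
    _ = Real.exp (q * T.card * (x - 1)) := by
        rw [← Real.exp_nat_mul]; congr 1; ring

theorem chern_aux (h0 : 0 ≤ q) (h1 : q ≤ 1) {T : Finset α} (hT : T ⊆ U) {x : ℝ}
    (hx : 0 < x) :
    Pr U q (fun E => Real.exp (Real.log x * (x * (q * T.card))) ≤ x ^ (E ∩ T).card)
      ≤ Real.exp (-(rate x * (q * T.card))) := by
  refine (Pr_markov h0 h1 (fun E => x ^ (E ∩ T).card) (fun E _ => by positivity)
    (Real.exp_pos _)).trans ?_
  rw [div_le_iff₀ (Real.exp_pos _), ← Real.exp_add]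
  refine (Ex_pow_inter h0 h1 hT hx).trans (Real.exp_le_exp.mpr (le_of_eq ?_))
  unfold rate
  ring

theorem pow_eq_exp {x : ℝ} (hx : 0 < x) (m : ℕ) : x ^ m = Real.exp (Real.log x * m) := by
  rw [mul_comm, Real.exp_nat_mul, Real.exp_log hx]

theorem chern_up (h0 : 0 ≤ q) (h1 : q ≤ 1) {T : Finset α} (hT : T ⊆ U) {x : ℝ} (hx : 1 < x) :
    Pr U q (fun E => x * (q * T.card) ≤ ((E ∩ T).card : ℝ))
      ≤ Real.exp (-(rate x * (q * T.card))) := by
  refine le_trans (Pr_mono h0 h1 ?_) (chern_aux h0 h1 hT (by linarith))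
  intro E _ h
  rw [pow_eq_exp (by linarith : 0 < x)]
  apply Real.exp_le_exp.mpr
  exact mul_le_mul_of_nonneg_left h (Real.log_nonneg hx.le)

theorem chern_low (h0 : 0 ≤ q) (h1 : q ≤ 1) {T : Finset α} (hT : T ⊆ U) {x : ℝ} (hx : 0 < x)
    (hx1 : x < 1) :
    Pr U q (fun E => ((E ∩ T).card : ℝ) ≤ x * (q * T.card))
      ≤ Real.exp (-(rate x * (q * T.card))) := by
  refine le_trans (Pr_mono h0 h1 ?_) (chern_aux h0 h1 hT hx)
  intro E _ h
  rw [pow_eq_exp hx]
  apply Real.exp_le_exp.mpr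
  exact mul_le_mul_of_nonpos_left h (Real.log_nonpos hx.le hx1.le)

end

variable {V : Type*} [Fintype V] [DecidableEq V]

/-- all degrees are concentrated -/
theorem Pr_conc {p x y : ℝ} (h0 : 0 ≤ p) (h1 : p ≤ 1) (hx : 0 < x) (hx1 : x < 1) (hy : 1 < y)
    (hn : 1 ≤ Fintype.card V) :
    Pr (allp V) p (fun E => ∃ v : V, (deg E v : ℝ) ≤ x * (p * (Fintype.card V - 1)) ∨
      y * (p * (Fintype.card V - 1)) ≤ deg E v)
      ≤ Fintype.card V * (Real.exp (-(rate x * (p * (Fintype.card V - 1)))) +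
        Real.exp (-(rate y * (p * (Fintype.card V - 1))))) := by
  have hstep : Pr (allp V) p (fun E => ∃ v : V, (deg E v : ℝ) ≤ x * (p * (Fintype.card V - 1)) ∨
      y * (p * (Fintype.card V - 1)) ≤ deg E v)
      ≤ Pr (allp V) p (fun E => ∃ v ∈ (univ : Finset V),
        ((E ∩ st v (univ.erase v)).card : ℝ) ≤ x * (p * (st v (univ.erase v)).card) ∨
        y * (p * (st v (univ.erase v)).card) ≤ ((E ∩ st v (univ.erase v)).card : ℝ)) := by
    apply Pr_mono h0 h1
    rintro E hE ⟨v, hv⟩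
    refine ⟨v, Finset.mem_univ _, ?_⟩
    rw [← deg_eq_inter hE, card_st, card_erase_univ, Nat.cast_sub hn]
    push_cast
    exact hv
  refine hstep.trans ((Pr_exists_le h0 h1 _ _).trans ?_)
  have hterm : ∀ v ∈ (univ : Finset V), Pr (allp V) p (fun E =>
        ((E ∩ st v (univ.erase v)).card : ℝ) ≤ x * (p * (st v (univ.erase v)).card) ∨
        y * (p * (st v (univ.erase v)).card) ≤ ((E ∩ st v (univ.erase v)).card : ℝ))
      ≤ Real.exp (-(rate x * (p * (Fintype.card V - 1)))) +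
        Real.exp (-(rate y * (p * (Fintype.card V - 1)))) := by
    intro v _
    have hs : st v (univ.erase v) ⊆ allp V := st_subset (Finset.notMem_erase _ _)
    have hc : ((st v (univ.erase v)).card : ℝ) = Fintype.card V - 1 := by
      rw [card_st, card_erase_univ, Nat.cast_sub hn]; push_cast; rfl
    refine (Pr_or_le h0 h1 _ _).trans ?_
    have e1 := chern_low h0 h1 hs hx hx1
    have e2 := chern_up h0 h1 hs hy
    rw [hc] at e1 e2
    rw [hc]
    exact add_le_add e1 e2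
  refine (Finset.sum_le_sum hterm).trans ?_
  rw [Finset.sum_const, nsmul_eq_mul, Finset.card_univ]

/-- concentration makes the asked identity fail -/
theorem mE_lt_of_conc {E : Finset (Sym2 V)} {k : ℕ} (hk : 2 ≤ k) (hkn : k ≤ Fintype.card V)
    {μ : ℝ} (hμ : 2 * (k:ℝ) ≤ μ)
    (h : ∀ v : V, (1 - 1 / (4 * (k:ℝ))) * μ < deg E v ∧ (deg E v : ℝ) < (1 + 1 / (4 * (k:ℝ))) * μ)
    (v : V) : (mE E k : ℤ) < k * ((deg E v : ℤ) - 1) := by
  have hkR : (2:ℝ) ≤ k := by exact_mod_cast hk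
  have hk0 : (0:ℝ) < k := by linarith
  obtain ⟨S, _, hS⟩ := Finset.exists_subset_card_eq
    (show k - 1 ≤ (univ : Finset V).card by rw [Finset.card_univ]; omega)
  have h1 : mE E k ≤ (tch E S).card := Nat.sInf_le ⟨S, hS, rfl⟩
  have h2 := card_tch_le E S
  have h3 : ((∑ v ∈ S, deg E v : ℕ) : ℝ) ≤ (k - 1) * ((1 + 1 / (4 * (k:ℝ))) * μ) := by
    push_cast
    refine (Finset.sum_le_sum (fun v _ => (h v).2.le)).trans ?_
    rw [Finset.sum_const, hS, nsmul_eq_mul, Nat.cast_sub (by omega)]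
    push_cast
    exact le_rfl
  have h4 : (mE E k : ℝ) ≤ (k - 1) * ((1 + 1 / (4 * (k:ℝ))) * μ) := by
    have : (mE E k : ℝ) ≤ ((∑ v ∈ S, deg E v : ℕ) : ℝ) := by exact_mod_cast h1.trans h2
    linarith
  have h5 := (h v).1
  have h6 : (k - 1) * ((1 + 1 / (4 * (k:ℝ))) * μ) ≤ k * ((1 - 1 / (4 * (k:ℝ))) * μ - 1) := by
    have e1 : (k:ℝ) * ((1 - 1 / (4 * (k:ℝ))) * μ - 1) - (k - 1) * ((1 + 1 / (4 * (k:ℝ))) * μ)
      = (1 / 2 + 1 / (4 * k)) * μ - k := by
      field_simp
      ring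
    have e2 : (1 / 2 : ℝ) * μ ≤ (1 / 2 + 1 / (4 * k)) * μ := by
      apply mul_le_mul_of_nonneg_right _ (by linarith)
      have : (0:ℝ) ≤ 1 / (4 * k) := by positivity
      linarith
    linarith
  have h7 : (mE E k : ℝ) < k * ((deg E v : ℝ) - 1) := by
    have : (k:ℝ) * ((1 - 1 / (4 * (k:ℝ))) * μ - 1) < k * ((deg E v : ℝ) - 1) :=
      mul_lt_mul_of_pos_left (by linarith) hk0
    linarith
  have h8 : ((mE E k : ℤ) : ℝ) < ((k * ((deg E v : ℤ) - 1) : ℤ) : ℝ) := by
    push_cast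
    exact h7
  exact_mod_cast h8

/-- the identity fails when `np` is at least a large multiple of `log n` -/
theorem lim_two {k : ℕ} (hk : 2 ≤ k) : ∃ C : ℝ, 8 ≤ C ∧ ∀ p : ℕ → ℝ,
    (∀ n, 0 ≤ p n ∧ p n ≤ 1) → (∀ᶠ n : ℕ in atTop, C * Real.log n ≤ n * p n) →
    Tendsto (fun n : ℕ => Pr (allp (Fin n)) (p n)
      (fun E => ∀ v, (mE E k : ℤ) < k * ((deg E v : ℤ) - 1))) atTop (𝓝 1) := by
  have hkR : (2:ℝ) ≤ k := by exact_mod_cast hk
  have hk0 : (0:ℝ) < k := by linarith
  have hd0 : (0:ℝ) < 1 / (4 * (k:ℝ)) := by positivity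
  have hd1 : 1 / (4 * (k:ℝ)) < 1 := by
    rw [div_lt_one (by positivity)]
    linarith
  have ha : 0 < rate (1 - 1 / (4 * (k:ℝ))) := rate_pos (by linarith) (by linarith)
  have hb : 0 < rate (1 + 1 / (4 * (k:ℝ))) := rate_pos (by linarith) (by linarith)
  obtain ⟨c, hc0, hca, hcb⟩ : ∃ c : ℝ, 0 < c ∧ c ≤ rate (1 - 1 / (4 * (k:ℝ))) ∧
      c ≤ rate (1 + 1 / (4 * (k:ℝ))) := ⟨min _ _, lt_min ha hb, min_le_left _ _, min_le_right _ _⟩
  refine ⟨4 / c + 4 * k, ?_, ?_⟩
  · have : 0 < 4 / c := by positivity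
    linarith
  intro p hp hev
  have hlim : Tendsto (fun n : ℕ => 1 - 2 * Real.exp (-Real.log n)) atTop (𝓝 1) := by
    have h1 : Tendsto (fun n : ℕ => Real.exp (-Real.log n)) atTop (𝓝 0) :=
      Real.tendsto_exp_neg_atTop_nhds_zero.comp log_cast_tendsto
    have := (h1.const_mul 2).const_sub 1
    rw [mul_zero, sub_zero] at this
    exact this
  apply tendsto_of_tendsto_of_tendsto_of_le_of_le' hlim tendsto_const_nhds
  · filter_upwards [hev, eventually_ge_atTop (k + 3)] with n h1 h2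
    have hnR : (3:ℝ) ≤ n := by
      have : 3 ≤ n := by omega
      exact_mod_cast this
    have hn0 : (0:ℝ) < n := by linarith
    have hl1 : 1 ≤ Real.log n := by
      rw [Real.le_log_iff_exp_le (by linarith)]
      have := Real.exp_one_lt_d9.le
      linarith
    obtain ⟨q0, q1⟩ := hp n
    have hμ : (2 / c + 2 * k) * Real.log n ≤ p n * (n - 1) := by
      have e1 : (n:ℝ) * p n / 2 ≤ p n * (n - 1) := by nlinarith
      have e2 : (2 / c + 2 * k) * Real.log n = (4 / c + 4 * k) * Real.log n / 2 := by ring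
      linarith
    have hμ1 : 2 * (k:ℝ) ≤ p n * (n - 1) := by
      have e1 : 2 * (k:ℝ) * 1 ≤ 2 * k * Real.log n :=
        mul_le_mul_of_nonneg_left hl1 (by positivity)
      have e2 : 0 ≤ 2 / c * Real.log n := by positivity
      linarith
    have hμ2 : 2 * Real.log n ≤ c * (p n * (n - 1)) := by
      have e1 : c * ((2 / c + 2 * k) * Real.log n) ≤ c * (p n * (n - 1)) :=
        mul_le_mul_of_nonneg_left hμ hc0.le
      have e2 : c * ((2 / c + 2 * k) * Real.log n) = 2 * Real.log n + 2 * c * k * Real.log n := by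
        field_simp
      have e3 : 0 ≤ 2 * c * k * Real.log n := by positivity
      linarith
    have hμ0 : 0 ≤ p n * ((n:ℝ) - 1) := mul_nonneg q0 (by linarith)
    have h3 := Pr_conc (V := Fin n) q0 q1 (x := 1 - 1 / (4 * (k:ℝ))) (y := 1 + 1 / (4 * (k:ℝ)))
      (by linarith) (by linarith) (by linarith) (by rw [Fintype.card_fin]; omega)
    rw [Fintype.card_fin] at h3
    have h4 : (n:ℝ) * (Real.exp (-(rate (1 - 1 / (4 * (k:ℝ))) * (p n * (n - 1)))) +
        Real.exp (-(rate (1 + 1 / (4 * (k:ℝ))) * (p n * (n - 1))))) ≤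
        2 * Real.exp (-Real.log n) := by
      have e1 : ∀ a : ℝ, c ≤ a → (n:ℝ) * Real.exp (-(a * (p n * (n - 1))))
          ≤ Real.exp (-Real.log n) := by
        intro a hca'
        have e2 : Real.exp (-(a * (p n * (n - 1)))) ≤ Real.exp (-(2 * Real.log n)) := by
          apply Real.exp_le_exp.mpr
          have := mul_le_mul_of_nonneg_right hca' hμ0
          linarith
        calc (n:ℝ) * Real.exp (-(a * (p n * (n - 1))))
            ≤ Real.exp (Real.log n) * Real.exp (-(2 * Real.log n)) := by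
              apply mul_le_mul _ e2 (Real.exp_pos _).le (Real.exp_pos _).le
              rw [Real.exp_log hn0]
          _ = Real.exp (-Real.log n) := by rw [← Real.exp_add]; ring_nf
      have e3 := e1 _ hca
      have e4 := e1 _ hcb
      linarith
    have h5 : Pr (allp (Fin n)) (p n) (fun E => ¬ ∀ v, (mE E k : ℤ) < k * ((deg E v : ℤ) - 1))
        ≤ 2 * Real.exp (-Real.log n) := by
      refine le_trans (Pr_mono q0 q1 ?_) (h3.trans h4)
      intro E _ hne
      by_contra hcon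
      push Not at hcon
      apply hne
      intro v
      exact mE_lt_of_conc hk (by rw [Fintype.card_fin]; omega) hμ1 hcon v
    rw [Pr_not] at h5
    linarith
  · filter_upwards [] with n
    exact Pr_le_one (hp n).1 (hp n).2 _

end Pool.Agent.Helper96.PC
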