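import Mathlib
import Pool.Agent.Helper96.PC.MainB

set_option autoImplicit false
set_option linter.unusedSectionVars false
set_option linter.unusedVariables false
open Classical Finset

namespace Pool.Agent.Helper96.PC

/-- quantitative form of the main theorem, uniform in `k` -/
theorem main_bound_unif : ∃ C γ A : ℝ, 0 < A ∧ 0 < γ ∧ ∀ k : ℕ, 2 ≤ k → ∀ (W : Type) [Fintype W]
    [DecidableEq W] (p : ℝ), 0 ≤ p → p ≤ 1 → A * (k:ℝ) ^ 6 ≤ Fintype.card W * p →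
    (Fintype.card W : ℝ) ≤ Real.exp (Fintype.card W * p) →
    1 - (Fintype.card W * ((1 + Fintype.card W * p) * Real.exp (2 - Fintype.card W * p)) +
      C * (k * ((Fintype.card W * p) ^ 4 * Real.exp (-(γ * (Fintype.card W * p / k))))))
      ≤ Pr (allp W) p (fun E => 0 < mE E k ∧ fE E k = mE E k) := by
  refine ⟨4 * Real.exp 9 + 2 * (Real.exp 1 * (16800 * 33606)) + 10, 1 / 13442400,
    10 ^ 20, by norm_num, by norm_num, ?_⟩
  intro k hk W _ _ p h0 h1 hAd hnexp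
  obtain ⟨d, hd⟩ : ∃ d : ℝ, d = Fintype.card W * p := ⟨_, rfl⟩
  rw [← hd] at hAd hnexp ⊢
  have hkR : (2:ℝ) ≤ k := by exact_mod_cast hk
  have hk1 : (1:ℝ) ≤ k := by linarith
  have hk0 : (0:ℝ) < k := by linarith
  obtain ⟨r, hr⟩ : ∃ r : ℕ, r = (k - 1) * (k + k * (33600 * k + k)) := ⟨_, rfl⟩
  obtain ⟨K, hK⟩ : ∃ K : ℕ, K = 33600 * k + (r + 2 * r * (r + 1)) + 40 * r + 20 * k + 4 := ⟨_, rfl⟩
  obtain ⟨c, hc⟩ : ∃ c : ℕ, c = 7 * (5600 * k) + 1 := ⟨_, rfl⟩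
  obtain ⟨M', hM'⟩ : ∃ M' : ℝ, M' = ((5 + 33600 * k : ℕ) : ℝ) + 1 := ⟨_, rfl⟩
  have hM1 : M' = 33600 * k + 6 := by rw [hM']; push_cast; ring
  have hM0 : 1 ≤ M' := by rw [hM1]; linarith
  have hMpos : 0 < M' := by linarith
  have hM2 : M' ≤ 33606 * k := by rw [hM1]; linarith
  obtain ⟨θ, hθ⟩ : ∃ θ : ℝ, θ = 1 / (800 * M') := ⟨_, rfl⟩
  obtain ⟨β, hβ⟩ : ∃ β : ℝ, β = θ / 21 := ⟨_, rfl⟩
  have hθ0 : 0 < θ := by rw [hθ]; positivity
  have hθM : θ * (800 * M') = 1 := by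
    rw [hθ]; field_simp
  have hθ1 : θ ≤ 1 / 800 := by
    rw [hθ]
    apply one_div_le_one_div_of_le (by norm_num)
    linarith
  have hβ0 : 0 < β := by rw [hβ]; positivity
  have iθ : 1 / θ = 800 * M' := by rw [hθ]; field_simp
  have iβ : 1 / β = 16800 * M' := by rw [hβ, hθ]; field_simp; norm_num
  -- powers of k
  have q2 : (k:ℝ) ^ 2 ≤ (k:ℝ) ^ 6 := pow_le_pow_right₀ hk1 (by norm_num)
  have q1 : (k:ℝ) ≤ (k:ℝ) ^ 6 := by
    calc (k:ℝ) = (k:ℝ) ^ 1 := (pow_one _).symm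
      _ ≤ (k:ℝ) ^ 6 := pow_le_pow_right₀ hk1 (by norm_num)
  have q3 : (k:ℝ) ^ 3 ≤ (k:ℝ) ^ 6 := pow_le_pow_right₀ hk1 (by norm_num)
  have q0 : 1 ≤ (k:ℝ) ^ 6 := one_le_pow₀ hk1
  have hM3 : M' ^ 2 ≤ (33606:ℝ) ^ 2 * (k:ℝ) ^ 2 := by
    rw [← mul_pow]
    exact pow_le_pow_left₀ hMpos.le hM2 2
  have hrR : (r:ℝ) ≤ 33602 * (k:ℝ) ^ 3 := by
    have h2 : r ≤ k * (k + k * (33600 * k + k)) := by
      rw [hr]; exact Nat.mul_le_mul_right _ (Nat.sub_le _ _)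
    have h3 : (r:ℝ) ≤ ((k * (k + k * (33600 * k + k)) : ℕ) : ℝ) := by exact_mod_cast h2
    push_cast at h3
    have h4 : (k:ℝ) ^ 2 ≤ (k:ℝ) ^ 3 := pow_le_pow_right₀ hk1 (by norm_num)
    have h5 : (k:ℝ) * (k + k * (33600 * k + k)) = 33601 * (k:ℝ) ^ 3 + (k:ℝ) ^ 2 := by ring
    linarith
  have hr0 : (0:ℝ) ≤ r := by positivity
  have hr2 : (r:ℝ) ^ 2 ≤ 33602 ^ 2 * (k:ℝ) ^ 6 := by
    calc (r:ℝ) ^ 2 ≤ (33602 * (k:ℝ) ^ 3) ^ 2 := pow_le_pow_left₀ hr0 hrR 2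
      _ = 33602 ^ 2 * (k:ℝ) ^ 6 := by ring
  have hrk : (r:ℝ) ≤ 33602 * (k:ℝ) ^ 6 := by linarith
  have hKR : (K:ℝ) ≤ 10 ^ 12 * (k:ℝ) ^ 6 := by
    rw [hK]
    push_cast
    have : 2 * (r:ℝ) * (r + 1) = 2 * (r:ℝ) ^ 2 + 2 * r := by ring
    rw [this]
    linarith
  have c1 : 100 * (K:ℝ) ≤ d := by linarith
  have c2 : 2800 ≤ d := by linarith
  have c3 : 3 / (β * θ) ≤ d := by
    have : 3 / (β * θ) = 3 * ((1 / β) * (1 / θ)) := by field_simp
    rw [this, iβ, iθ]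
    have : 3 * ((16800 * M') * (800 * M')) = 40320000 * M' ^ 2 := by ring
    rw [this]
    linarith
  have c4 : 1 / θ ≤ d := by rw [iθ]; linarith
  have c5 : 480 * (((5 + 33600 * k : ℕ) : ℝ) + 1) / β ≤ d := by
    rw [← hM']
    have : 480 * M' / β = 480 * M' * (1 / β) := by field_simp
    rw [this, iβ]
    have : 480 * M' * (16800 * M') = 8064000 * M' ^ 2 := by ring
    rw [this]
    linarith
  have c6 : (20000 * (14 * k + ((2 * r : ℕ) : ℝ))) ^ 2 ≤ d := by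
    have h2 : 20000 * (14 * k + ((2 * r : ℕ) : ℝ)) ≤ 1400000000 * (k:ℝ) ^ 3 := by
      push_cast
      have h3 : (k:ℝ) ≤ (k:ℝ) ^ 3 := by
        calc (k:ℝ) = (k:ℝ) ^ 1 := (pow_one _).symm
          _ ≤ (k:ℝ) ^ 3 := pow_le_pow_right₀ hk1 (by norm_num)
      linarith
    calc (20000 * (14 * k + ((2 * r : ℕ) : ℝ))) ^ 2 ≤ (1400000000 * (k:ℝ) ^ 3) ^ 2 :=
          pow_le_pow_left₀ (by positivity) h2 2
      _ = 1400000000 ^ 2 * (k:ℝ) ^ 6 := by ring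
      _ ≤ d := by linarith
  have hcR : (c:ℝ) = 39200 * k + 1 := by rw [hc]; push_cast; ring
  have c7 : (3200 * ((c : ℝ) + 1)) ^ 2 ≤ d := by
    have h2 : 3200 * ((c : ℝ) + 1) ≤ 130000000 * k := by rw [hcR]; linarith
    calc (3200 * ((c : ℝ) + 1)) ^ 2 ≤ (130000000 * (k:ℝ)) ^ 2 :=
          pow_le_pow_left₀ (by positivity) h2 2
      _ = 130000000 ^ 2 * (k:ℝ) ^ 2 := by ring
      _ ≤ d := by linarith
  have c8 : 560 * k * (((5 + 33600 * k : ℕ) : ℝ) + 1) / β ≤ d := by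
    rw [← hM']
    have : 560 * k * M' / β = 560 * k * M' * (1 / β) := by field_simp
    rw [this, iβ]
    have h2 : 560 * k * M' * (16800 * M') = 9408000 * (k * M' ^ 2) := by ring
    rw [h2]
    have h3 : (k:ℝ) * M' ^ 2 ≤ k * ((33606:ℝ) ^ 2 * (k:ℝ) ^ 2) :=
      mul_le_mul_of_nonneg_left hM3 hk0.le
    have h4 : (k:ℝ) * ((33606:ℝ) ^ 2 * (k:ℝ) ^ 2) = (33606:ℝ) ^ 2 * (k:ℝ) ^ 3 := by ring
    rw [h4] at h3
    linarith
  have c9 : 2 / β ≤ d := by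
    have : 2 / β = 2 * (1 / β) := by field_simp
    rw [this, iβ]
    linarith
  have c10 : 160 * ((c:ℝ) + 1) ≤ d := by rw [hcR]; linarith
  have c11 : 2240 * (k:ℝ) ≤ d := by linarith
  rw [hM'] at hθM
  have hcore := core_bound (V := W) hk hr hK hc hθ0 hθ1 hθM hβ h0 h1 hd hnexp c1 c2 c3 c4 c5 c6
    c7 c8 c9 c10 c11
  refine le_trans ?_ hcore
  have hd0 : 0 < d := by linarith
  have hu : uu θ d ≤ d ^ 4 * Real.exp (-(1 / 13442400 * (d / k))) := by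
    unfold uu
    apply mul_le_mul_of_nonneg_left _ (by positivity)
    apply Real.exp_le_exp.mpr
    have h2 : 1 / (13442400 * (k:ℝ)) ≤ 2 * θ := by
      have h6 : 2 * θ = 1 / (400 * M') := by rw [hθ]; field_simp; norm_num
      rw [h6]
      apply one_div_le_one_div_of_le (by positivity)
      linarith
    have h3 : 1 / (13442400 * (k:ℝ)) * d ≤ 2 * θ * d := mul_le_mul_of_nonneg_right h2 hd0.le
    have h4 : 1 / (13442400 * (k:ℝ)) * d = 1 / 13442400 * (d / k) := by field_simp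
    linarith
  have hu0 : 0 ≤ uu θ d := by unfold uu; positivity
  have hC : 4 * Real.exp 9 + 2 * (Real.exp 1 / β) + 10
      ≤ (4 * Real.exp 9 + 2 * (Real.exp 1 * (16800 * 33606)) + 10) * k := by
    have h2 : Real.exp 1 / β = Real.exp 1 * (1 / β) := by field_simp
    rw [h2, iβ]
    have h3 : Real.exp 1 * (16800 * M') ≤ Real.exp 1 * (16800 * 33606) * k := by
      have : Real.exp 1 * (16800 * M') ≤ Real.exp 1 * (16800 * (33606 * k)) := by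
        apply mul_le_mul_of_nonneg_left _ (Real.exp_pos _).le
        linarith
      linarith
    have h4 : 4 * Real.exp 9 + 10 ≤ (4 * Real.exp 9 + 10) * k :=
      le_mul_of_one_le_right (by positivity) hk1
    linarith
  have hfin : (4 * Real.exp 9 + 2 * (Real.exp 1 / β) + 10) * uu θ d
      ≤ (4 * Real.exp 9 + 2 * (Real.exp 1 * (16800 * 33606)) + 10) *
        (k * (d ^ 4 * Real.exp (-(1 / 13442400 * (d / k))))) := by
    rw [← mul_assoc]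
    exact mul_le_mul hC hu hu0 (by positivity)
  linarith

end Pool.Agent.Helper96.PC
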