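import Mathlib
import Pool.Agent.Helper96.PC.MainU
import Pool.Agent.Helper96.PC.Conc

set_option autoImplicit false
set_option linter.unusedSectionVars false
set_option linter.unusedVariables false
open Classical Finset Filter Topology

namespace Pool.Agent.Helper96.PC

/-- `f_k = m_k` with high probability, with `k` allowed to grow -/
theorem lim_unif : ∃ c : ℝ, 0 < c ∧ ∀ (k : ℕ → ℕ) (p : ℕ → ℝ), (∀ n, 0 ≤ p n ∧ p n ≤ 1) →
    (∀ᶠ n : ℕ in atTop, 2 ≤ k n ∧ ((k n : ℕ) : ℝ) ^ 6 ≤ c * ((n:ℝ) * p n)) →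
    Tendsto (fun n : ℕ => (n:ℝ) * p n - Real.log n - Real.log (Real.log n)) atTop atTop →
    Tendsto (fun n : ℕ => Pr (allp (Fin n)) (p n)
      (fun E => 0 < mE E (k n) ∧ fE E (k n) = mE E (k n))) atTop (𝓝 1) := by
  obtain ⟨C, γ, A, hA, hγ, hmain⟩ := main_bound_unif
  refine ⟨1 / (A + 1), by positivity, ?_⟩
  intro k p hp hk hw
  have hdtop : Tendsto (fun n : ℕ => (n:ℝ) * p n) atTop atTop := by
    apply tendsto_atTop_mono' atTop _ log_cast_tendsto
    filter_upwards [hw.eventually_ge_atTop 0, eventually_ge_atTop 3] with n h1 h2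
    have hnR : (3:ℝ) ≤ n := by exact_mod_cast h2
    have hl1 : 1 ≤ Real.log n := by
      rw [Real.le_log_iff_exp_le (by linarith)]
      have := Real.exp_one_lt_d9.le
      linarith
    have := Real.log_nonneg hl1
    linarith
  have hx : Tendsto (fun n : ℕ => (n:ℝ) * ((1 + n * p n) * Real.exp (2 - n * p n))) atTop
      (𝓝 0) := by
    have hup := tendsto_lin_exp.comp hw
    apply squeeze_zero' _ _ hup
    · filter_upwards [] with n
      have := (hp n).1
      positivity
    · filter_upwards [hw.eventually_ge_atTop 0, eventually_ge_atTop 3] with n h1 h2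
      exact one_bound h2 h1 (by ring)
  have hy0 : Tendsto (fun n : ℕ => ((k n : ℕ) : ℝ) * (((n:ℝ) * p n) ^ 4 *
      Real.exp (-(γ * ((n:ℝ) * p n / k n))))) atTop (𝓝 0) := by
    have hs : Tendsto (fun n : ℕ => Real.sqrt ((n:ℝ) * p n)) atTop atTop :=
      Real.tendsto_sqrt_atTop.comp hdtop
    have hup := (tendsto_pow_exp hγ 10).comp hs
    apply squeeze_zero' _ _ hup
    · filter_upwards [] with n
      have := (hp n).1
      positivity
    · filter_upwards [hk, hdtop.eventually_ge_atTop 1] with n h1 h2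
      obtain ⟨d, hd⟩ : ∃ d : ℝ, d = (n:ℝ) * p n := ⟨_, rfl⟩
      simp only [Function.comp]
      rw [← hd] at h1 h2 ⊢
      have hd0 : 0 < d := by linarith
      obtain ⟨hk2, hk6⟩ := h1
      have hkR : (2:ℝ) ≤ ((k n : ℕ) : ℝ) := by exact_mod_cast hk2
      have hk0 : (0:ℝ) < ((k n : ℕ) : ℝ) := by linarith
      have hk6' : ((k n : ℕ) : ℝ) ^ 6 ≤ d := by
        have h3 : 1 / (A + 1) ≤ 1 := by
          rw [div_le_one (by positivity)]; linarith
        have h4 : 1 / (A + 1) * d ≤ 1 * d := mul_le_mul_of_nonneg_right h3 hd0.le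
        linarith
      have hk2' : ((k n : ℕ) : ℝ) ^ 2 ≤ d :=
        (pow_le_pow_right₀ (by linarith) (by norm_num)).trans hk6'
      have hks : ((k n : ℕ) : ℝ) ≤ Real.sqrt d := Real.le_sqrt_of_sq_le hk2'
      have hsd : Real.sqrt d * Real.sqrt d = d := Real.mul_self_sqrt hd0.le
      have hs0 : 0 < Real.sqrt d := Real.sqrt_pos.mpr hd0
      have h5 : Real.sqrt d ≤ d / ((k n : ℕ) : ℝ) := by
        rw [le_div_iff₀ hk0]
        calc Real.sqrt d * ((k n : ℕ) : ℝ) ≤ Real.sqrt d * Real.sqrt d :=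
              mul_le_mul_of_nonneg_left hks hs0.le
          _ = d := hsd
      have h6 : Real.exp (-(γ * (d / ((k n : ℕ) : ℝ)))) ≤ Real.exp (-(γ * Real.sqrt d)) := by
        apply Real.exp_le_exp.mpr
        have := mul_le_mul_of_nonneg_left h5 hγ.le
        linarith
      have h7 : ((k n : ℕ) : ℝ) ≤ d := by
        have : Real.sqrt d ≤ d := by
          have h8 : 1 ≤ Real.sqrt d := by
            rw [Real.one_le_sqrt]; exact h2
          calc Real.sqrt d = Real.sqrt d * 1 := (mul_one _).symm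
            _ ≤ Real.sqrt d * Real.sqrt d := mul_le_mul_of_nonneg_left h8 hs0.le
            _ = d := hsd
        linarith
      calc ((k n : ℕ) : ℝ) * (d ^ 4 * Real.exp (-(γ * (d / ((k n : ℕ) : ℝ)))))
          ≤ d * (d ^ 4 * Real.exp (-(γ * Real.sqrt d))) := by
            apply mul_le_mul h7 _ (by positivity) hd0.le
            exact mul_le_mul_of_nonneg_left h6 (by positivity)
        _ = (Real.sqrt d * Real.sqrt d) ^ 5 * Real.exp (-(γ * Real.sqrt d)) := by
            rw [hsd]; ring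
        _ = Real.sqrt d ^ 10 * Real.exp (-(γ * Real.sqrt d)) := by ring
  have hy : Tendsto (fun n : ℕ => C * (((k n : ℕ) : ℝ) * (((n:ℝ) * p n) ^ 4 *
      Real.exp (-(γ * ((n:ℝ) * p n / k n)))))) atTop (𝓝 0) := by
    have := hy0.const_mul C
    rw [mul_zero] at this
    exact this
  have hlow : Tendsto (fun n : ℕ => 1 - ((n:ℝ) * ((1 + n * p n) * Real.exp (2 - n * p n)) +
      C * (((k n : ℕ) : ℝ) * (((n:ℝ) * p n) ^ 4 * Real.exp (-(γ * ((n:ℝ) * p n / k n)))))))
      atTop (𝓝 1) := by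
    have := (hx.add hy).const_sub 1
    rw [add_zero, sub_zero] at this
    exact this
  apply tendsto_of_tendsto_of_tendsto_of_le_of_le' hlow tendsto_const_nhds
  · filter_upwards [hk, hw.eventually_ge_atTop 0, eventually_ge_atTop 3] with n h1 h2 h3
    have hnR : (3:ℝ) ≤ n := by exact_mod_cast h3
    have hl1 : 1 ≤ Real.log n := by
      rw [Real.le_log_iff_exp_le (by linarith)]
      have := Real.exp_one_lt_d9.le
      linarith
    have hll := Real.log_nonneg hl1
    have hexp : (n:ℝ) ≤ Real.exp (n * p n) := by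
      rw [← Real.log_le_iff_le_exp (by linarith)]
      linarith
    have hnp0 : 0 ≤ (n:ℝ) * p n := mul_nonneg (by linarith) (hp n).1
    have hAk : A * ((k n : ℕ) : ℝ) ^ 6 ≤ (n:ℝ) * p n := by
      have h4 : A * ((k n : ℕ) : ℝ) ^ 6 ≤ A * (1 / (A + 1) * ((n:ℝ) * p n)) :=
        mul_le_mul_of_nonneg_left h1.2 hA.le
      have h5 : A * (1 / (A + 1) * ((n:ℝ) * p n)) = (A / (A + 1)) * ((n:ℝ) * p n) := by
        field_simp
      have h6 : A / (A + 1) ≤ 1 := by
        rw [div_le_one (by positivity)]; linarith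
      have h7 : (A / (A + 1)) * ((n:ℝ) * p n) ≤ 1 * ((n:ℝ) * p n) :=
        mul_le_mul_of_nonneg_right h6 hnp0
      linarith
    have := hmain (k n) h1.1 (Fin n) (p n) (hp n).1 (hp n).2
      (by rw [Fintype.card_fin]; exact hAk) (by rw [Fintype.card_fin]; exact hexp)
    rw [Fintype.card_fin] at this
    exact this
  · filter_upwards [] with n
    exact Pr_le_one (hp n).1 (hp n).2 _

end Pool.Agent.Helper96.PC
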